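import Mathlib

/-!
# Polynomial square roots and the antisymmetric weight

For a set `S` of `2 m` pairs `(z, b)` such that for each of `m` parameters `a` every value of
`b + z a` is taken exactly twice, we construct a nowhere vanishing weight on `S` which is
antisymmetric with respect to all `m` pairings.
-/

open Finset Polynomial

set_option linter.unusedVariables false

namespace Pool.Agent.H57.Sqrt

/-- uniqueness of polynomial square roots -/
theorem sqrt_unique {R : Type*} [CommRing R] [Nontrivial R] (h2 : IsUnit (2 : R)) {m : ℕ}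
    {P Q : R[X]} (hP : P.Monic) (hQ : Q.Monic) (hPm : P.natDegree = m) (hQm : Q.natDegree = m)
    (hd : (P ^ 2 - Q ^ 2).degree < m) : P = Q := by
  by_contra hne
  obtain ⟨u, hu⟩ := h2
  have hsub : P - Q ≠ 0 := sub_ne_zero.2 hne
  have hmon : (C (↑u⁻¹ : R) * (P + Q)).Monic := by
    rcases Nat.eq_zero_or_pos m with hm0 | hm0
    · exfalso
      apply hne
      rw [hm0] at hPm hQm
      rw [hP.natDegree_eq_zero.1 hPm, hQ.natDegree_eq_zero.1 hQm]
    have hcoef : (P + Q).coeff m = 2 := by
      rw [coeff_add, ← hPm, hP.coeff_natDegree, hPm, ← hQm, hQ.coeff_natDegree]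
      norm_num
    have hdeg : (P + Q).natDegree ≤ m := by
      refine (natDegree_add_le _ _).trans ?_
      rw [hPm, hQm, max_self]
    apply monic_of_natDegree_le_of_coeff_eq_one m
    · exact (natDegree_C_mul_le _ _).trans hdeg
    · rw [coeff_C_mul, hcoef, ← hu, Units.inv_mul]
  have hmul : P ^ 2 - Q ^ 2 = C (u : R) * ((P - Q) * (C (↑u⁻¹ : R) * (P + Q))) := by
    have : (C (u : R)) * C (↑u⁻¹ : R) = 1 := by
      rw [← C_mul, Units.mul_inv, C_1]
    calc P ^ 2 - Q ^ 2 = 1 * ((P - Q) * (P + Q)) := by ring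
      _ = (C (u : R) * C (↑u⁻¹ : R)) * ((P - Q) * (P + Q)) := by rw [this]
      _ = _ := by ring
  have hdegM : (C (↑u⁻¹ : R) * (P + Q)).natDegree = m := by
    have hcoef : (P + Q).coeff m = 2 := by
      rw [coeff_add, ← hPm, hP.coeff_natDegree, hPm, ← hQm, hQ.coeff_natDegree]
      norm_num
    have hdeg : (P + Q).natDegree ≤ m := by
      refine (natDegree_add_le _ _).trans ?_
      rw [hPm, hQm, max_self]
    apply le_antisymm ((natDegree_C_mul_le _ _).trans hdeg)
    apply le_natDegree_of_ne_zero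
    rw [coeff_C_mul, hcoef, ← hu, Units.inv_mul]
    exact one_ne_zero
  have hdegmul : ((P - Q) * (C (↑u⁻¹ : R) * (P + Q))).degree = (P - Q).degree + m := by
    rw [hmon.degree_mul, degree_eq_natDegree hmon.ne_zero, hdegM]
  have h3 : (m : WithBot ℕ) ≤ ((P - Q) * (C (↑u⁻¹ : R) * (P + Q))).degree := by
    rw [hdegmul, degree_eq_natDegree hsub]
    exact_mod_cast Nat.le_add_left m _
  have h4 : ((P - Q) * (C (↑u⁻¹ : R) * (P + Q))).degree ≤ (P ^ 2 - Q ^ 2).degree := by
    have : (P - Q) * (C (↑u⁻¹ : R) * (P + Q)) = C (↑u⁻¹ : R) * (P ^ 2 - Q ^ 2) := by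
      rw [hmul, ← mul_assoc (C (↑u⁻¹ : R)), ← C_mul, Units.inv_mul, C_1, one_mul]
    rw [this]
    calc (C (↑u⁻¹ : R) * (P ^ 2 - Q ^ 2)).degree
        ≤ (C (↑u⁻¹ : R)).degree + (P ^ 2 - Q ^ 2).degree := degree_mul_le _ _
      _ ≤ 0 + (P ^ 2 - Q ^ 2).degree := by gcongr; exact degree_C_le
      _ = _ := zero_add _
  exact absurd (h3.trans h4) (not_le.2 hd)

/-- total degree bound for bivariate polynomials -/
def TD (n : ℕ) (P : ℂ[X][X]) : Prop := ∀ i j, n < i + j → (P.coeff i).coeff j = 0

theorem TD.add {n : ℕ} {P Q : ℂ[X][X]} (hP : TD n P) (hQ : TD n Q) : TD n (P + Q) := by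
  intro i j h
  rw [coeff_add, coeff_add, hP i j h, hQ i j h, add_zero]

theorem TD.sub {n : ℕ} {P Q : ℂ[X][X]} (hP : TD n P) (hQ : TD n Q) : TD n (P - Q) := by
  intro i j h
  rw [coeff_sub, coeff_sub, hP i j h, hQ i j h, sub_zero]

theorem TD.mul {n k : ℕ} {P Q : ℂ[X][X]} (hP : TD n P) (hQ : TD k Q) : TD (n + k) (P * Q) := by
  intro i j h
  rw [coeff_mul, finsetSum_coeff]
  apply Finset.sum_eq_zero
  rintro ⟨i1, i2⟩ hi
  rw [coeff_mul]
  apply Finset.sum_eq_zero
  rintro ⟨j1, j2⟩ hj
  rw [HasAntidiagonal.mem_antidiagonal] at hi hj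
  simp only at hi hj ⊢
  by_cases h1 : n < i1 + j1
  · rw [hP i1 j1 h1, zero_mul]
  · rw [hQ i2 j2 (by omega), mul_zero]

theorem TD.prod {ι : Type*} (s : Finset ι) (f : ι → ℂ[X][X]) (h : ∀ i ∈ s, TD 1 (f i)) :
    TD s.card (∏ i ∈ s, f i) := by
  classical
  induction s using Finset.induction_on with
  | empty =>
    intro i j hij
    simp only [Finset.prod_empty, Finset.card_empty] at hij ⊢
    rw [coeff_one]
    split_ifs with h1
    · subst h1
      rw [coeff_one, if_neg (by omega)]
    · simp
  | insert a s ha ih =>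
    rw [Finset.prod_insert ha, Finset.card_insert_of_notMem ha, add_comm]
    exact (h a (Finset.mem_insert_self _ _)).mul (ih fun i hi => h i (Finset.mem_insert_of_mem hi))

theorem TD_X_pow (n : ℕ) : TD n ((X : ℂ[X][X]) ^ n) := by
  intro i j hij
  rw [coeff_X_pow]
  split_ifs with h
  · rw [coeff_one, if_neg (by omega)]
  · simp

/-- the degree of the restriction to a line -/
theorem TD.natDegree_eval {n : ℕ} {P : ℂ[X][X]} (hP : TD n P) {α : ℂ[X]}
    (hα : α.natDegree ≤ 1) : (P.eval α).natDegree ≤ n := by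
  rw [eval_eq_sum, Polynomial.sum]
  apply natDegree_sum_le_of_forall_le
  intro i hi
  have hi0 : P.coeff i ≠ 0 := mem_support_iff.1 hi
  have h1 : (P.coeff i).natDegree + i ≤ n := by
    by_contra hcon
    push Not at hcon
    have := hP i (P.coeff i).natDegree (by omega)
    rw [coeff_natDegree, leadingCoeff_eq_zero] at this
    exact hi0 this
  calc (P.coeff i * α ^ i).natDegree ≤ (P.coeff i).natDegree + (α ^ i).natDegree :=
        natDegree_mul_le
    _ ≤ (P.coeff i).natDegree + i * 1 :=
        Nat.add_le_add_left (natDegree_pow_le.trans (Nat.mul_le_mul_left i hα)) _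
    _ ≤ n := by omega

/-- existence of a polynomial square root with a total degree bound -/
theorem exists_sqrt (m : ℕ) (R : ℂ[X][X]) (hR : R.Monic) (hRm : R.natDegree = 2 * m)
    (hTD : TD (2 * m) R) :
    ∃ Q : ℂ[X][X], Q.Monic ∧ Q.natDegree = m ∧ TD m Q ∧ (R - Q ^ 2).degree < m := by
  have key : ∀ j ≤ m, ∃ Q : ℂ[X][X], Q.Monic ∧ Q.natDegree = m ∧ TD m Q ∧
      ∀ i, 2 * m ≤ i + j → (R - Q ^ 2).coeff i = 0 := by
    intro j
    induction j with
    | zero =>
      intro _
      refine ⟨X ^ m, monic_X_pow m, natDegree_X_pow m, TD_X_pow m, fun i hi => ?_⟩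
      rw [coeff_sub, ← pow_mul, coeff_X_pow]
      rcases Nat.lt_or_ge (2 * m) i with h | h
      · rw [coeff_eq_zero_of_natDegree_lt (by omega), if_neg (by omega), sub_zero]
      · have : i = 2 * m := by omega
        rw [this, ← hRm, hR.coeff_natDegree, hRm, if_pos (by ring), sub_self]
    | succ j ih =>
      intro hj
      obtain ⟨Q, hQ, hQm, hQT, hQc⟩ := ih (by omega)
      set γ : ℂ[X] := (R - Q ^ 2).coeff (2 * m - j - 1) with hγ
      set G : ℂ[X][X] := C (C (1 / 2 : ℂ) * γ) * X ^ (m - j - 1) with hG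
      have hTDR : TD (2 * m) (R - Q ^ 2) := by
        apply hTD.sub
        have := hQT.mul hQT
        rw [← pow_two, ← two_mul] at this
        exact this
      have hGT : TD m G := by
        intro i l hil
        rw [hG, coeff_C_mul, coeff_X_pow]
        split_ifs with h
        · rw [mul_one, coeff_C_mul, hTDR _ _ (by omega), mul_zero]
        · simp
      have hGdeg : G.natDegree ≤ m - j - 1 := by
        rw [hG]
        exact natDegree_C_mul_X_pow_le _ _
      have hGlt : G.degree < Q.degree := by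
        rw [degree_eq_natDegree hQ.ne_zero, hQm]
        refine lt_of_le_of_lt (degree_le_natDegree) ?_
        exact_mod_cast (show G.natDegree < m by omega)
      refine ⟨Q + G, hQ.add_of_left hGlt, ?_, hQT.add hGT, ?_⟩
      · rw [natDegree_add_eq_left_of_degree_lt hGlt, hQm]
      · intro i hi
        have hexp : R - (Q + G) ^ 2 = (R - Q ^ 2) - C (C (2 : ℂ)) * (Q * G) - G * G := by
          have : (C (C (2 : ℂ)) : ℂ[X][X]) = 2 := by
            rw [map_ofNat, map_ofNat]
          rw [this]; ring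
        rw [hexp, coeff_sub, coeff_sub, coeff_C_mul]
        have hGG : (G * G).coeff i = 0 := by
          apply coeff_eq_zero_of_natDegree_lt
          refine lt_of_le_of_lt natDegree_mul_le ?_
          omega
        rw [hGG, sub_zero]
        rcases Nat.lt_or_ge (2 * m) (i + j + 1) with h | h
        · have hi' : 2 * m ≤ i + j := by omega
          rw [hQc i hi', zero_sub, neg_eq_zero]
          have : (Q * G).coeff i = 0 := by
            apply coeff_eq_zero_of_natDegree_lt
            refine lt_of_le_of_lt natDegree_mul_le ?_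
            rw [hQm]; omega
          rw [this, mul_zero]
        · have hi' : i = m + (m - j - 1) := by omega
          have hi'' : i = 2 * m - j - 1 := by omega
          have h1 : (Q * G).coeff i = C (1 / 2 : ℂ) * γ := by
            rw [hi', hG, mul_left_comm, coeff_C_mul, coeff_mul_X_pow, ← hQm,
              hQ.coeff_natDegree, mul_one]
          rw [h1, hi'', ← hγ, ← mul_assoc, ← C_mul]
          norm_num
  obtain ⟨Q, hQ, hQm, hQT, hQc⟩ := key m le_rfl
  refine ⟨Q, hQ, hQm, hQT, ?_⟩
  rw [degree_lt_iff_coeff_zero]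
  intro i hi
  exact hQc i (by omega)

end Pool.Agent.H57.Sqrt
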