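import Mathlib
import Pool.Agent.H57.Sqrt

/-!
# The antisymmetric weight
-/

open Finset Polynomial DualNumber TrivSqZeroExt

set_option linter.unusedVariables false

namespace Pool.Agent.H57.Sqrt

/-- inclusion of scalars in the dual numbers -/
noncomputable abbrev io : ℂ →+* DualNumber ℂ := algebraMap ℂ (DualNumber ℂ)

theorem fst_io (x : ℂ) : (io x).fst = x := by
  rw [io, algebraMap_eq_inl]; simp

theorem snd_io (x : ℂ) : (io x).snd = 0 := by
  rw [io, algebraMap_eq_inl]; simp

/-- `a + ε` -/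
noncomputable def ae (a : ℂ) : DualNumber ℂ := io a + ε

/-- evaluation at `a + ε` -/
noncomputable def φ (a : ℂ) : ℂ[X] →+* DualNumber ℂ := eval₂RingHom io (ae a)

theorem φ_C (a x : ℂ) : φ a (C x) = io x := by simp [φ]

theorem φ_X (a : ℂ) : φ a X = ae a := by simp [φ]

theorem mul_eps_eq (k : DualNumber ℂ) : k * ε = io k.fst * ε := by
  ext
  · simp [fst_io]
  · simp [fst_io]

theorem prod_mul_eps {ι : Type*} (t : Finset ι) (k : ι → DualNumber ℂ) :
    (∏ i ∈ t, k i) * ε = io (∏ i ∈ t, (k i).fst) * ε := by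
  classical
  induction t using Finset.induction_on with
  | empty => simp
  | insert i t hi ih =>
    rw [Finset.prod_insert hi, Finset.prod_insert hi, mul_assoc, ih, map_mul, mul_left_comm,
      mul_eps_eq (k i)]
    ring

theorem fst_φ (a : ℂ) (q : ℂ[X]) : (φ a q).fst = q.eval a := by
  have : (fstHom ℂ ℂ ℂ : DualNumber ℂ →ₐ[ℂ] ℂ).toRingHom.comp (φ a) = evalRingHom a := by
    apply Polynomial.ringHom_ext
    · intro x
      simp [φ]
    · simp [φ, ae, fst_io]
  have h2 := congrArg (fun f => f q) this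
  simpa using h2

theorem io_eps_inj {x y : ℂ} (h : io x * ε = io y * ε) : x = y := by
  have := congrArg TrivSqZeroExt.snd h
  simpa [DualNumber.snd_mul, fst_io, snd_io] using this

theorem two_unit : IsUnit (2 : DualNumber ℂ) := by
  have : (2 : DualNumber ℂ) = io 2 := by rw [map_ofNat]
  rw [this]
  exact (isUnit_iff_ne_zero.2 two_ne_zero).map io

/-- the linear polynomial of a pair -/
noncomputable def al (s : ℂ × ℂ) : ℂ[X] := C s.2 + C s.1 * X

theorem φ_al (a : ℂ) (s : ℂ × ℂ) : φ a (al s) = io (s.2 + s.1 * a) + io s.1 * ε := by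
  unfold al
  rw [map_add, map_mul, φ_C, φ_C, φ_X, ae, map_add, map_mul]
  ring

theorem natDegree_al (s : ℂ × ℂ) : (al s).natDegree ≤ 1 := by
  unfold al
  refine (natDegree_add_le _ _).trans ?_
  rw [natDegree_C, max_eq_right (Nat.zero_le _)]
  exact (natDegree_C_mul_le _ _).trans natDegree_X_le

/-- a polynomial of degree at most the number of its given zeros -/
theorem eq_of_zeros {D : Finset ℂ} {q : ℂ[X]} (hq : q.natDegree ≤ D.card)
    (h0 : ∀ a ∈ D, q.eval a = 0) : q = C (q.coeff D.card) * ∏ a ∈ D, (X - C a) := by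
  have hmon : (∏ a ∈ D, (X - C a)).Monic := monic_prod_of_monic _ _ fun a _ => monic_X_sub_C a
  have hnat : (∏ a ∈ D, (X - C a)).natDegree = D.card := by
    rw [natDegree_prod_of_monic _ _ fun a _ => monic_X_sub_C a]
    simp
  rw [← sub_eq_zero]
  apply eq_zero_of_degree_lt_of_eval_finset_eq_zero D
  · rw [degree_lt_iff_coeff_zero]
    intro i hi
    rw [coeff_sub, coeff_C_mul]
    rcases Nat.lt_or_ge D.card i with h | h
    · rw [coeff_eq_zero_of_natDegree_lt (by omega),
        coeff_eq_zero_of_natDegree_lt (lt_of_eq_of_lt hnat h)]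
      ring
    · have : i = D.card := by omega
      rw [this]
      have h1 : (∏ a ∈ D, (X - C a)).coeff D.card = 1 := by
        rw [← hnat]
        exact hmon.coeff_natDegree
      rw [h1]
      ring
  · intro a ha
    rw [eval_sub, eval_mul, h0 a ha, eval_prod, Finset.prod_eq_zero ha (by simp), mul_zero,
      sub_zero]

theorem exists_weight (S : Finset (ℂ × ℂ)) (D : Finset ℂ) (m : ℕ) (hD : D.card = m)
    (hS : S.card = 2 * m) (hfib : ∀ a ∈ D, ∀ s ∈ S,
      (S.filter fun s' => s'.2 + s'.1 * a = s.2 + s.1 * a).card = 2) (hD0 : D.Nonempty) :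
    ∃ c : ℂ × ℂ → ℂ, (∀ s ∈ S, c s ≠ 0) ∧ ∀ a ∈ D, ∀ s ∈ S, ∀ s' ∈ S, s' ≠ s →
      s'.2 + s'.1 * a = s.2 + s.1 * a → c s + c s' = 0 := by
  classical
  set R : ℂ[X][X] := ∏ s ∈ S, (X - C (al s)) with hR
  have hRmon : R.Monic := monic_prod_of_monic _ _ fun a _ => monic_X_sub_C _
  have hRnat : R.natDegree = 2 * m := by
    rw [hR, natDegree_prod_of_monic _ _ fun a _ => monic_X_sub_C _]
    simp [hS]
  have hRTD : TD (2 * m) R := by
    rw [← hS]
    apply TD.prod
    intro s _
    have hX : TD 1 (X : ℂ[X][X]) := by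
      have := TD_X_pow 1
      rwa [pow_one] at this
    apply hX.sub
    intro i j hij
    rw [coeff_C]
    split_ifs with h
    · exact coeff_eq_zero_of_natDegree_lt (lt_of_le_of_lt (natDegree_al s) (by omega))
    · simp
  obtain ⟨Q, hQ, hQm, hQTD, hQR⟩ := exists_sqrt m R hRmon hRnat hRTD
  -- the values at a parameter
  let val : ℂ → ℂ × ℂ → ℂ := fun a s => s.2 + s.1 * a
  let VV : ℂ → Finset ℂ := fun a => S.image (val a)
  let ww : ℂ → ℂ → ℂ := fun a v => (∑ s ∈ S with val a s = v, s.1) / 2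
  have hVcard : ∀ a ∈ D, (VV a).card = m := by
    intro a ha
    have h1 : S.card = ∑ v ∈ VV a, (S.filter fun s => val a s = v).card :=
      Finset.card_eq_sum_card_image _ _
    have h2 : ∑ v ∈ VV a, (S.filter fun s => val a s = v).card = ∑ v ∈ VV a, 2 := by
      apply Finset.sum_congr rfl
      intro v hv
      obtain ⟨s, hs, rfl⟩ := Finset.mem_image.1 hv
      exact hfib a ha s hs
    rw [h2, Finset.sum_const, smul_eq_mul, hS] at h1
    omega
  have hpair : ∀ a ∈ D, ∀ s ∈ S, ∀ s' ∈ S, s' ≠ s → val a s' = val a s →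
      S.filter (fun t => val a t = val a s) = {s, s'} := by
    intro a ha s hs s' hs' hne he
    symm
    apply Finset.eq_of_subset_of_card_le
    · intro t ht
      rw [Finset.mem_insert, Finset.mem_singleton] at ht
      rw [Finset.mem_filter]
      rcases ht with rfl | rfl
      · exact ⟨hs, rfl⟩
      · exact ⟨hs', he⟩
    · rw [Finset.card_pair hne.symm]
      exact (hfib a ha s hs).le
  have hww : ∀ a ∈ D, ∀ s ∈ S, ∀ s' ∈ S, s' ≠ s → val a s' = val a s →
      ww a (val a s) = (s.1 + s'.1) / 2 := by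
    intro a ha s hs s' hs' hne he
    show (∑ t ∈ S with val a t = val a s, t.1) / 2 = _
    rw [hpair a ha s hs s' hs' hne he, Finset.sum_pair hne.symm]
  have hpartner : ∀ a ∈ D, ∀ s ∈ S, ∃ s' ∈ S, s' ≠ s ∧ val a s' = val a s := by
    intro a ha s hs
    have h2 := hfib a ha s hs
    obtain ⟨x, hx, y, hy, hxy⟩ := Finset.one_lt_card.1 (show 1 < _ by rw [h2]; norm_num)
    rw [Finset.mem_filter] at hx hy
    by_cases hxs : x = s
    · exact ⟨y, hy.1, fun h => hxy (hxs.trans h.symm), hy.2⟩
    · exact ⟨x, hx.1, hxs, hx.2⟩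
  -- the square root at a + ε
  have hmap : ∀ a ∈ D, Q.map (φ a) = ∏ v ∈ VV a, (X - C (io v + io (ww a v) * ε)) := by
    intro a ha
    have hQ'mon : (∏ v ∈ VV a, (X - C (io v + io (ww a v) * ε))).Monic :=
      monic_prod_of_monic _ _ fun a _ => monic_X_sub_C _
    have hQ'nat : (∏ v ∈ VV a, (X - C (io v + io (ww a v) * ε))).natDegree = m := by
      rw [natDegree_prod_of_monic _ _ fun a _ => monic_X_sub_C _]
      simp only [natDegree_X_sub_C, Finset.sum_const, smul_eq_mul, mul_one, hVcard a ha]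
    apply sqrt_unique two_unit (hQ.map _) hQ'mon (by rw [hQ.natDegree_map, hQm]) hQ'nat
    have hRmap : R.map (φ a) = (∏ v ∈ VV a, (X - C (io v + io (ww a v) * ε))) ^ 2 := by
      rw [hR, Polynomial.map_prod, ← Finset.prod_fiberwise_of_maps_to
        (g := val a) (t := VV a) (fun s hs => Finset.mem_image_of_mem _ hs), ← Finset.prod_pow]
      apply Finset.prod_congr rfl
      intro v hv
      obtain ⟨s, hs, rfl⟩ := Finset.mem_image.1 hv
      obtain ⟨s', hs', hne, he⟩ := hpartner a ha s hs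
      rw [hpair a ha s hs s' hs' hne he, Finset.prod_pair hne.symm,
        hww a ha s hs s' hs' hne he]
      simp only [Polynomial.map_sub, map_X, map_C, φ_al]
      have he' : s'.2 + s'.1 * a = s.2 + s.1 * a := he
      rw [he']
      show (X - C (io (s.2 + s.1 * a) + io s.1 * ε)) * (X - C (io (s.2 + s.1 * a) + io s'.1 * ε))
        = (X - C (io (s.2 + s.1 * a) + io ((s.1 + s'.1) / 2) * ε)) ^ 2
      set A := io (s.2 + s.1 * a)
      have h2 : io ((s.1 + s'.1) / 2) + io ((s.1 + s'.1) / 2) = io s.1 + io s'.1 := by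
        rw [← map_add, ← map_add]
        congr 1
        ring
      set B := io ((s.1 + s'.1) / 2)
      have hee : (C (ε : DualNumber ℂ)) * C ε = 0 := by
        rw [← C_mul, DualNumber.eps_mul_eps, C_0]
      have h2' : (C B + C B : (DualNumber ℂ)[X]) = C (io s.1) + C (io s'.1) := by
        rw [← C_add, ← C_add, h2]
      simp only [C_add, C_mul]
      linear_combination (C (io s.1) * C (io s'.1) - C B ^ 2) * hee +
        (X - C A) * C ε * h2'
    rw [← hRmap, ← Polynomial.map_pow, ← Polynomial.map_sub]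
    refine lt_of_le_of_lt (degree_map_le) ?_
    rw [← neg_sub, degree_neg]
    exact hQR
  -- restrictions
  let q : ℂ × ℂ → ℂ[X] := fun s => Q.eval (al s)
  have hqdeg : ∀ s, (q s).natDegree ≤ D.card := by
    intro s
    rw [hD]
    exact hQTD.natDegree_eval (natDegree_al s)
  let θ : ℂ → ℂ × ℂ → ℂ := fun a s => (s.1 - ww a (val a s)) *
    ∏ v ∈ (VV a).erase (val a s), (val a s - v)
  have hφq : ∀ a ∈ D, ∀ s ∈ S, φ a (q s) = io (θ a s) * ε := by
    intro a ha s hs
    have h1 : φ a (q s) = (Q.map (φ a)).eval (φ a (al s)) := by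
      rw [eval_map, eval₂_at_apply]
    have hmem : val a s ∈ VV a := Finset.mem_image_of_mem _ hs
    rw [h1, hmap a ha, eval_prod, φ_al, ← Finset.mul_prod_erase _ _ hmem]
    have h2 : eval (io (s.2 + s.1 * a) + io s.1 * ε)
        (X - C (io (val a s) + io (ww a (val a s)) * ε)) =
        io (s.1 - ww a (val a s)) * ε := by
      simp only [eval_sub, eval_X, eval_C]
      show io (val a s) + io s.1 * ε - (io (val a s) + io (ww a (val a s)) * ε) = _
      rw [map_sub]
      ring
    rw [h2, mul_assoc, mul_comm ε, prod_mul_eps, ← mul_assoc, ← map_mul]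
    congr 2
    show _ = (s.1 - ww a (val a s)) * ∏ v ∈ (VV a).erase (val a s), (val a s - v)
    congr 1
    apply Finset.prod_congr rfl
    intro v _
    simp only [eval_sub, eval_X, eval_C]
    simp [fst_io, DualNumber.fst_eps, val]
  have hq0 : ∀ a ∈ D, ∀ s ∈ S, (q s).eval a = 0 := by
    intro a ha s hs
    rw [← fst_φ, hφq a ha s hs]
    simp
  have hqC : ∀ s ∈ S, q s = C ((q s).coeff D.card) * ∏ a ∈ D, (X - C a) := fun s hs =>
    eq_of_zeros (hqdeg s) fun a ha => hq0 a ha s hs
  have hPi : ∀ a ∈ D, φ a (∏ a' ∈ D, (X - C a')) = io (∏ a' ∈ D.erase a, (a - a')) * ε := by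
    intro a ha
    rw [map_prod, ← Finset.mul_prod_erase _ _ ha, mul_comm]
    have h2 : φ a (X - C a) = ε := by
      rw [map_sub, φ_X, φ_C, ae]
      ring
    rw [h2, prod_mul_eps]
    congr 2
    apply Finset.prod_congr rfl
    intro a' _
    rw [map_sub, φ_X, φ_C, ae]
    simp [fst_io]
  have hrel : ∀ a ∈ D, ∀ s ∈ S, (q s).coeff D.card * ∏ a' ∈ D.erase a, (a - a') = θ a s := by
    intro a ha s hs
    apply io_eps_inj
    rw [← hφq a ha s hs]
    have h1 : φ a (q s) = io ((q s).coeff D.card) * (io (∏ a' ∈ D.erase a, (a - a')) * ε) := by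
      conv_lhs => rw [hqC s hs]
      rw [map_mul, φ_C, hPi a ha]
    rw [h1, map_mul]
    ring
  have hpi0 : ∀ a ∈ D, ∏ a' ∈ D.erase a, (a - a') ≠ 0 := by
    intro a ha
    rw [Finset.prod_ne_zero_iff]
    intro a' ha'
    rw [Finset.mem_erase] at ha'
    exact sub_ne_zero.2 (Ne.symm ha'.1)
  have hdiff : ∀ a, ∀ s s' : ℂ × ℂ, s' ≠ s → val a s' = val a s → s.1 - s'.1 ≠ 0 := by
    intro a s s' hne he h0
    apply hne
    have h1 : s'.1 = s.1 := (sub_eq_zero.1 h0).symm
    have he' : s'.2 + s'.1 * a = s.2 + s.1 * a := he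
    rw [h1] at he'
    exact Prod.ext h1 (by simpa using he')
  refine ⟨fun s => (q s).coeff D.card, ?_, ?_⟩
  · intro s hs h0
    obtain ⟨a, ha⟩ := hD0
    have h1 := hrel a ha s hs
    simp only at h0
    rw [h0, zero_mul] at h1
    obtain ⟨s', hs', hne, he⟩ := hpartner a ha s hs
    have h2 : θ a s ≠ 0 := by
      apply mul_ne_zero
      · rw [hww a ha s hs s' hs' hne he]
        have := hdiff a s s' hne he
        intro h3
        apply this
        linear_combination 2 * h3
      · rw [Finset.prod_ne_zero_iff]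
        intro v hv
        rw [Finset.mem_erase] at hv
        exact sub_ne_zero.2 (Ne.symm hv.1)
    exact h2 h1.symm
  · intro a ha s hs s' hs' hne he
    have h1 := hrel a ha s hs
    have h2 := hrel a ha s' hs'
    have he' : val a s' = val a s := he
    have h3 : θ a s + θ a s' = 0 := by
      show (s.1 - ww a (val a s)) * ∏ v ∈ (VV a).erase (val a s), (val a s - v) +
        (s'.1 - ww a (val a s')) * ∏ v ∈ (VV a).erase (val a s'), (val a s' - v) = 0
      rw [he', hww a ha s hs s' hs' hne he']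
      ring
    have h4 : ((q s).coeff D.card + (q s').coeff D.card) * ∏ a' ∈ D.erase a, (a - a') = 0 := by
      rw [add_mul, h1, h2, h3]
    exact (mul_eq_zero.1 h4).resolve_right (hpi0 a ha)

end Pool.Agent.H57.Sqrt
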