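import Mathlib
import Pool.Agent.H57.Weight

/-!
# Annihilating weights and collinearity
-/

open Finset Polynomial

set_option linter.unusedVariables false

namespace Pool.Agent.H57.CB

open Pool.Agent.H57.Sqrt

/-- the weight annihilates all polynomials of degree at most `r` -/
def Ann (G : Finset (ℂ × ℂ)) (w : ℂ × ℂ → ℂ) (r : ℕ) : Prop :=
  ∀ i j, i + j ≤ r → ∑ s ∈ G, w s * (s.1 ^ i * s.2 ^ j) = 0

/-- affine functions -/
def lin (L : ℂ × ℂ × ℂ) (s : ℂ × ℂ) : ℂ := L.1 + L.2.1 * s.1 + L.2.2 * s.2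

theorem Ann.mul_lin {G : Finset (ℂ × ℂ)} {w : ℂ × ℂ → ℂ} {r : ℕ} (h : Ann G w (r + 1))
    (L : ℂ × ℂ × ℂ) : Ann G (fun s => w s * lin L s) r := by
  intro i j hij
  have h1 := h i j (by omega)
  have h2 := h (i + 1) j (by omega)
  have h3 := h i (j + 1) (by omega)
  have : ∑ s ∈ G, w s * lin L s * (s.1 ^ i * s.2 ^ j) =
      L.1 * ∑ s ∈ G, w s * (s.1 ^ i * s.2 ^ j) + L.2.1 * ∑ s ∈ G, w s * (s.1 ^ (i + 1) * s.2 ^ j)
        + L.2.2 * ∑ s ∈ G, w s * (s.1 ^ i * s.2 ^ (j + 1)) := by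
    rw [Finset.mul_sum, Finset.mul_sum, Finset.mul_sum, ← Finset.sum_add_distrib,
      ← Finset.sum_add_distrib]
    apply Finset.sum_congr rfl
    intro s _
    unfold lin
    ring
  rw [this, h1, h2, h3]
  ring

theorem Ann.mono {G : Finset (ℂ × ℂ)} {w : ℂ × ℂ → ℂ} {r r' : ℕ} (h : Ann G w r)
    (hr : r' ≤ r) : Ann G w r' := fun i j hij => h i j (hij.trans hr)

open scoped Classical in
theorem Ann.filter {G : Finset (ℂ × ℂ)} {w : ℂ × ℂ → ℂ} {r : ℕ} (h : Ann G w r) :
    Ann (G.filter fun s => w s ≠ 0) w r := by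
  intro i j hij
  refine Eq.trans ?_ (h i j hij)
  rw [Finset.sum_filter]
  apply Finset.sum_congr rfl
  intro s _
  split_ifs with h1
  · rfl
  · push Not at h1
    rw [h1, zero_mul]

open scoped Classical in
/-- removing a line -/
theorem Ann.remove {G : Finset (ℂ × ℂ)} {w : ℂ × ℂ → ℂ} {r : ℕ} (h : Ann G w (r + 1))
    (hw : ∀ s ∈ G, w s ≠ 0) (L : ℂ × ℂ × ℂ) :
    Ann (G.filter fun s => lin L s ≠ 0) (fun s => w s * lin L s) r ∧
      ∀ s ∈ G.filter fun s => lin L s ≠ 0, w s * lin L s ≠ 0 := by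
  constructor
  · have h1 := (h.mul_lin L).filter
    have h2 : (G.filter fun s => lin L s ≠ 0) = G.filter fun s => w s * lin L s ≠ 0 := by
      apply Finset.filter_congr
      intro s hs
      constructor
      · intro h3
        exact mul_ne_zero (hw s hs) h3
      · intro h3 h4
        apply h3
        rw [h4, mul_zero]
    rw [h2]
    exact h1
  · intro s hs
    rw [Finset.mem_filter] at hs
    exact mul_ne_zero (hw s hs.1) hs.2

/-- a line through one point avoiding another one -/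
theorem exists_lin_sep {s t : ℂ × ℂ} (h : s ≠ t) : ∃ L : ℂ × ℂ × ℂ, lin L t = 0 ∧ lin L s ≠ 0 := by
  by_cases h1 : s.1 = t.1
  · refine ⟨(-t.2, 0, 1), ?_, ?_⟩
    · simp [lin]
    · intro h2
      apply h
      refine Prod.ext h1 ?_
      simp only [lin] at h2
      linear_combination h2
  · refine ⟨(-t.1, 1, 0), ?_, ?_⟩
    · simp [lin]
    · intro h2
      apply h1
      simp only [lin] at h2
      linear_combination h2

/-- a line through two points -/
theorem exists_lin_through (s t : ℂ × ℂ) : ∃ L : ℂ × ℂ × ℂ, L.2 ≠ 0 ∧ lin L s = 0 ∧ lin L t = 0 := by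
  by_cases h : s = t
  · refine ⟨(-t.1, 1, 0), ?_, ?_, ?_⟩
    · intro h0
      have := congrArg Prod.fst h0
      simp at this
    · simp [lin, h]
    · simp [lin]
  · refine ⟨(s.1 * (s.2 - t.2) - s.2 * (s.1 - t.1), -(s.2 - t.2), s.1 - t.1), ?_, ?_, ?_⟩
    · intro h0
      apply h
      have h1 := congrArg Prod.fst h0
      have h2 := congrArg Prod.snd h0
      simp only [Prod.fst_zero, Prod.snd_zero, neg_eq_zero] at h1 h2
      exact Prod.ext (sub_eq_zero.1 h2) (sub_eq_zero.1 h1)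
    · simp only [lin]; ring
    · simp only [lin]; ring

theorem card_ge (r : ℕ) : ∀ (G : Finset (ℂ × ℂ)) (w : ℂ × ℂ → ℂ), (∀ s ∈ G, w s ≠ 0) →
    Ann G w r → G.Nonempty → r + 2 ≤ G.card := by
  classical
  have h0 : ∀ (G : Finset (ℂ × ℂ)) (w : ℂ × ℂ → ℂ), (∀ s ∈ G, w s ≠ 0) →
      Ann G w 0 → G.Nonempty → 2 ≤ G.card := by
    intro G w hw h hne
    by_contra hcon
    have h1 : G.card = 1 := by
      have := Finset.card_pos.2 hne
      omega
    obtain ⟨s, rfl⟩ := Finset.card_eq_one.1 h1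
    have := h 0 0 le_rfl
    simp at this
    exact hw s (by simp) this
  induction r with
  | zero => exact h0
  | succ r ih =>
    intro G w hw h hne
    have h2 := h0 G w hw (h.mono (Nat.zero_le _)) hne
    obtain ⟨s, hs, t, ht, hst⟩ := Finset.one_lt_card.1 (show 1 < G.card by omega)
    obtain ⟨L, hL1, hL2⟩ := exists_lin_sep hst
    obtain ⟨h3, h4⟩ := h.remove hw L
    have h5 := ih _ _ h4 h3 ⟨s, Finset.mem_filter.2 ⟨hs, hL2⟩⟩
    have h6 : (G.filter fun s => lin L s ≠ 0).card < G.card := by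
      apply Finset.card_lt_card
      rw [Finset.filter_ssubset]
      exact ⟨t, ht, by simpa using hL1⟩
    omega

theorem exists_max {α : Type*} (P : α → Prop) (f : α → ℕ) (B : ℕ) (hB : ∀ x, f x ≤ B)
    (hne : ∃ x, P x) : ∃ x, P x ∧ ∀ y, P y → f y ≤ f x := by
  obtain ⟨x, hx, hmin⟩ := (measure fun x => B - f x).wf.has_min {x | P x} hne
  refine ⟨x, hx, fun y hy => ?_⟩
  have h1 := hmin y hy
  have h2 : ¬ (B - f y < B - f x) := h1
  have := hB x
  have := hB y
  omega

open scoped Classical in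
theorem collinear (r : ℕ) : ∀ (G : Finset (ℂ × ℂ)) (w : ℂ × ℂ → ℂ), (∀ s ∈ G, w s ≠ 0) →
    Ann G w r → G.card ≤ 2 * r + 1 → ∃ L : ℂ × ℂ × ℂ, L.2 ≠ 0 ∧ ∀ s ∈ G, lin L s = 0 := by
  classical
  induction r with
  | zero =>
    intro G w hw h hc
    rcases G.eq_empty_or_nonempty with rfl | hne
    · obtain ⟨L, hL, _⟩ := exists_lin_through 0 0
      exact ⟨L, hL, by simp⟩
    · have := card_ge 0 G w hw h hne
      omega
  | succ r ih =>
    intro G w hw h hc
    rcases G.eq_empty_or_nonempty with rfl | ⟨s₀, hs₀⟩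
    · obtain ⟨L, hL, _⟩ := exists_lin_through 0 0
      exact ⟨L, hL, by simp⟩
    obtain ⟨L, hL, hmax⟩ := exists_max (fun L : ℂ × ℂ × ℂ => L.2 ≠ 0)
      (fun L => (G.filter fun s => lin L s = 0).card) G.card
      (fun L => Finset.card_filter_le _ _)
      (by obtain ⟨L, hL, _⟩ := exists_lin_through 0 0; exact ⟨L, hL⟩)
    have hcard2 := card_ge (r + 1) G w hw h ⟨s₀, hs₀⟩
    obtain ⟨s, hs, t, ht, hst⟩ := Finset.one_lt_card.1 (show 1 < G.card by omega)
    obtain ⟨L₁, hL₁, hLs, hLt⟩ := exists_lin_through s t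
    have hk : 2 ≤ (G.filter fun s => lin L s = 0).card := by
      refine le_trans ?_ (hmax L₁ hL₁)
      apply Finset.one_lt_card.2
      exact ⟨s, Finset.mem_filter.2 ⟨hs, hLs⟩, t, Finset.mem_filter.2 ⟨ht, hLt⟩, hst⟩
    obtain ⟨h3, h4⟩ := h.remove hw L
    have hsplit : (G.filter fun s => lin L s = 0).card +
        (G.filter fun s => lin L s ≠ 0).card = G.card :=
      Finset.card_filter_add_card_filter_not _
    obtain ⟨L', hL', hL'0⟩ := ih _ _ h4 h3 (by omega)
    rcases (G.filter fun s => lin L s ≠ 0).eq_empty_or_nonempty with he | hne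
    · refine ⟨L, hL, fun s hs => ?_⟩
      by_contra hcon
      have : s ∈ G.filter fun s => lin L s ≠ 0 := Finset.mem_filter.2 ⟨hs, hcon⟩
      rw [he] at this
      simp at this
    · exfalso
      have h5 := card_ge r _ _ h4 h3 hne
      have h6 : (G.filter fun s => lin L s ≠ 0).card ≤ (G.filter fun s => lin L' s = 0).card := by
        apply Finset.card_le_card
        intro s hs
        have := hL'0 s hs
        rw [Finset.mem_filter] at hs ⊢
        exact ⟨hs.1, this⟩
      have h7 := hmax L' hL'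
      omega

/-- the antisymmetric weight annihilates polynomials of degree less than the number of
directions -/
theorem ann_of_weight (S : Finset (ℂ × ℂ)) (D : Finset ℂ) (m : ℕ) (hD : D.card = m)
    (hfib : ∀ a ∈ D, ∀ s ∈ S,
      (S.filter fun s' => s'.2 + s'.1 * a = s.2 + s.1 * a).card = 2)
    (c : ℂ × ℂ → ℂ) (hc : ∀ a ∈ D, ∀ s ∈ S, ∀ s' ∈ S, s' ≠ s →
      s'.2 + s'.1 * a = s.2 + s.1 * a → c s + c s' = 0) (i j : ℕ) (hij : i + j < m) :
    ∑ s ∈ S, c s * (s.1 ^ i * s.2 ^ j) = 0 := by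
  classical
  have hval : ∀ a ∈ D, ∀ k : ℕ, ∑ s ∈ S, c s * (s.2 + s.1 * a) ^ k = 0 := by
    intro a ha k
    rw [← Finset.sum_fiberwise_of_maps_to (g := fun s : ℂ × ℂ => s.2 + s.1 * a)
      (t := S.image fun s => s.2 + s.1 * a) (fun s hs => Finset.mem_image_of_mem _ hs)]
    apply Finset.sum_eq_zero
    intro v hv
    obtain ⟨s, hs, rfl⟩ := Finset.mem_image.1 hv
    have h2 := hfib a ha s hs
    obtain ⟨x, y, hxy, hF⟩ := Finset.card_eq_two.1 h2
    rw [hF, Finset.sum_pair hxy]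
    have hx : x ∈ S.filter fun s' => s'.2 + s'.1 * a = s.2 + s.1 * a := by rw [hF]; simp
    have hy : y ∈ S.filter fun s' => s'.2 + s'.1 * a = s.2 + s.1 * a := by rw [hF]; simp
    rw [Finset.mem_filter] at hx hy
    rw [hx.2, hy.2, ← add_mul, hc a ha x hx.1 y hy.1 hxy.symm (hy.2.trans hx.2.symm), zero_mul]
  set k := i + j with hk
  have hG : ∑ s ∈ S, C (c s) * al s ^ k = 0 := by
    apply eq_zero_of_degree_lt_of_eval_finset_eq_zero D
    · have : (∑ s ∈ S, C (c s) * al s ^ k).natDegree ≤ k := by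
        apply natDegree_sum_le_of_forall_le
        intro s _
        refine (natDegree_C_mul_le _ _).trans ?_
        refine natDegree_pow_le.trans ?_
        have := natDegree_al s
        calc k * (al s).natDegree ≤ k * 1 := Nat.mul_le_mul_left k this
          _ = k := mul_one k
      refine lt_of_le_of_lt degree_le_natDegree ?_
      rw [hD]
      exact_mod_cast lt_of_le_of_lt this hij
    · intro a ha
      rw [eval_finsetSum, ← hval a ha k]
      apply Finset.sum_congr rfl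
      intro s _
      simp [al]
  have hcoef := congrArg (fun p => coeff p i) hG
  simp only [finsetSum_coeff, coeff_C_mul, coeff_zero] at hcoef
  have hal : ∀ s : ℂ × ℂ, (al s ^ k).coeff i = (s.1 ^ i * s.2 ^ j) * (k.choose i : ℂ) := by
    intro s
    unfold al
    rw [add_comm, add_pow, finsetSum_coeff, Finset.sum_eq_single i]
    · rw [mul_pow, ← C_pow, ← C_pow]
      have h1 : (C (s.1 ^ i) * X ^ i * C (s.2 ^ (k - i)) * ((k.choose i : ℕ) : ℂ[X])) =
          C (s.1 ^ i * s.2 ^ (k - i) * (k.choose i : ℂ)) * X ^ i := by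
        rw [C_mul, C_mul, ← C_eq_natCast]
        ring
      rw [h1, coeff_C_mul_X_pow, if_pos rfl]
      congr 3
      omega
    · intro l _ hl
      rw [mul_pow, ← C_pow, ← C_pow]
      have h1 : (C (s.1 ^ l) * X ^ l * C (s.2 ^ (k - l)) * ((k.choose l : ℕ) : ℂ[X])) =
          C (s.1 ^ l * s.2 ^ (k - l) * (k.choose l : ℂ)) * X ^ l := by
        rw [C_mul, C_mul, ← C_eq_natCast]
        ring
      rw [h1, coeff_C_mul_X_pow, if_neg (Ne.symm hl)]
    · intro h
      exfalso
      apply h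
      rw [Finset.mem_range]
      omega
  simp only [hal] at hcoef
  have h3 : ∑ s ∈ S, c s * (s.1 ^ i * s.2 ^ j * (k.choose i : ℂ)) =
      (∑ s ∈ S, c s * (s.1 ^ i * s.2 ^ j)) * (k.choose i : ℂ) := by
    rw [Finset.sum_mul]
    apply Finset.sum_congr rfl
    intro s _
    ring
  rw [h3] at hcoef
  refine (mul_eq_zero.1 hcoef).resolve_right ?_
  exact_mod_cast (Nat.choose_pos (by omega)).ne'

end Pool.Agent.H57.CB
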