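import Mathlib

/-!
# Upper envelopes of real parts of complex affine functions

For finitely many functions `F c X = b c + z c * X` we look at the cell decomposition of the
plane given by the maximum of the real parts, and bound the number of good points: points at
which the maximal real part is attained by at least two of the functions, all of which have
the same complex value there.
-/

open Finset Filter Topology

set_option linter.unusedSectionVars false

namespace Pool.Agent.H57.Forest

variable {ι : Type*} [Fintype ι] [DecidableEq ι] (z b : ι → ℂ)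

/-- the affine function of a class -/
def F (c : ι) (X : ℂ) : ℂ := b c + z c * X

/-- the classes attaining the maximal real part -/
noncomputable def S (X : ℂ) : Finset ι :=
  univ.filter fun c => ∀ d, (F z b d X).re ≤ (F z b c X).re

/-- the point where the difference of two functions is a given imaginary number -/
noncomputable def P (c d : ι) (t : ℝ) : ℂ := (b c - b d + t * Complex.I) / (z d - z c)

/-- the parameters at which exactly the two classes dominate -/
def O (c d : ι) : Set ℝ :=
  {t | ∀ k, k ≠ c → k ≠ d → (F z b k (P z b c d t)).re < (F z b c (P z b c d t)).re}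

/-- orientation of a third class -/
noncomputable def σ (c d k : ι) : ℝ := ((z k - z c) / (z d - z c)).im

variable {z b}

theorem mem_S {X : ℂ} {c : ι} : c ∈ S z b X ↔ ∀ d, (F z b d X).re ≤ (F z b c X).re := by
  simp [S]

theorem S_eq {X : ℂ} {c d : ι} (hc : c ∈ S z b X) (hd : d ∈ S z b X) :
    (F z b c X).re = (F z b d X).re :=
  le_antisymm (mem_S.1 hd c) (mem_S.1 hc d)

theorem mem_S_of_eq {X : ℂ} {c d : ι} (hc : c ∈ S z b X)
    (h : (F z b c X).re = (F z b d X).re) : d ∈ S z b X :=
  mem_S.2 fun k => h ▸ mem_S.1 hc k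

theorem F_sub_P {c d : ι} (h : z c ≠ z d) (t : ℝ) :
    F z b d (P z b c d t) - F z b c (P z b c d t) = t * Complex.I := by
  have h' : z d - z c ≠ 0 := sub_ne_zero.2 (Ne.symm h)
  unfold F P
  field_simp
  ring

theorem P_of {c d : ι} (h : z c ≠ z d) {t : ℝ} {X : ℂ}
    (hX : F z b d X - F z b c X = t * Complex.I) : P z b c d t = X := by
  have h' : z d - z c ≠ 0 := sub_ne_zero.2 (Ne.symm h)
  unfold F at hX
  unfold P
  rw [← hX]
  field_simp
  ring

theorem re_P {c d : ι} (h : z c ≠ z d) (t : ℝ) :
    (F z b d (P z b c d t)).re = (F z b c (P z b c d t)).re := by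
  have := congrArg Complex.re (F_sub_P (b := b) h t)
  simp at this
  linarith

theorem P_swap (c d : ι) (t : ℝ) : P z b d c t = P z b c d (-t) := by
  unfold P
  rw [← neg_div_neg_eq]
  push_cast
  congr 1 <;> ring

theorem h_affine {c d : ι} (k : ι) (s t : ℝ) :
    (F z b k (P z b c d t)).re - (F z b c (P z b c d t)).re =
      (F z b k (P z b c d s)).re - (F z b c (P z b c d s)).re - (t - s) * σ z c d k := by
  have h1 : (F z b k (P z b c d t)) - (F z b c (P z b c d t)) =
      (F z b k (P z b c d s)) - (F z b c (P z b c d s)) +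
        ((t - s : ℝ) : ℂ) * ((z k - z c) / (z d - z c) * Complex.I) := by
    unfold F P
    push_cast
    ring
  have h2 := congrArg Complex.re h1
  simp only [Complex.sub_re, Complex.add_re, Complex.re_ofReal_mul] at h2
  rw [h2]
  unfold σ
  simp only [Complex.mul_re, Complex.I_re, Complex.I_im]
  ring

theorem mem_O_swap {c d : ι} (h : z c ≠ z d) {t : ℝ} : t ∈ O z b d c ↔ -t ∈ O z b c d := by
  unfold O
  simp only [Set.mem_ofPred_eq]
  rw [P_swap, re_P h]
  constructor <;> intro H k hk1 hk2 <;> exact H k hk2 hk1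

theorem O_convex {c d : ι} {t₁ t t₂ : ℝ} (h₁ : t₁ ∈ O z b c d) (h₂ : t₂ ∈ O z b c d)
    (ht₁ : t₁ ≤ t) (ht₂ : t ≤ t₂) : t ∈ O z b c d := by
  intro k hk1 hk2
  have e1 := h_affine (z := z) (b := b) (c := c) (d := d) k t₁ t
  have e2 := h_affine (z := z) (b := b) (c := c) (d := d) k t₂ t
  have l1 := h₁ k hk1 hk2
  have l2 := h₂ k hk1 hk2
  rcases le_total 0 (σ z c d k) with hs | hs
  · have : 0 ≤ (t - t₁) * σ z c d k := mul_nonneg (by linarith) hs
    linarith
  · have : 0 ≤ (t - t₂) * σ z c d k := mul_nonneg_of_nonpos_of_nonpos (by linarith) hs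
    linarith

theorem O_open {c d : ι} {t : ℝ} (h : t ∈ O z b c d) :
    ∃ ε > 0, ∀ s, |s - t| < ε → s ∈ O z b c d := by
  have hcont : ∀ k, Continuous fun s : ℝ =>
      (F z b k (P z b c d s)).re - (F z b c (P z b c d s)).re := by
    intro k
    have : (fun s : ℝ => (F z b k (P z b c d s)).re - (F z b c (P z b c d s)).re) =
        fun s => (F z b k (P z b c d 0)).re - (F z b c (P z b c d 0)).re
          - (s - 0) * σ z c d k := by
      funext s
      exact h_affine k 0 s
    rw [this]
    fun_prop
  have hopen : IsOpen (O z b c d) := by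
    have : O z b c d = ⋂ k : ι, {s : ℝ | k ≠ c → k ≠ d →
        (F z b k (P z b c d s)).re - (F z b c (P z b c d s)).re < 0} := by
      ext s
      simp only [O, Set.mem_ofPred_eq, Set.mem_iInter, sub_neg]
    rw [this]
    apply isOpen_iInter_of_finite
    intro k
    by_cases hk1 : k = c
    · simp [hk1]
    by_cases hk2 : k = d
    · simp [hk2]
    · have : {s : ℝ | k ≠ c → k ≠ d →
          (F z b k (P z b c d s)).re - (F z b c (P z b c d s)).re < 0} =
          {s : ℝ | (F z b k (P z b c d s)).re - (F z b c (P z b c d s)).re < 0} := by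
        ext s
        simp [hk1, hk2]
      rw [this]
      exact isOpen_lt (hcont k) continuous_const
  rw [Metric.isOpen_iff] at hopen
  obtain ⟨ε, hε, hb⟩ := hopen t h
  exact ⟨ε, hε, fun s hs => hb (by rw [Metric.mem_ball, Real.dist_eq]; exact hs)⟩

theorem S_of_mem_O {c d : ι} (h : z c ≠ z d) {t : ℝ} (ht : t ∈ O z b c d) (k : ι) :
    k ∈ S z b (P z b c d t) ↔ k = c ∨ k = d := by
  have hc : c ∈ S z b (P z b c d t) := by
    rw [mem_S]
    intro k
    by_cases hk1 : k = c
    · rw [hk1]
    by_cases hk2 : k = d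
    · rw [hk2, re_P h]
    · exact (ht k hk1 hk2).le
  constructor
  · intro hk
    by_contra hcon
    push Not at hcon
    have := ht k hcon.1 hcon.2
    rw [S_eq hk hc] at this
    exact lt_irrefl _ this
  · rintro (rfl | rfl)
    · exact hc
    · exact mem_S_of_eq hc (re_P h t).symm

theorem σ_antisymm {c d k : ι} (h1 : 0 < σ z c d k) (h2 : 0 < σ z c k d) : False := by
  unfold σ at h1 h2
  rw [← inv_div, Complex.inv_im] at h2
  have h3 : 0 ≤ Complex.normSq ((z k - z c) / (z d - z c)) := Complex.normSq_nonneg _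
  have h4 : -((z k - z c) / (z d - z c)).im / Complex.normSq ((z k - z c) / (z d - z c)) ≤ 0 :=
    div_nonpos_of_nonpos_of_nonneg (by linarith) h3
  linarith

/-- all classes dominate somewhere -/
def Active (z b : ι → ℂ) : Prop := ∀ c, ∃ X, ∀ d, d ≠ c → (F z b d X).re < (F z b c X).re

/-- a separating direction at a class of `S v` -/
theorem exists_dir (hact : Active z b) {v : ℂ} {c : ι} (hc : c ∈ S z b v) :
    ∃ w : ℂ, ∀ k ∈ S z b v, k ≠ c → 0 < ((z k - z c) * w).re := by
  obtain ⟨X, hX⟩ := hact c
  refine ⟨v - X, fun k hk hkc => ?_⟩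
  have h1 := hX k hkc
  have h2 := S_eq hk hc
  have h3 : (z k - z c) * (v - X) = F z b k v - F z b c v - (F z b k X - F z b c X) := by
    unfold F
    ring
  rw [h3]
  simp only [Complex.sub_re]
  linarith

theorem exists_next (hact : Active z b) {v : ℂ} {c : ι} (hc : c ∈ S z b v)
    (h2 : ∃ d ∈ S z b v, d ≠ c) :
    ∃ d ∈ S z b v, d ≠ c ∧ ∀ k ∈ S z b v, k ≠ c → k ≠ d → 0 < σ z c d k := by
  obtain ⟨w, hw⟩ := exists_dir hact hc
  -- slopes
  let T := (S z b v).erase c
  have hT : T.Nonempty := by
    obtain ⟨d, hd, hdc⟩ := h2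
    exact ⟨d, Finset.mem_erase.2 ⟨hdc, hd⟩⟩
  let sl : ι → ℝ := fun k => ((z k - z c) * w).im / ((z k - z c) * w).re
  obtain ⟨d, hd, hmin⟩ := T.exists_min_image sl hT
  have hd' := Finset.mem_erase.1 hd
  refine ⟨d, hd'.2, hd'.1, ?_⟩
  intro k hk hkc hkd
  have hrd := hw d hd'.2 hd'.1
  have hrk := hw k hk hkc
  have hle := hmin k (Finset.mem_erase.2 ⟨hkc, hk⟩)
  -- the complex number ratio
  set A := (z d - z c) * w with hA
  set B := (z k - z c) * w with hB
  have hw0 : w ≠ 0 := by
    rintro rfl
    simp [hA] at hrd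
  have hratio : (z k - z c) / (z d - z c) = B / A := by
    rw [hA, hB, mul_div_mul_right _ _ hw0]
  have hσ : σ z c d k = (B.im * A.re - B.re * A.im) / Complex.normSq A := by
    unfold σ
    rw [hratio, Complex.div_im]
    ring
  have hA0 : 0 < Complex.normSq A := by
    rw [Complex.normSq_pos]
    intro h
    rw [h] at hrd
    simp at hrd
  rw [hσ]
  apply div_pos _ hA0
  have hle' : A.im / A.re ≤ B.im / B.re := hle
  rw [div_le_div_iff₀ hrd hrk] at hle'
  rcases lt_or_eq_of_le hle' with hlt | heq
  · linarith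
  exfalso
  -- collinear case
  -- B = lam • A with lam = B.re / A.re > 0
  set lam := B.re / A.re with hlam
  have hlampos : 0 < lam := div_pos hrk hrd
  have hBA : B = (lam : ℂ) * A := by
    apply Complex.ext
    · rw [Complex.re_ofReal_mul, hlam]
      field_simp
    · rw [Complex.im_ofReal_mul, hlam]
      field_simp
      linarith
  have hzz : z k - z c = (lam : ℂ) * (z d - z c) := by
    have : (z k - z c) * w = (lam : ℂ) * (z d - z c) * w := by
      rw [← hB, hBA, hA]
      ring
    exact mul_right_cancel₀ hw0 this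
  rcases lt_trichotomy lam 1 with hl | hl | hl
  · -- k between c and d
    obtain ⟨u, hu⟩ := exists_dir hact hk
    have h1 := hu c hc (Ne.symm hkc)
    have h2 := hu d hd'.2 (Ne.symm hkd)
    have e1 : (z c - z k) * u = ((-lam : ℝ) : ℂ) * ((z d - z c) * u) := by
      rw [← neg_sub, hzz]; push_cast; ring
    have e2 : (z d - z k) * u = ((1 - lam : ℝ) : ℂ) * ((z d - z c) * u) := by
      have : z d - z k = (z d - z c) - (z k - z c) := by ring
      rw [this, hzz]; push_cast; ring
    rw [e1, Complex.re_ofReal_mul] at h1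
    rw [e2, Complex.re_ofReal_mul] at h2
    have h3 : 0 < ((z d - z c) * u).re := by
      by_contra hcon
      push Not at hcon
      have : (1 - lam) * ((z d - z c) * u).re ≤ 0 :=
        mul_nonpos_of_nonneg_of_nonpos (by linarith) hcon
      linarith
    have : (-lam) * ((z d - z c) * u).re < 0 := mul_neg_of_neg_of_pos (by linarith) h3
    linarith
  · -- equal
    rw [hl] at hzz
    have hzkd : z k = z d := by
      have : z k - z c = z d - z c := by simpa using hzz
      linear_combination this
    obtain ⟨u, hu⟩ := exists_dir hact hk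
    have h2 := hu d hd'.2 (Ne.symm hkd)
    rw [hzkd] at h2
    simp at h2
  · -- d between c and k
    obtain ⟨u, hu⟩ := exists_dir hact hd'.2
    have h1 := hu c hc (Ne.symm hd'.1)
    have h2 := hu k hk hkd
    have e1 : (z c - z d) * u = ((-1 : ℝ) : ℂ) * ((z d - z c) * u) := by
      push_cast; ring
    have e2 : (z k - z d) * u = ((lam - 1 : ℝ) : ℂ) * ((z d - z c) * u) := by
      have : z k - z d = (z k - z c) - (z d - z c) := by ring
      rw [this, hzz]; push_cast; ring
    rw [e1, Complex.re_ofReal_mul] at h1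
    rw [e2, Complex.re_ofReal_mul] at h2
    have h3 : ((z d - z c) * u).re < 0 := by linarith
    have : (lam - 1) * ((z d - z c) * u).re < 0 := mul_neg_of_pos_of_neg (by linarith) h3
    linarith

/-- `d` follows `c` around the point `v` -/
def Next (z b : ι → ℂ) (v : ℂ) (c d : ι) : Prop :=
  c ∈ S z b v ∧ d ∈ S z b v ∧ d ≠ c ∧ ∀ k ∈ S z b v, k ≠ c → k ≠ d → 0 < σ z c d k

/-- the parameter of `v` on the line of the pair -/
noncomputable def tv (z b : ι → ℂ) (v : ℂ) (c d : ι) : ℝ := (F z b d v - F z b c v).im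

theorem P_tv (hz : Function.Injective z) {v : ℂ} {c d : ι} (hc : c ∈ S z b v)
    (hd : d ∈ S z b v) (hcd : d ≠ c) : P z b c d (tv z b v c d) = v := by
  apply P_of (fun h => hcd (hz h).symm)
  apply Complex.ext
  · simp [tv, S_eq hc hd]
  · simp [tv]

theorem Next.eventually (hz : Function.Injective z) {v : ℂ} {c d : ι} (hN : Next z b v c d) :
    ∀ᶠ s in 𝓝[>] (tv z b v c d), s ∈ O z b c d := by
  obtain ⟨hc, hd, hdc, hk⟩ := hN
  have hP := P_tv hz hc hd hdc
  set t := tv z b v c d with ht
  have key : ∀ k, ∀ᶠ s in 𝓝[>] t, k ≠ c → k ≠ d →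
      (F z b k (P z b c d s)).re < (F z b c (P z b c d s)).re := by
    intro k
    by_cases hkc : k = c
    · exact Eventually.of_forall fun s h => absurd hkc h
    by_cases hkd : k = d
    · exact Eventually.of_forall fun s _ h => absurd hkd h
    by_cases hkS : k ∈ S z b v
    · filter_upwards [self_mem_nhdsWithin] with s hs _ _
      have h1 := h_affine (z := z) (b := b) (c := c) (d := d) k t s
      rw [hP, S_eq hkS hc, sub_self, zero_sub] at h1
      have h2 := hk k hkS hkc hkd
      have h3 : 0 < (s - t) * σ z c d k := mul_pos (sub_pos.2 hs) h2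
      linarith
    · have hlt : (F z b k v).re - (F z b c v).re < 0 := by
        rw [sub_neg]
        refine lt_of_le_of_ne (mem_S.1 hc k) fun h => hkS (mem_S_of_eq hc h.symm)
      have hcont : Continuous fun s : ℝ =>
          (F z b k v).re - (F z b c v).re - (s - t) * σ z c d k := by fun_prop
      have htend := hcont.tendsto t
      simp only [sub_self, zero_mul, sub_zero] at htend
      have hev := (htend.eventually_lt_const hlt).filter_mono (nhdsWithin_le_nhds (s := Set.Ioi t))
      filter_upwards [hev] with s hs _ _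
      have h1 := h_affine (z := z) (b := b) (c := c) (d := d) k t s
      rw [hP] at h1
      linarith
  have := eventually_all.2 key
  exact this

theorem Next.exists_lt (hz : Function.Injective z) {v : ℂ} {c d : ι} (hN : Next z b v c d)
    {u : ℝ} (hu : tv z b v c d < u) : ∃ s ∈ O z b c d, tv z b v c d < s ∧ s < u := by
  have h1 := hN.eventually hz
  have h2 := Ioo_mem_nhdsGT hu
  obtain ⟨s, hs1, hs2⟩ := (h1.and h2).exists
  exact ⟨s, hs1, hs2.1, hs2.2⟩

theorem Next.nonempty (hz : Function.Injective z) {v : ℂ} {c d : ι} (hN : Next z b v c d) :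
    (O z b c d).Nonempty := by
  obtain ⟨s, hs, _⟩ := hN.exists_lt hz (lt_add_one _)
  exact ⟨s, hs⟩

theorem Next.isGLB (hz : Function.Injective z) {v : ℂ} {c d : ι} (hN : Next z b v c d)
    (h3 : ∃ k ∈ S z b v, k ≠ c ∧ k ≠ d) : IsGLB (O z b c d) (tv z b v c d) := by
  have hlow : ∀ s ∈ O z b c d, tv z b v c d < s := by
    intro s hs
    obtain ⟨k, hk, hkc, hkd⟩ := h3
    have h1 := h_affine (z := z) (b := b) (c := c) (d := d) k (tv z b v c d) s
    rw [P_tv hz hN.1 hN.2.1 hN.2.2.1, S_eq hk hN.1, sub_self, zero_sub] at h1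
    have h2 := hN.2.2.2 k hk hkc hkd
    have h4 := hs k hkc hkd
    by_contra hcon
    push Not at hcon
    have : (s - tv z b v c d) * σ z c d k ≤ 0 :=
      mul_nonpos_of_nonpos_of_nonneg (by linarith) h2.le
    linarith
  refine ⟨fun s hs => (hlow s hs).le, fun u hu => ?_⟩
  by_contra hcon
  push Not at hcon
  obtain ⟨s, hs, _, hs2⟩ := hN.exists_lt hz hcon
  exact absurd (hu hs) (not_le.2 hs2)

theorem Next.lt_of_mem (hz : Function.Injective z) {v : ℂ} {c d : ι} (hN : Next z b v c d)
    (h3 : ∃ k ∈ S z b v, k ≠ c ∧ k ≠ d) {s : ℝ} (hs : s ∈ O z b c d) : tv z b v c d < s := by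
  have h1 := hN.isGLB hz h3
  obtain ⟨ε, hε, hb⟩ := O_open hs
  have h2 : s - ε / 2 ∈ O z b c d := hb _ (by rw [sub_sub_cancel_left, abs_neg, abs_of_pos] <;> linarith)
  have := h1.1 h2
  linarith

/-- the lower end of an edge is a vertex -/
theorem exists_vertex (hz : Function.Injective z) {c d : ι} (hcd : d ≠ c)
    (hne : (O z b c d).Nonempty) (hbdd : BddBelow (O z b c d)) :
    Next z b (P z b c d (sInf (O z b c d))) c d ∧
      (∃ k ∈ S z b (P z b c d (sInf (O z b c d))), k ≠ c ∧ k ≠ d) ∧
      tv z b (P z b c d (sInf (O z b c d))) c d = sInf (O z b c d) := by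
  have hzcd : z c ≠ z d := fun h => hcd (hz h).symm
  set t := sInf (O z b c d) with ht
  have hglb : IsGLB (O z b c d) t := isGLB_csInf hne hbdd
  have hcl : t ∈ closure (O z b c d) := csInf_mem_closure hne hbdd
  have hle : ∀ k, k ≠ c → k ≠ d →
      (F z b k (P z b c d t)).re ≤ (F z b c (P z b c d t)).re := by
    intro k hkc hkd
    have hclosed : IsClosed {s : ℝ | (F z b k (P z b c d 0)).re - (F z b c (P z b c d 0)).re
        - (s - 0) * σ z c d k ≤ 0} := isClosed_le (by fun_prop) continuous_const
    have hsub : O z b c d ⊆ {s : ℝ | (F z b k (P z b c d 0)).re - (F z b c (P z b c d 0)).re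
        - (s - 0) * σ z c d k ≤ 0} := by
      intro s hs
      have := hs k hkc hkd
      have h1 := h_affine (z := z) (b := b) (c := c) (d := d) k 0 s
      simp only [Set.mem_ofPred_eq]
      linarith
    have := hclosed.closure_subset_iff.2 hsub hcl
    simp only [Set.mem_ofPred_eq] at this
    have h1 := h_affine (z := z) (b := b) (c := c) (d := d) k 0 t
    linarith
  have hcS : c ∈ S z b (P z b c d t) := by
    rw [mem_S]
    intro k
    by_cases hkc : k = c
    · rw [hkc]
    by_cases hkd : k = d
    · rw [hkd, re_P hzcd]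
    · exact hle k hkc hkd
  have hdS : d ∈ S z b (P z b c d t) := mem_S_of_eq hcS (re_P hzcd t).symm
  have h3 : ∃ k ∈ S z b (P z b c d t), k ≠ c ∧ k ≠ d := by
    by_contra hcon
    push Not at hcon
    have htO : t ∈ O z b c d := by
      intro k hkc hkd
      refine lt_of_le_of_ne (hle k hkc hkd) fun h => ?_
      exact hkd (hcon k (mem_S_of_eq hcS h.symm) hkc)
    obtain ⟨ε, hε, hb⟩ := O_open htO
    have h2 : t - ε / 2 ∈ O z b c d :=
      hb _ (by rw [sub_sub_cancel_left, abs_neg, abs_of_pos] <;> linarith)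
    have := hglb.1 h2
    linarith
  refine ⟨⟨hcS, hdS, hcd, ?_⟩, h3, ?_⟩
  · intro k hk hkc hkd
    obtain ⟨s, hs⟩ := hne
    have hts : t ≤ s := hglb.1 hs
    have h1 := h_affine (z := z) (b := b) (c := c) (d := d) k t s
    rw [S_eq hk hcS, sub_self, zero_sub] at h1
    have h4 := hs k hkc hkd
    by_contra hcon
    push Not at hcon
    have : (s - t) * σ z c d k ≤ 0 := mul_nonpos_of_nonneg_of_nonpos (by linarith) hcon
    linarith
  · unfold tv
    rw [F_sub_P hzcd]
    simp

theorem im_P {c d : ι} (s t : ℝ) : (P z b c d t).im =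
    (P z b c d s).im + (t - s) * ((z d - z c).re / Complex.normSq (z d - z c)) := by
  have h1 : P z b c d t = P z b c d s + ((t - s : ℝ) : ℂ) * ((z d - z c)⁻¹ * Complex.I) := by
    unfold P
    push_cast
    ring
  have h2 := congrArg Complex.im h1
  rw [Complex.add_im, Complex.im_ofReal_mul] at h2
  rw [h2]
  simp only [Complex.mul_im, Complex.I_re, Complex.I_im, Complex.inv_re]
  ring

theorem slope_pos {c d : ι} (h : (z c).re < (z d).re) :
    0 < (z d - z c).re / Complex.normSq (z d - z c) := by
  apply div_pos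
  · simp; linarith
  · rw [Complex.normSq_pos]
    intro h0
    rw [sub_eq_zero.1 h0] at h
    exact lt_irrefl _ h

/-- uniqueness of the right neighbour at a given height -/
theorem right_unique {c d d' : ι} (h : (z c).re < (z d).re) (h' : (z c).re < (z d').re)
    {t t' : ℝ} (ht : t ∈ O z b c d) (ht' : t' ∈ O z b c d')
    (him : (P z b c d t).im = (P z b c d' t').im) : d = d' := by
  by_contra hne
  have hcd : d ≠ c := by rintro rfl; exact lt_irrefl _ h
  have hcd' : d' ≠ c := by rintro rfl; exact lt_irrefl _ h'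
  have hz1 : z c ≠ z d := fun e => by rw [e] at h; exact lt_irrefl _ h
  have hz2 : z c ≠ z d' := fun e => by rw [e] at h'; exact lt_irrefl _ h'
  have e1 := ht d' hcd' (Ne.symm hne)
  have e2 := ht' d hcd hne
  have e3 := re_P (b := b) hz1 t
  have e4 := re_P (b := b) hz2 t'
  set X := P z b c d t
  set X' := P z b c d' t'
  have key : ∀ k, (F z b k X').re - (F z b c X').re =
      (F z b k X).re - (F z b c X).re + ((z k).re - (z c).re) * (X'.re - X.re) := by
    intro k
    unfold F
    simp only [Complex.add_re, Complex.mul_re]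
    rw [him]
    ring
  have k1 := key d
  have k2 := key d'
  have l1 : ((z d).re - (z c).re) * (X'.re - X.re) < 0 := by linarith
  have l2 : 0 < ((z d').re - (z c).re) * (X'.re - X.re) := by linarith
  have l3 : X'.re - X.re < 0 := by
    by_contra hcon
    push Not at hcon
    have : 0 ≤ ((z d).re - (z c).re) * (X'.re - X.re) := mul_nonneg (by linarith) hcon
    linarith
  have l4 : 0 < X'.re - X.re := by
    by_contra hcon
    push Not at hcon
    have : ((z d').re - (z c).re) * (X'.re - X.re) ≤ 0 :=
      mul_nonpos_of_nonneg_of_nonpos (by linarith) hcon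
    linarith
  linarith

/-- a class that is not leftmost at its starting vertex has all its cell above the vertex -/
theorem floor {v : ℂ} {c d e : ι} (hN : Next z b v c d) (h : (z c).re < (z d).re)
    (he : e ∈ S z b v) (hec : (z e).re < (z c).re) {X : ℂ} (hX : c ∈ S z b X) :
    v.im ≤ X.im := by
  have hec' : e ≠ c := by rintro rfl; exact lt_irrefl _ hec
  have hed' : e ≠ d := by rintro rfl; linarith
  have hσ := hN.2.2.2 e he hec' hed'
  unfold σ at hσ
  have h1 : ((z e - z c) * (X - v)).re ≤ 0 := by
    have : (z e - z c) * (X - v) = (F z b e X - F z b c X) - (F z b e v - F z b c v) := by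
      unfold F; ring
    rw [this]
    simp only [Complex.sub_re]
    have := mem_S.1 hX e
    have := S_eq he hN.1
    linarith
  have h2 : ((z d - z c) * (X - v)).re ≤ 0 := by
    have : (z d - z c) * (X - v) = (F z b d X - F z b c X) - (F z b d v - F z b c v) := by
      unfold F; ring
    rw [this]
    simp only [Complex.sub_re]
    have := mem_S.1 hX d
    have := S_eq hN.2.1 hN.1
    linarith
  rw [Complex.div_im] at hσ
  have hn : 0 < Complex.normSq (z d - z c) := by
    rw [Complex.normSq_pos]
    intro h0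
    rw [sub_eq_zero.1 h0] at h
    exact lt_irrefl _ h
  rw [← sub_div] at hσ
  have hdet := (div_pos_iff_of_pos_right hn).1 hσ
  rw [Complex.mul_re] at h1 h2
  simp only [Complex.sub_re, Complex.sub_im] at h1 h2 hdet
  by_contra hcon
  push Not at hcon
  -- multiply
  have m1 := mul_le_mul_of_nonneg_left h1 (show 0 ≤ (z d).re - (z c).re by linarith)
  have m2 := mul_le_mul_of_nonneg_left h2 (show 0 ≤ (z c).re - (z e).re by linarith)
  have m3 : 0 < (((z e).im - (z c).im) * ((z d).re - (z c).re) -
      ((z e).re - (z c).re) * ((z d).im - (z c).im)) * (v.im - X.im) :=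
    mul_pos hdet (by linarith)
  nlinarith [m1, m2, m3]

/-- the vertices of the cell decomposition -/
def V (z b : ι → ℂ) : Set ℂ := {v | 3 ≤ (S z b v).card}

/-- the starting vertex of an oriented edge -/
noncomputable def vtx (z b : ι → ℂ) (e : ι × ι) : ℂ :=
  P z b e.1 e.2 (sInf (O z b e.1 e.2))

theorem vtx_eq (hz : Function.Injective z) {v : ℂ} {c d : ι} (hN : Next z b v c d)
    (h3 : ∃ k ∈ S z b v, k ≠ c ∧ k ≠ d) : vtx z b (c, d) = v := by
  unfold vtx
  have h1 := hN.isGLB hz h3
  have h2 : sInf (O z b c d) = tv z b v c d := h1.csInf_eq (hN.nonempty hz)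
  show P z b c d (sInf (O z b c d)) = v
  rw [h2, P_tv hz hN.1 hN.2.1 hN.2.2.1]

theorem exists_third {v : ℂ} (hv : 3 ≤ (S z b v).card) (c d : ι) :
    ∃ k ∈ S z b v, k ≠ c ∧ k ≠ d := by
  by_contra hcon
  push Not at hcon
  have : S z b v ⊆ {c, d} := by
    intro k hk
    rw [Finset.mem_insert, Finset.mem_singleton]
    by_cases h : k = c
    · exact Or.inl h
    · exact Or.inr (hcon k hk h)
  have := (Finset.card_le_card this).trans Finset.card_le_two
  omega

theorem three_le_of {v : ℂ} {c d : ι} (hN : Next z b v c d)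
    (h3 : ∃ k ∈ S z b v, k ≠ c ∧ k ≠ d) : 3 ≤ (S z b v).card := by
  obtain ⟨k, hk, hkc, hkd⟩ := h3
  have hsub : ({c, d, k} : Finset ι) ⊆ S z b v := by
    intro x hx
    simp only [Finset.mem_insert, Finset.mem_singleton] at hx
    rcases hx with rfl | rfl | rfl
    · exact hN.1
    · exact hN.2.1
    · exact hk
  have hcard : ({c, d, k} : Finset ι).card = 3 :=
    Finset.card_eq_three.2 ⟨c, d, k, hN.2.2.1.symm, hkc.symm, hkd.symm, rfl⟩
  rw [← hcard]
  exact Finset.card_le_card hsub

theorem exists_next' (hact : Active z b) {v : ℂ} (hv : 3 ≤ (S z b v).card) {c : ι}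
    (hc : c ∈ S z b v) : ∃ d, Next z b v c d := by
  obtain ⟨k, hk, hkc, _⟩ := exists_third hv c c
  obtain ⟨d, hd, hdc, h⟩ := exists_next hact hc ⟨k, hk, hkc⟩
  exact ⟨d, hc, hd, hdc, h⟩

theorem V_finite (hz : Function.Injective z) (hact : Active z b) : (V z b).Finite := by
  apply (Set.finite_univ.image (vtx z b)).subset
  intro v hv
  have hv' : 3 ≤ (S z b v).card := hv
  have hne : (S z b v).Nonempty := Finset.card_pos.1 (by omega)
  obtain ⟨c, hc⟩ := hne
  obtain ⟨d, hN⟩ := exists_next' hact hv' hc
  exact ⟨(c, d), Set.mem_univ _, vtx_eq hz hN (exists_third hv' c d)⟩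

open scoped Classical in
/-- oriented edges with positive parameters only -/
noncomputable def pos (z b : ι → ℂ) : Finset (ι × ι) :=
  univ.filter fun e => e.2 ≠ e.1 ∧ (O z b e.1 e.2).Nonempty ∧ O z b e.1 e.2 ⊆ Set.Ioi 0

open scoped Classical in
/-- edges, oriented upwards -/
noncomputable def up (z b : ι → ℂ) : Finset (ι × ι) :=
  univ.filter fun e => (z e.1).re < (z e.2).re ∧ (O z b e.1 e.2).Nonempty

theorem mem_pos {e : ι × ι} : e ∈ pos z b ↔
    e.2 ≠ e.1 ∧ (O z b e.1 e.2).Nonempty ∧ O z b e.1 e.2 ⊆ Set.Ioi 0 := by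
  simp [pos]

theorem mem_up {e : ι × ι} : e ∈ up z b ↔
    (z e.1).re < (z e.2).re ∧ (O z b e.1 e.2).Nonempty := by
  simp [up]

/-- the good points -/
def Good (z b : ι → ℂ) (X : ℂ) : Prop :=
  2 ≤ (S z b X).card ∧ ∀ c ∈ S z b X, ∀ d ∈ S z b X, F z b c X = F z b d X

theorem next_mem_pos (hz : Function.Injective z) {v : ℂ} {c d : ι} (hN : Next z b v c d)
    (h3 : ∃ k ∈ S z b v, k ≠ c ∧ k ≠ d) (h0 : 0 ≤ tv z b v c d) : (c, d) ∈ pos z b := by
  rw [mem_pos]
  exact ⟨hN.2.2.1, hN.nonempty hz, fun s hs => lt_of_le_of_lt h0 (hN.lt_of_mem hz h3 hs)⟩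

open scoped Classical in
/-- at least one positive oriented edge starts at every vertex -/
theorem one_le_fiber (hz : Function.Injective z) (hact : Active z b) {v : ℂ} (hv : v ∈ V z b) :
    1 ≤ ((pos z b).filter fun e => vtx z b e = v).card := by
  have hv' : 3 ≤ (S z b v).card := hv
  have hne : (S z b v).Nonempty := Finset.card_pos.1 (by omega)
  obtain ⟨c, hc, hmin⟩ := (S z b v).exists_min_image (fun c => (F z b c v).im) hne
  obtain ⟨d, hN⟩ := exists_next' hact hv' hc
  have h3 := exists_third hv' c d
  apply Finset.card_pos.2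
  refine ⟨(c, d), Finset.mem_filter.2 ⟨next_mem_pos hz hN h3 ?_, vtx_eq hz hN h3⟩⟩
  unfold tv
  have := hmin d hN.2.1
  simp only [Complex.sub_im]
  linarith

open scoped Classical in
/-- at least two positive oriented edges start at every good vertex -/
theorem two_le_fiber (hz : Function.Injective z) (hact : Active z b) {v : ℂ} (hv : v ∈ V z b)
    (hg : Good z b v) : 2 ≤ ((pos z b).filter fun e => vtx z b e = v).card := by
  have hv' : 3 ≤ (S z b v).card := hv
  obtain ⟨c, hc, c', hc', hcc⟩ := Finset.one_lt_card.1 (show 1 < (S z b v).card by omega)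
  obtain ⟨d, hN⟩ := exists_next' hact hv' hc
  obtain ⟨d', hN'⟩ := exists_next' hact hv' hc'
  have h3 := exists_third hv' c d
  have h3' := exists_third hv' c' d'
  apply Finset.one_lt_card.2
  refine ⟨(c, d), Finset.mem_filter.2 ⟨next_mem_pos hz hN h3 ?_, vtx_eq hz hN h3⟩,
    (c', d'), Finset.mem_filter.2 ⟨next_mem_pos hz hN' h3' ?_, vtx_eq hz hN' h3'⟩, ?_⟩
  · unfold tv
    rw [hg.2 d hN.2.1 c hN.1]
    simp
  · unfold tv
    rw [hg.2 d' hN'.2.1 c' hN'.1]
    simp
  · intro h
    exact hcc (congrArg Prod.fst h)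

open scoped Classical in
/-- vertices plus good vertices are at most the positive oriented edges -/
theorem card_V_le (hz : Function.Injective z) (hact : Active z b) (A : Finset ℂ)
    (hA : ∀ v ∈ A, v ∈ V z b ∧ Good z b v) :
    (V_finite hz hact).toFinset.card + A.card ≤ (pos z b).card := by
  set W := (V_finite hz hact).toFinset with hW
  have hmaps : ∀ e ∈ pos z b, vtx z b e ∈ W := by
    rintro ⟨c, d⟩ he
    rw [mem_pos] at he
    have hb : BddBelow (O z b c d) := ⟨0, fun s hs => (he.2.2 hs).le⟩
    obtain ⟨hN, h3, _⟩ := exists_vertex hz he.1 he.2.1 hb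
    rw [hW, Set.Finite.mem_toFinset]
    exact three_le_of hN h3
  rw [Finset.card_eq_sum_card_fiberwise hmaps]
  have hAW : A ⊆ W := fun v hv => by
    rw [hW, Set.Finite.mem_toFinset]
    exact (hA v hv).1
  have h1 : W.card + A.card = ∑ v ∈ W, (1 + if v ∈ A then 1 else 0) := by
    rw [Finset.sum_add_distrib, Finset.sum_boole, Finset.sum_const, smul_eq_mul, mul_one]
    congr 1
    rw [Finset.filter_mem_eq_inter, Finset.inter_eq_right.2 hAW]
    simp
  rw [h1]
  apply Finset.sum_le_sum
  intro v hv
  rw [hW, Set.Finite.mem_toFinset] at hv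
  by_cases hvA : v ∈ A
  · rw [if_pos hvA]
    exact two_le_fiber hz hact hv (hA v hvA).2
  · rw [if_neg hvA]
    exact one_le_fiber hz hact hv

open scoped Classical in
theorem card_pos_le (hz : Function.Injective fun c => (z c).re) :
    (pos z b).card ≤ ((up z b).filter fun e => (0 : ℝ) ∉ O z b e.1 e.2).card := by
  have hz' : Function.Injective z := fun c d h => hz (by simp only [h])
  have hswap : ∀ c d : ι, c ≠ d → (O z b c d).Nonempty → (O z b d c).Nonempty := by
    rintro c d hcd ⟨s, hs⟩
    refine ⟨-s, ?_⟩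
    rw [mem_O_swap (fun h => hcd (hz' h)), neg_neg]
    exact hs
  apply Finset.card_le_card_of_injOn
    (fun e => if (z e.1).re < (z e.2).re then e else (e.2, e.1))
  · rintro ⟨c, d⟩ he
    rw [Finset.mem_coe, mem_pos] at he
    simp only at he
    simp only [Finset.coe_filter, Set.mem_ofPred_eq]
    split_ifs with h
    · rw [mem_up]
      exact ⟨⟨h, he.2.1⟩, fun h0 => absurd (show (0 : ℝ) < 0 from he.2.2 h0) (lt_irrefl 0)⟩
    · rw [mem_up]
      have hcd : c ≠ d := fun h => he.1 h.symm
      have hlt : (z d).re < (z c).re := by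
        rcases lt_trichotomy (z c).re (z d).re with h' | h' | h'
        · exact absurd h' h
        · exact absurd (hz h') hcd
        · exact h'
      refine ⟨⟨hlt, hswap c d hcd he.2.1⟩, ?_⟩
      rw [mem_O_swap (fun h => hcd (hz' h)), neg_zero]
      exact fun h0 => absurd (show (0 : ℝ) < 0 from he.2.2 h0) (lt_irrefl 0)
  · rintro ⟨c, d⟩ he ⟨c', d'⟩ he' heq
    rw [Finset.mem_coe, mem_pos] at he he'
    simp only at he he' heq
    have key : ∀ c d : ι, c ≠ d → (O z b c d).Nonempty → O z b c d ⊆ Set.Ioi 0 →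
        O z b d c ⊆ Set.Ioi 0 → False := by
      rintro c d hcd ⟨s, hs⟩ h1 h2
      have h3 : -s ∈ O z b d c := by
        rw [mem_O_swap (fun h => hcd (hz' h)), neg_neg]
        exact hs
      have h4 : 0 < s := h1 hs
      have h5 : 0 < -s := h2 h3
      linarith
    split_ifs at heq with h1 h2 h2
    · exact heq
    · exfalso
      obtain ⟨rfl, rfl⟩ := Prod.mk.inj heq
      exact key c d (fun h => he.1 h.symm) he.2.1 he.2.2 he'.2.2
    · exfalso
      obtain ⟨rfl, rfl⟩ := Prod.mk.inj heq
      exact key c d (fun h => he.1 h.symm) he.2.1 he.2.2 he'.2.2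
    · obtain ⟨rfl, rfl⟩ := Prod.mk.inj heq
      rfl

open scoped Classical in
/-- the Euler type bound -/
theorem card_up_le (hz : Function.Injective fun c => (z c).re) (hact : Active z b)
    [Nonempty ι] :
    (up z b).card + 1 ≤
      (V_finite (fun c d h => hz (by simp only [h])) hact).toFinset.card + Fintype.card ι := by
  have hz' : Function.Injective z := fun c d h => hz (by simp only [h])
  set W := (V_finite (fun c d h => hz (by simp only [h])) hact).toFinset with hW
  obtain ⟨m, _, hm⟩ := (univ : Finset ι).exists_max_image (fun c => (z c).re) univ_nonempty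
  have hsize : (W.disjSum (univ.erase m)).card + 1 = W.card + Fintype.card ι := by
    rw [Finset.card_disjSum, Finset.card_erase_of_mem (Finset.mem_univ m), Finset.card_univ]
    have := Fintype.card_pos (α := ι)
    omega
  rw [← hsize]
  apply Nat.succ_le_succ
  let Q : ι × ι → Prop := fun e => BddBelow (O z b e.1 e.2) ∧
    ∀ k ∈ S z b (vtx z b e), (z e.1).re ≤ (z k).re
  apply Finset.card_le_card_of_injOn
    (fun e => if Q e then (Sum.inl (vtx z b e) : ℂ ⊕ ι) else Sum.inr e.1)
  · rintro ⟨c, d⟩ he
    rw [Finset.mem_coe, mem_up] at he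
    simp only at he
    have hcd : d ≠ c := by rintro rfl; exact lt_irrefl _ he.1
    rw [Finset.mem_coe]
    simp only
    split_ifs with h
    · rw [Finset.inl_mem_disjSum]
      obtain ⟨hN, h3, _⟩ := exists_vertex hz' hcd he.2 h.1
      rw [hW, Set.Finite.mem_toFinset]
      exact three_le_of hN h3
    · rw [Finset.inr_mem_disjSum, Finset.mem_erase]
      refine ⟨?_, Finset.mem_univ _⟩
      rintro rfl
      exact absurd (hm d (Finset.mem_univ _)) (not_le.2 he.1)
  · rintro ⟨c, d⟩ he ⟨c', d'⟩ he' heq
    rw [Finset.mem_coe, mem_up] at he he'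
    simp only at he he' heq
    have hcd : d ≠ c := by rintro rfl; exact lt_irrefl _ he.1
    have hcd' : d' ≠ c' := by rintro rfl; exact lt_irrefl _ he'.1
    split_ifs at heq with h1 h2 h2
    · -- both at a vertex
      have hv : vtx z b (c, d) = vtx z b (c', d') := Sum.inl_injective heq
      obtain ⟨hN, h3, _⟩ := exists_vertex hz' hcd he.2 h1.1
      obtain ⟨hN', h3', _⟩ := exists_vertex hz' hcd' he'.2 h2.1
      change Next z b (vtx z b (c, d)) c d at hN
      change Next z b (vtx z b (c', d')) c' d' at hN'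
      rw [← hv] at hN'
      have hcc : c = c' := by
        apply hz
        apply le_antisymm
        · exact h1.2 c' hN'.1
        · have := h2.2 c (by rw [← hv]; exact hN.1)
          exact this
      subst hcc
      by_cases hdd : d = d'
      · rw [hdd]
      · exfalso
        exact σ_antisymm (hN.2.2.2 d' hN'.2.1 hcd' (Ne.symm hdd))
          (hN'.2.2.2 d hN.2.1 hcd hdd)
    · -- both at the class
      have hcc : c = c' := Sum.inr_injective heq
      subst hcc
      congr 1
      -- heights
      have hs1 := slope_pos he.1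
      have hs2 := slope_pos he'.1
      set sl := (z d - z c).re / Complex.normSq (z d - z c) with hsl
      set sl' := (z d' - z c).re / Complex.normSq (z d' - z c) with hsl'
      have hheight : ∀ t, (P z b c d t).im = (P z b c d 0).im + t * sl := by
        intro t; rw [im_P 0 t, sub_zero]
      have hheight' : ∀ t, (P z b c d' t).im = (P z b c d' 0).im + t * sl' := by
        intro t; rw [im_P 0 t, sub_zero]
      -- cell membership
      have hzc : z c ≠ z d := fun h => hcd (hz' h).symm
      have hzc' : z c ≠ z d' := fun h => hcd' (hz' h).symm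
      have hin : ∀ t ∈ O z b c d, c ∈ S z b (P z b c d t) := fun t ht =>
        (S_of_mem_O hzc ht c).2 (Or.inl rfl)
      have hin' : ∀ t ∈ O z b c d', c ∈ S z b (P z b c d' t) := fun t ht =>
        (S_of_mem_O hzc' ht c).2 (Or.inl rfl)
      -- unbounded behaviour
      have hunb : ∀ (d : ι), (z c).re < (z d).re → (O z b c d).Nonempty →
          ¬ BddBelow (O z b c d) → ∀ y : ℝ, ∃ y₀ ≤ y, ∀ y' ≤ y₀, ∃ t ∈ O z b c d,
            (P z b c d t).im = y' := by
        intro d hd hne hunb y
        obtain ⟨t₀, ht₀⟩ := hne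
        have hs := slope_pos hd
        refine ⟨min y (P z b c d t₀).im, min_le_left _ _, fun y' hy' => ?_⟩
        have hy'' := hy'.trans (min_le_right _ _)
        refine ⟨(y' - (P z b c d t₀).im) /
          ((z d - z c).re / Complex.normSq (z d - z c)) + t₀, ?_, ?_⟩
        · have hle : (y' - (P z b c d t₀).im) /
              ((z d - z c).re / Complex.normSq (z d - z c)) + t₀ ≤ t₀ := by
            have := div_nonpos_of_nonpos_of_nonneg
              (show y' - (P z b c d t₀).im ≤ 0 by linarith) hs.le
            linarith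
          rw [not_bddBelow_iff] at hunb
          obtain ⟨t₁, ht₁, hlt⟩ := hunb ((y' - (P z b c d t₀).im) /
              ((z d - z c).re / Complex.normSq (z d - z c)) + t₀)
          exact O_convex ht₁ ht₀ hlt.le hle
        · rw [im_P t₀, add_sub_cancel_right, div_mul_cancel₀ _ hs.ne']
          ring
      -- bounded behaviour
      have hbdd : ∀ (d : ι), (z c).re < (z d).re → d ≠ c → (O z b c d).Nonempty →
          BddBelow (O z b c d) → ¬ Q (c, d) →
          (∀ X, c ∈ S z b X → (vtx z b (c, d)).im ≤ X.im) ∧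
          c ∈ S z b (vtx z b (c, d)) ∧
          ∃ y₁, (vtx z b (c, d)).im < y₁ ∧ ∀ y', (vtx z b (c, d)).im < y' → y' < y₁ →
            ∃ t ∈ O z b c d, (P z b c d t).im = y' := by
        intro d hd hcd hne hb hQ
        obtain ⟨hN, h3, htv⟩ := exists_vertex hz' hcd hne hb
        change Next z b (vtx z b (c, d)) c d at hN
        have hQ' : ∃ k ∈ S z b (vtx z b (c, d)), (z k).re < (z c).re := by
          by_contra hcon
          push Not at hcon
          exact hQ ⟨hb, hcon⟩
        obtain ⟨k, hk, hkc⟩ := hQ'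
        refine ⟨fun X hX => floor hN hd hk hkc hX, hN.1, ?_⟩
        obtain ⟨t₀, ht₀⟩ := hne
        have hs := slope_pos hd
        have hglb : IsGLB (O z b c d) (sInf (O z b c d)) := isGLB_csInf ⟨t₀, ht₀⟩ hb
        have hvim : (vtx z b (c, d)).im = (P z b c d (sInf (O z b c d))).im := rfl
        have hlt0 : sInf (O z b c d) < t₀ := by
          have := hN.lt_of_mem hz' h3 ht₀
          rw [← htv]
          exact this
        refine ⟨(P z b c d t₀).im, ?_, fun y' hy1 hy2 => ?_⟩
        · rw [hvim, im_P (sInf (O z b c d)) t₀]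
          have := mul_pos (sub_pos.2 hlt0) hs
          linarith
        · refine ⟨(y' - (P z b c d t₀).im) /
            ((z d - z c).re / Complex.normSq (z d - z c)) + t₀, ?_, ?_⟩
          · have hle : (y' - (P z b c d t₀).im) /
                ((z d - z c).re / Complex.normSq (z d - z c)) + t₀ ≤ t₀ := by
              have := div_nonpos_of_nonpos_of_nonneg
                (show y' - (P z b c d t₀).im ≤ 0 by linarith) hs.le
              linarith
            have hgt : sInf (O z b c d) < (y' - (P z b c d t₀).im) /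
                ((z d - z c).re / Complex.normSq (z d - z c)) + t₀ := by
              rw [hvim, im_P t₀ (sInf (O z b c d))] at hy1
              have : (sInf (O z b c d) - t₀) < (y' - (P z b c d t₀).im) /
                ((z d - z c).re / Complex.normSq (z d - z c)) := by
                rw [lt_div_iff₀ hs]
                linarith
              linarith
            obtain ⟨t₁, ht₁, hlt⟩ : ∃ t₁ ∈ O z b c d, t₁ < (y' - (P z b c d t₀).im) /
                ((z d - z c).re / Complex.normSq (z d - z c)) + t₀ := by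
              by_contra hcon
              push Not at hcon
              exact absurd (hglb.2 hcon) (not_le.2 hgt)
            exact O_convex ht₁ ht₀ hlt.le hle
          · rw [im_P t₀, add_sub_cancel_right, div_mul_cancel₀ _ hs.ne']
            ring
      by_cases hb1 : BddBelow (O z b c d) <;> by_cases hb2 : BddBelow (O z b c d')
      · obtain ⟨f1, g1, y1, hy1, hyy1⟩ := hbdd d he.1 hcd he.2 hb1 h1
        obtain ⟨f2, g2, y2, hy2, hyy2⟩ := hbdd d' he'.1 hcd' he'.2 hb2 h2
        have heqv : (vtx z b (c, d)).im = (vtx z b (c, d')).im :=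
          le_antisymm (f1 _ g2) (f2 _ g1)
        have hy3 : (vtx z b (c, d)).im < min y1 y2 := lt_min hy1 (heqv ▸ hy2)
        obtain ⟨y, hya, hyb⟩ := exists_between hy3
        obtain ⟨t, ht, hyt⟩ := hyy1 y hya (hyb.trans_le (min_le_left _ _))
        obtain ⟨t', ht', hyt'⟩ := hyy2 y (heqv ▸ hya) (hyb.trans_le (min_le_right _ _))
        exact right_unique he.1 he'.1 ht ht' (hyt.trans hyt'.symm)
      · obtain ⟨f1, g1, y1, hy1, hyy1⟩ := hbdd d he.1 hcd he.2 hb1 h1
        obtain ⟨y0, hy0, hyy0⟩ := hunb d' he'.1 he'.2 hb2 ((vtx z b (c, d)).im - 1)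
        obtain ⟨t, ht, hyt⟩ := hyy0 y0 le_rfl
        have := f1 _ (hin' t ht)
        linarith
      · obtain ⟨f1, g1, y1, hy1, hyy1⟩ := hbdd d' he'.1 hcd' he'.2 hb2 h2
        obtain ⟨y0, hy0, hyy0⟩ := hunb d he.1 he.2 hb1 ((vtx z b (c, d')).im - 1)
        obtain ⟨t, ht, hyt⟩ := hyy0 y0 le_rfl
        have := f1 _ (hin t ht)
        linarith
      · obtain ⟨y0, hy0, hyy0⟩ := hunb d he.1 he.2 hb1 0
        obtain ⟨y0', hy0', hyy0'⟩ := hunb d' he'.1 he'.2 hb2 y0
        obtain ⟨t, ht, hyt⟩ := hyy0 y0' hy0'
        obtain ⟨t', ht', hyt'⟩ := hyy0' y0' le_rfl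
        exact right_unique he.1 he'.1 ht ht' (hyt.trans hyt'.symm)

/-- the number of good points is less than the number of classes -/
theorem card_good_lt_of_active (hz : Function.Injective fun c => (z c).re) (hact : Active z b)
    [Nonempty ι] (G : Finset ℂ) (hG : ∀ X ∈ G, Good z b X) : G.card + 1 ≤ Fintype.card ι := by
  classical
  have hz' : Function.Injective z := fun c d h => hz (by simp only [h])
  let G3 := G.filter fun X => 3 ≤ (S z b X).card
  let G2 := G.filter fun X => ¬ 3 ≤ (S z b X).card
  have hsplit : G3.card + G2.card = G.card := Finset.card_filter_add_card_filter_not _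
  have h3 := card_V_le hz' hact G3 (fun v hv => by
    have := Finset.mem_filter.1 hv
    exact ⟨this.2, hG v this.1⟩)
  have h2 : G2.card ≤ ((up z b).filter fun e => ¬ (0 : ℝ) ∉ O z b e.1 e.2).card := by
    have hex : ∀ X ∈ G2, ∃ e : ι × ι, e ∈ up z b ∧ (0 : ℝ) ∈ O z b e.1 e.2 ∧
        P z b e.1 e.2 0 = X := by
      intro X hX
      have hX' := Finset.mem_filter.1 hX
      have hg := hG X hX'.1
      have hc2 : (S z b X).card = 2 := by
        have := hg.1
        have := hX'.2
        omega
      obtain ⟨c, d, hcd, hS⟩ := Finset.card_eq_two.1 hc2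
      have main : ∀ c d : ι, (z c).re < (z d).re → S z b X = {c, d} →
          (c, d) ∈ up z b ∧ (0 : ℝ) ∈ O z b c d ∧ P z b c d 0 = X := by
        intro c d hlt hS
        have hcd : c ≠ d := by rintro rfl; exact lt_irrefl _ hlt
        have hc : c ∈ S z b X := by rw [hS]; simp
        have hd : d ∈ S z b X := by rw [hS]; simp
        have hF := hg.2 d hd c hc
        have hP : P z b c d 0 = X := by
          apply P_of (fun h => hcd (hz' h))
          rw [hF]; simp
        have h0 : (0 : ℝ) ∈ O z b c d := by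
          intro k hkc hkd
          rw [hP]
          refine lt_of_le_of_ne (mem_S.1 hc k) fun h => ?_
          have : k ∈ S z b X := mem_S_of_eq hc h.symm
          rw [hS, Finset.mem_insert, Finset.mem_singleton] at this
          tauto
        exact ⟨mem_up.2 ⟨hlt, ⟨0, h0⟩⟩, h0, hP⟩
      rcases lt_trichotomy (z c).re (z d).re with h | h | h
      · exact ⟨(c, d), main c d h hS⟩
      · exact absurd (hz h) hcd
      · exact ⟨(d, c), main d c h (by rw [hS, Finset.pair_comm])⟩
    choose! f hf using hex
    apply Finset.card_le_card_of_injOn f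
    · intro X hX
      have := hf X hX
      simp only [Finset.coe_filter, Set.mem_ofPred_eq, not_not]
      exact ⟨this.1, this.2.1⟩
    · intro X hX Y hY hXY
      rw [← (hf X hX).2.2, ← (hf Y hY).2.2, hXY]
  have h4 := card_pos_le (b := b) hz
  have h5 := card_up_le hz hact
  have h6 : ((up z b).filter fun e => (0 : ℝ) ∉ O z b e.1 e.2).card +
      ((up z b).filter fun e => ¬ (0 : ℝ) ∉ O z b e.1 e.2).card = (up z b).card :=
    Finset.card_filter_add_card_filter_not _
  omega

end Pool.Agent.H57.Forest
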