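import Mathlib
import Pool.Agent.H57.Forest

/-!
# A sharp bound on directions without simple values

If `S` is a finite set of pairs of complex numbers and `D` a finite set of complex numbers such
that for `a ∈ D` every value of `(z, b) ↦ b + z a` on `S` is taken at least twice, then `D` has
fewer elements than the first projection of `S`.
-/

open Finset Filter Topology

set_option linter.unusedSectionVars false

namespace Pool.Agent.H57.Forest

variable {ι : Type*} [Fintype ι] [DecidableEq ι] {z b : ι → ℂ}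

/-- a class is active if it strictly dominates somewhere -/
def ActiveAt (z b : ι → ℂ) (c : ι) : Prop := ∃ X, ∀ d, d ≠ c → (F z b d X).re < (F z b c X).re

theorem activeAt_of_dir {X : ℂ} {c : ι} (hc : c ∈ S z b X) (r : ℝ)
    (hr : ∀ d ∈ S z b X, d ≠ c → ((z d).re - (z c).re) * r < 0) : ActiveAt z b c := by
  have key : ∀ d, ∀ᶠ s in 𝓝[>] (0 : ℝ), d ≠ c →
      (F z b d (X + (s * r : ℝ))).re < (F z b c (X + (s * r : ℝ))).re := by
    intro d
    have hexp : ∀ s : ℝ, (F z b d (X + (s * r : ℝ))).re - (F z b c (X + (s * r : ℝ))).re =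
        (F z b d X).re - (F z b c X).re + s * (((z d).re - (z c).re) * r) := by
      intro s
      unfold F
      simp only [Complex.add_re, Complex.mul_re, Complex.add_im, Complex.ofReal_re,
        Complex.ofReal_im]
      ring
    by_cases hdc : d = c
    · exact Eventually.of_forall fun s h => absurd hdc h
    by_cases hdS : d ∈ S z b X
    · filter_upwards [self_mem_nhdsWithin] with s hs _
      have h1 := hexp s
      rw [S_eq hdS hc, sub_self, zero_add] at h1
      have : s * (((z d).re - (z c).re) * r) < 0 := mul_neg_of_pos_of_neg hs (hr d hdS hdc)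
      linarith
    · have hlt : (F z b d X).re - (F z b c X).re < 0 := by
        rw [sub_neg]
        exact lt_of_le_of_ne (mem_S.1 hc d) fun h => hdS (mem_S_of_eq hc h.symm)
      have hcont : Continuous fun s : ℝ =>
          (F z b d X).re - (F z b c X).re + s * (((z d).re - (z c).re) * r) := by fun_prop
      have htend := hcont.tendsto 0
      simp only [zero_mul, add_zero] at htend
      have hev := (htend.eventually_lt_const hlt).filter_mono
        (nhdsWithin_le_nhds (s := Set.Ioi (0 : ℝ)))
      filter_upwards [hev] with s hs _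
      have h1 := hexp s
      linarith
  obtain ⟨s, hs⟩ := (eventually_all.2 key).exists
  exact ⟨_, hs⟩

/-- the number of good points is less than the number of classes -/
theorem card_good_lt (hz : Function.Injective fun c => (z c).re)
    [Nonempty ι] (G : Finset ℂ) (hG : ∀ X ∈ G, Good z b X) : G.card + 1 ≤ Fintype.card ι := by
  classical
  rcases G.eq_empty_or_nonempty with rfl | ⟨X₀, hX₀⟩
  · simp only [Finset.card_empty, zero_add]
    exact Fintype.card_pos
  -- extreme classes at good points are active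
  have hext : ∀ X ∈ G, ∃ c ∈ S z b X, ∃ d ∈ S z b X, c ≠ d ∧ ActiveAt z b c ∧
      ActiveAt z b d := by
    intro X hX
    have hg := (hG X hX).1
    have hne : (S z b X).Nonempty := Finset.card_pos.1 (by omega)
    obtain ⟨c, hc, hmax⟩ := (S z b X).exists_max_image (fun c => (z c).re) hne
    obtain ⟨d, hd, hmin⟩ := (S z b X).exists_min_image (fun c => (z c).re) hne
    refine ⟨c, hc, d, hd, ?_, activeAt_of_dir hc 1 ?_, activeAt_of_dir hd (-1) ?_⟩
    · rintro rfl
      obtain ⟨e, he, f, hf, hef⟩ := Finset.one_lt_card.1 (show 1 < (S z b X).card by omega)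
      apply hef
      apply hz
      have h1 := hmax e he
      have h2 := hmin e he
      have h3 := hmax f hf
      have h4 := hmin f hf
      show (z e).re = (z f).re
      linarith
    · intro e he hec
      have h1 := hmax e he
      have h2 : (z e).re ≠ (z c).re := fun h => hec (hz h)
      have h3 : (z e).re < (z c).re := lt_of_le_of_ne h1 h2
      linarith
    · intro e he hed
      have h1 := hmin e he
      have h2 : (z d).re ≠ (z e).re := fun h => hed (hz h.symm)
      have h3 : (z d).re < (z e).re := lt_of_le_of_ne h1 h2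
      linarith
  let A : Type _ := {c : ι // ActiveAt z b c}
  have hSA : ∀ X ∈ G, ∀ c : A, c ∈ S (fun c : A => z c) (fun c : A => b c) X ↔
      c.1 ∈ S z b X := by
    intro X hX c
    obtain ⟨e, he, _, _, _, hae, _⟩ := hext X hX
    constructor
    · intro hc
      have h1 := (mem_S.1 hc) ⟨e, hae⟩
      have h2 := mem_S.1 he c
      have h3 : (F z b e X).re = (F z b c.1 X).re := le_antisymm h1 h2
      exact mem_S_of_eq he h3
    · intro hc
      exact mem_S.2 fun d => mem_S.1 hc d
  have hne : Nonempty A := by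
    obtain ⟨e, _, _, _, _, hae, _⟩ := hext X₀ hX₀
    exact ⟨⟨e, hae⟩⟩
  have hact : Active (fun c : A => z c) (fun c : A => b c) := by
    rintro ⟨c, X, hX⟩
    refine ⟨X, fun d hd => ?_⟩
    exact hX d fun h => hd (Subtype.ext h)
  have hz' : Function.Injective fun c : A => (z c).re := by
    intro c d h
    exact Subtype.ext (hz h)
  have hmain := card_good_lt_of_active hz' hact G (fun X hX => by
    refine ⟨?_, ?_⟩
    · obtain ⟨c, hc, d, hd, hcd, hac, had⟩ := hext X hX
      apply Finset.one_lt_card.2
      refine ⟨⟨c, hac⟩, (hSA X hX _).2 hc, ⟨d, had⟩, (hSA X hX _).2 hd, ?_⟩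
      intro h
      exact hcd (congrArg Subtype.val h)
    · intro c hc d hd
      exact (hG X hX).2 c ((hSA X hX _).1 hc) d ((hSA X hX _).1 hd))
  refine hmain.trans ?_
  exact Fintype.card_subtype_le _

theorem exists_generic (W : Finset ℂ) (hW : ∀ w ∈ W, w ≠ 0) :
    ∃ l : ℂ, l ≠ 0 ∧ ∀ w ∈ W, (l * w).re ≠ 0 := by
  classical
  obtain ⟨t, ht⟩ := Infinite.exists_notMem_finset (W.image fun w => -w.re / w.im)
  have hre : ∀ w : ℂ, ((1 - t * Complex.I) * w).re = w.re + t * w.im := by
    intro w
    simp [Complex.mul_re, Complex.sub_re, Complex.sub_im]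
  refine ⟨1 - t * Complex.I, ?_, ?_⟩
  · intro h
    have := congrArg Complex.re h
    simp at this
  · intro w hw h
    rw [hre] at h
    by_cases hi : w.im = 0
    · rw [hi, mul_zero, add_zero] at h
      exact hW w hw (Complex.ext h hi)
    · apply ht
      rw [Finset.mem_image]
      refine ⟨w, hw, ?_⟩
      rw [div_eq_iff hi]
      linarith

/-- **Core inequality.** -/
theorem core (T : Finset (ℂ × ℂ)) (D : Finset ℂ) (hT : T.Nonempty)
    (h : ∀ a ∈ D, ∀ s ∈ T, ∃ s' ∈ T, s' ≠ s ∧ s'.2 + s'.1 * a = s.2 + s.1 * a) :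
    D.card + 1 ≤ (T.image Prod.fst).card := by
  classical
  rcases D.eq_empty_or_nonempty with rfl | ⟨a₀, ha₀⟩
  · simp only [Finset.card_empty, zero_add]
    exact Finset.card_pos.2 (hT.image _)
  -- first generic multiplier
  obtain ⟨l, hl0, hl⟩ := exists_generic
    (((D ×ˢ (T ×ˢ T)).image fun p => (p.2.1.2 + p.2.1.1 * p.1) - (p.2.2.2 + p.2.2.1 * p.1)).filter
      fun w => w ≠ 0) (fun w hw => (Finset.mem_filter.1 hw).2)
  have hl' : ∀ a ∈ D, ∀ s ∈ T, ∀ s' ∈ T,
      (l * (s.2 + s.1 * a)).re = (l * (s'.2 + s'.1 * a)).re →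
        s.2 + s.1 * a = s'.2 + s'.1 * a := by
    intro a ha s hs s' hs' he
    by_contra hcon
    apply hl ((s.2 + s.1 * a) - (s'.2 + s'.1 * a))
    · rw [Finset.mem_filter]
      refine ⟨Finset.mem_image.2 ⟨(a, (s, s')), ?_, rfl⟩, sub_ne_zero.2 hcon⟩
      simp only [Finset.mem_product]
      exact ⟨ha, hs, hs'⟩
    · rw [mul_sub, Complex.sub_re, he, sub_self]
  -- second generic multiplier
  obtain ⟨m, hm0, hm⟩ := exists_generic
    (((T ×ˢ T).image fun p => l * (p.1.1 - p.2.1)).filter
      fun w => w ≠ 0) (fun w hw => (Finset.mem_filter.1 hw).2)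
  have hm' : ∀ s ∈ T, ∀ s' ∈ T, (m * (l * s.1)).re = (m * (l * s'.1)).re → s.1 = s'.1 := by
    intro s hs s' hs' he
    by_contra hcon
    apply hm (l * (s.1 - s'.1))
    · rw [Finset.mem_filter]
      refine ⟨Finset.mem_image.2 ⟨(s, s'), ?_, rfl⟩, mul_ne_zero hl0 (sub_ne_zero.2 hcon)⟩
      simp only [Finset.mem_product]
      exact ⟨hs, hs'⟩
    · rw [mul_sub, mul_sub, Complex.sub_re, he, sub_self]
  let ι := {x : ℂ // x ∈ T.image Prod.fst}
  have hex : ∀ x : ι, ∃ b : ℂ, (x.1, b) ∈ T ∧ ∀ b', (x.1, b') ∈ T → (l * b').re ≤ (l * b).re := by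
    rintro ⟨x, hx⟩
    have hne : (T.filter fun s => s.1 = x).Nonempty := by
      obtain ⟨s, hs, hsx⟩ := Finset.mem_image.1 hx
      exact ⟨s, Finset.mem_filter.2 ⟨hs, hsx⟩⟩
    obtain ⟨s, hs, hmax⟩ := (T.filter fun s => s.1 = x).exists_max_image (fun s => (l * s.2).re) hne
    have hs' := Finset.mem_filter.1 hs
    refine ⟨s.2, ?_, ?_⟩
    · have : (x, s.2) = s := Prod.ext hs'.2.symm rfl
      simp only [this]
      exact hs'.1
    · intro b' hb'
      exact hmax (x, b') (Finset.mem_filter.2 ⟨hb', rfl⟩)
  choose B hB hBmax using hex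
  have hne : Nonempty ι := by
    obtain ⟨s, hs⟩ := hT
    exact ⟨⟨s.1, Finset.mem_image_of_mem _ hs⟩⟩
  let zz : ι → ℂ := fun x => m * (l * x.1)
  let bb : ι → ℂ := fun x => l * B x
  have hF : ∀ (x : ι) (a : ℂ), F zz bb x (a / m) = l * (B x + x.1 * a) := by
    intro x a
    show l * B x + m * (l * x.1) * (a / m) = _
    field_simp
  have hcard : (D.image fun a => a / m).card = D.card := by
    apply Finset.card_image_of_injective
    intro a a' haa
    simp only at haa
    exact (div_left_inj' hm0).1 haa
  have hdom : ∀ a ∈ D, ∀ c : ι, c ∈ S zz bb (a / m) → ∀ s ∈ T,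
      (l * (s.2 + s.1 * a)).re ≤ (l * (B c + c.1 * a)).re := by
    intro a ha c hc s hs
    have h1 := mem_S.1 hc ⟨s.1, Finset.mem_image_of_mem _ hs⟩
    rw [hF, hF] at h1
    have h2 := hBmax ⟨s.1, Finset.mem_image_of_mem _ hs⟩ s.2 hs
    refine le_trans ?_ h1
    rw [mul_add, mul_add, Complex.add_re, Complex.add_re]
    simp only at h2 ⊢
    linarith
  have hmain := card_good_lt (z := zz) (b := bb) (by
      intro x y hxy
      apply Subtype.ext
      exact hm' _ (hB x) _ (hB y) hxy) (D.image fun a => a / m) (by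
    intro X hX
    obtain ⟨a, ha, rfl⟩ := Finset.mem_image.1 hX
    refine ⟨?_, ?_⟩
    · -- two classes
      obtain ⟨c, _, hcmax⟩ := (univ : Finset ι).exists_max_image
        (fun c => (F zz bb c (a / m)).re) univ_nonempty
      have hc : c ∈ S zz bb (a / m) := mem_S.2 fun d => hcmax d (Finset.mem_univ d)
      obtain ⟨s', hs', hne', he⟩ := h a ha (c.1, B c) (hB c)
      simp only at he
      have hc' : s'.1 ≠ c.1 := by
        intro hcc
        apply hne'
        rw [hcc] at he
        exact Prod.ext hcc (by simpa using he)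
      apply Finset.one_lt_card.2
      refine ⟨c, hc, ⟨s'.1, Finset.mem_image_of_mem _ hs'⟩, ?_, fun hcc => hc' ?_⟩
      · apply mem_S_of_eq hc
        apply le_antisymm
        · rw [hF, hF, ← he]
          have h2 := hBmax ⟨s'.1, Finset.mem_image_of_mem _ hs'⟩ s'.2 hs'
          rw [mul_add, mul_add, Complex.add_re, Complex.add_re]
          simp only at h2 ⊢
          linarith
        · exact mem_S.1 hc _
      · rw [hcc]
    · intro c hc d hd
      rw [hF, hF]
      congr 1
      have := S_eq hc hd
      rw [hF, hF] at this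
      exact hl' a ha (c.1, B c) (hB c) (d.1, B d) (hB d) this)
  rw [hcard] at hmain
  refine hmain.trans ?_
  rw [Fintype.card_coe]

end Pool.Agent.H57.Forest
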