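import Mathlib
import Pool.Agent.H57.CB

/-!
# The structure of sets with perfect matchings in many directions
-/

open Finset Polynomial

set_option linter.unusedVariables false

namespace Pool.Agent.H57.CB

open Pool.Agent.H57.Sqrt

theorem partner (S : Finset (ℂ × ℂ)) (D : Finset ℂ) (hfib : ∀ a ∈ D, ∀ s ∈ S,
      (S.filter fun s' => s'.2 + s'.1 * a = s.2 + s.1 * a).card = 2) {a : ℂ} (ha : a ∈ D)
    {s : ℂ × ℂ} (hs : s ∈ S) : ∃ s' ∈ S, s' ≠ s ∧ s'.2 + s'.1 * a = s.2 + s.1 * a := by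
  have h2 := hfib a ha s hs
  obtain ⟨x, hx, y, hy, hxy⟩ := Finset.one_lt_card.1 (show 1 < _ by rw [h2]; norm_num)
  rw [Finset.mem_filter] at hx hy
  by_cases hxs : x = s
  · exact ⟨y, hy.1, fun h => hxy (hxs.trans h.symm), hy.2⟩
  · exact ⟨x, hx.1, hxs, hx.2⟩

theorem diff_ne {a : ℂ} {s s' : ℂ × ℂ} (hne : s' ≠ s) (he : s'.2 + s'.1 * a = s.2 + s.1 * a) :
    s'.1 - s.1 ≠ 0 := by
  intro h0
  apply hne
  have h1 : s'.1 = s.1 := sub_eq_zero.1 h0
  rw [h1] at he
  exact Prod.ext h1 (by simpa using he)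

theorem lin_diff {a : ℂ} {s s' : ℂ × ℂ} (L : ℂ × ℂ × ℂ)
    (he : s'.2 + s'.1 * a = s.2 + s.1 * a) :
    lin L s' - lin L s = (s'.1 - s.1) * (L.2.1 - a * L.2.2) := by
  unfold lin
  linear_combination L.2.2 * he

open scoped Classical in
theorem dir_ne (S : Finset (ℂ × ℂ)) (D : Finset ℂ) (hfib : ∀ a ∈ D, ∀ s ∈ S,
      (S.filter fun s' => s'.2 + s'.1 * a = s.2 + s.1 * a).card = 2) {a : ℂ} (ha : a ∈ D)
    {L : ℂ × ℂ × ℂ} (hL : L.2 ≠ 0) (h3 : 3 ≤ (S.filter fun s => lin L s = 0).card) :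
    L.2.1 - a * L.2.2 ≠ 0 := by
  intro h0
  have hne : (S.filter fun s => lin L s = 0).Nonempty := Finset.card_pos.1 (by omega)
  obtain ⟨s, hs⟩ := hne
  rw [Finset.mem_filter] at hs
  have hc0 : L.2.2 ≠ 0 := by
    intro h1
    apply hL
    rw [h1, mul_zero, sub_zero] at h0
    exact Prod.ext h0 h1
  have hsub : (S.filter fun s => lin L s = 0) ⊆
      S.filter fun s' => s'.2 + s'.1 * a = s.2 + s.1 * a := by
    intro t ht
    rw [Finset.mem_filter] at ht ⊢
    refine ⟨ht.1, ?_⟩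
    have h1 := ht.2
    have h2 := hs.2
    unfold lin at h1 h2
    have h3 : L.2.2 * ((t.2 + t.1 * a) - (s.2 + s.1 * a)) = 0 := by
      linear_combination h1 - h2 - (t.1 - s.1) * h0
    exact sub_eq_zero.1 ((mul_eq_zero.1 h3).resolve_left hc0)
  have := Finset.card_le_card hsub
  rw [hfib a ha s hs.1] at this
  omega

open scoped Classical in
theorem two_lines (S : Finset (ℂ × ℂ)) (D : Finset ℂ) (m : ℕ) (hm : 3 ≤ m)
    (hS : S.card = 2 * m) (hD : D.card = m) (hfib : ∀ a ∈ D, ∀ s ∈ S,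
      (S.filter fun s' => s'.2 + s'.1 * a = s.2 + s.1 * a).card = 2) {L : ℂ × ℂ × ℂ}
    (hL : L.2 ≠ 0) (h3 : 3 ≤ (S.filter fun s => lin L s = 0).card) :
    ∃ L' : ℂ × ℂ × ℂ, L'.2 ≠ 0 ∧ (∀ s ∈ S, lin L s ≠ 0 ↔ lin L' s = 0) ∧
      (S.filter fun s => lin L s = 0).card = m ∧ (S.filter fun s => lin L' s = 0).card = m := by
  have hD0 : D.Nonempty := Finset.card_pos.1 (by omega)
  obtain ⟨c, hc0, hc⟩ := exists_weight S D m hD hS hfib hD0
  have hAnn : Ann S c (m - 2 + 1) := by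
    intro i j hij
    exact ann_of_weight S D m hD hfib c hc i j (by omega)
  -- not collinear
  have hnot : ∀ L : ℂ × ℂ × ℂ, L.2 ≠ 0 → ∃ s ∈ S, lin L s ≠ 0 := by
    intro L hL
    by_contra hcon
    push Not at hcon
    obtain ⟨a, ha, a', ha', haa⟩ := Finset.one_lt_card.1 (show 1 < D.card by omega)
    have hS0 : S.Nonempty := Finset.card_pos.1 (by omega)
    obtain ⟨s, hs⟩ := hS0
    have key : ∀ a ∈ D, L.2.1 - a * L.2.2 = 0 := by
      intro a ha
      obtain ⟨s', hs', hne, he⟩ := partner S D hfib ha hs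
      have h1 := lin_diff L he
      rw [hcon s hs, hcon s' hs', sub_zero] at h1
      exact (mul_eq_zero.1 h1.symm).resolve_left (diff_ne hne he)
    have h1 := key a ha
    have h2 := key a' ha'
    have h3 : (a - a') * L.2.2 = 0 := by linear_combination h2 - h1
    have h4 : L.2.2 = 0 := (mul_eq_zero.1 h3).resolve_left (sub_ne_zero.2 haa)
    rw [h4, mul_zero, sub_zero] at h1
    exact hL (Prod.ext h1 h4)
  have hsplit : ∀ L : ℂ × ℂ × ℂ, (S.filter fun s => lin L s = 0).card +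
      (S.filter fun s => lin L s ≠ 0).card = S.card := fun L =>
    Finset.card_filter_add_card_filter_not _
  obtain ⟨hG, hGw⟩ := hAnn.remove hc0 L
  have hGcard : (S.filter fun s => lin L s ≠ 0).card ≤ 2 * (m - 2) + 1 := by
    have := hsplit L
    omega
  obtain ⟨L', hL', hL'0⟩ := collinear _ _ _ hGw hG hGcard
  obtain ⟨hG', hGw'⟩ := hAnn.remove hc0 L'
  have hGm : m ≤ (S.filter fun s => lin L s ≠ 0).card := by
    obtain ⟨s, hs, hs0⟩ := hnot L hL
    have := card_ge _ _ _ hGw hG ⟨s, Finset.mem_filter.2 ⟨hs, hs0⟩⟩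
    omega
  have hGm' : m ≤ (S.filter fun s => lin L' s ≠ 0).card := by
    obtain ⟨s, hs, hs0⟩ := hnot L' hL'
    have := card_ge _ _ _ hGw' hG' ⟨s, Finset.mem_filter.2 ⟨hs, hs0⟩⟩
    omega
  have hsub : (S.filter fun s => lin L' s ≠ 0) ⊆ S.filter fun s => lin L s = 0 := by
    intro s hs
    rw [Finset.mem_filter] at hs ⊢
    refine ⟨hs.1, ?_⟩
    by_contra hcon
    exact hs.2 (hL'0 s (Finset.mem_filter.2 ⟨hs.1, hcon⟩))
  have hcle := Finset.card_le_card hsub
  have h1 := hsplit L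
  have h2 := hsplit L'
  have heq : (S.filter fun s => lin L' s ≠ 0) = S.filter fun s => lin L s = 0 :=
    Finset.eq_of_subset_of_card_le hsub (by omega)
  refine ⟨L', hL', ?_, by omega, by omega⟩
  intro s hs
  constructor
  · intro h
    exact hL'0 s (Finset.mem_filter.2 ⟨hs, h⟩)
  · intro h h'
    have : s ∈ S.filter fun s => lin L' s ≠ 0 := by
      rw [heq]
      exact Finset.mem_filter.2 ⟨hs, h'⟩
    exact (Finset.mem_filter.1 this).2 h

open scoped Classical in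
theorem struct (S : Finset (ℂ × ℂ)) (D : Finset ℂ) (m : ℕ) (hm : 3 ≤ m)
    (hS : S.card = 2 * m) (hD : D.card = m) (hfib : ∀ a ∈ D, ∀ s ∈ S,
      (S.filter fun s' => s'.2 + s'.1 * a = s.2 + s.1 * a).card = 2)
    (h3 : ∃ L : ℂ × ℂ × ℂ, L.2 ≠ 0 ∧ 3 ≤ (S.filter fun s => lin L s = 0).card) :
    ∃ L L' : ℂ × ℂ × ℂ, L.2.1 * L'.2.2 - L'.2.1 * L.2.2 ≠ 0 ∧ ∃ c₀ d₀ : ℂ, c₀ ≠ 0 ∧ d₀ ≠ 0 ∧
      (∀ s ∈ S, (lin L s = 0 ∧ (-lin L' s / c₀) ^ m = 1) ∨
        (lin L' s = 0 ∧ (-lin L s / d₀) ^ m = 1)) ∧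
      (∀ a ∈ D, L.2.1 - a * L.2.2 ≠ 0 ∧
        (-(L'.2.1 - a * L'.2.2) / (L.2.1 - a * L.2.2) * d₀ / c₀) ^ m = 1) := by
  obtain ⟨L, hL, h3⟩ := h3
  obtain ⟨L', hL', hiff, hcard, hcard'⟩ := two_lines S D m hm hS hD hfib hL h3
  have hd : ∀ a ∈ D, L.2.1 - a * L.2.2 ≠ 0 := fun a ha => dir_ne S D hfib ha hL h3
  have hd' : ∀ a ∈ D, L'.2.1 - a * L'.2.2 ≠ 0 := fun a ha =>
    dir_ne S D hfib ha hL' (by omega)
  set S1 := S.filter fun s => lin L s = 0 with hS1
  set S2 := S.filter fun s => lin L' s = 0 with hS2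
  have hm1 : ∀ s, s ∈ S1 ↔ s ∈ S ∧ lin L s = 0 := fun s => by rw [hS1, Finset.mem_filter]
  have hm2 : ∀ s, s ∈ S2 ↔ s ∈ S ∧ lin L' s = 0 := fun s => by rw [hS2, Finset.mem_filter]
  -- partners of elements on the first line are on the second
  have hpar : ∀ a ∈ D, ∀ s ∈ S1, ∃ s' ∈ S2, s' ≠ s ∧ s'.2 + s'.1 * a = s.2 + s.1 * a ∧
      lin L s' = (s'.1 - s.1) * (L.2.1 - a * L.2.2) ∧
      -lin L' s = (s'.1 - s.1) * (L'.2.1 - a * L'.2.2) := by
    intro a ha s hs
    rw [hm1] at hs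
    obtain ⟨s', hs', hne, he⟩ := partner S D hfib ha hs.1
    have h1 := lin_diff L he
    have h2 := lin_diff L' he
    rw [hs.2, sub_zero] at h1
    have h4 : lin L s' ≠ 0 := by
      rw [h1]
      exact mul_ne_zero (diff_ne hne he) (hd a ha)
    have h5 := (hiff s' hs').1 h4
    rw [h5, zero_sub] at h2
    exact ⟨s', (hm2 s').2 ⟨hs', h5⟩, hne, he, h1, h2⟩
  have hne1 : S1.Nonempty := Finset.card_pos.1 (by omega)
  have hne2 : S2.Nonempty := Finset.card_pos.1 (by omega)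
  -- non-parallel
  have hdet : L.2.1 * L'.2.2 - L'.2.1 * L.2.2 ≠ 0 := by
    intro hdet
    -- L' is constant on S1
    have hconst : ∀ s ∈ S1, ∀ t ∈ S1, lin L' s = lin L' t := by
      intro s hs t ht
      have h1 := ((hm1 s).1 hs).2
      have h2 := ((hm1 t).1 ht).2
      unfold lin at h1 h2 ⊢
      have h4 : L.2.1 * (s.1 - t.1) + L.2.2 * (s.2 - t.2) = 0 := by linear_combination h1 - h2
      suffices h5 : L'.2.1 * (s.1 - t.1) + L'.2.2 * (s.2 - t.2) = 0 by linear_combination h5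
      by_cases hb : L.2.1 = 0
      · have hc : L.2.2 ≠ 0 := by
          intro hc
          exact hL (Prod.ext hb hc)
        have h6 : L.2.2 * (L'.2.1 * (s.1 - t.1) + L'.2.2 * (s.2 - t.2)) = 0 := by
          linear_combination L'.2.2 * h4 - (s.1 - t.1) * hdet
        exact (mul_eq_zero.1 h6).resolve_left hc
      · have h6 : L.2.1 * (L'.2.1 * (s.1 - t.1) + L'.2.2 * (s.2 - t.2)) = 0 := by
          linear_combination L'.2.1 * h4 + (s.2 - t.2) * hdet
        exact (mul_eq_zero.1 h6).resolve_left hb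
    obtain ⟨s₀, hs₀⟩ := hne1
    -- translation
    have hsum : ∀ a ∈ D, ∃ κ : ℂ, κ ≠ 0 ∧
        ∑ s ∈ S2, s.1 = ∑ s ∈ S1, s.1 + m * κ ∧
        ∑ s ∈ S2, s.2 = ∑ s ∈ S1, s.2 - m * (a * κ) := by
      intro a ha
      obtain ⟨s', hs', hne, he, h1, h2⟩ := hpar a ha s₀ hs₀
      set κ := s'.1 - s₀.1 with hκ
      have himg : S2 = S1.image fun s => (s.1 + κ, s.2 - a * κ) := by
        symm
        apply Finset.eq_of_subset_of_card_le
        · intro t ht
          obtain ⟨s, hs, rfl⟩ := Finset.mem_image.1 ht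
          obtain ⟨t', ht', hne', he', h1', h2'⟩ := hpar a ha s hs
          rw [hconst s hs s₀ hs₀, h2] at h2'
          have h6 : κ = t'.1 - s.1 := mul_right_cancel₀ (hd' a ha) h2'
          have h7 : (s.1 + κ, s.2 - a * κ) = t' := by
            apply Prod.ext
            · show s.1 + κ = t'.1
              rw [h6]; ring
            · show s.2 - a * κ = t'.2
              rw [h6]; linear_combination -he'
          rw [h7]
          exact ht'
        · rw [Finset.card_image_of_injective, hcard, hcard']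
          intro s t hst
          simp only [Prod.mk.injEq, add_left_inj, sub_left_inj] at hst
          exact Prod.ext hst.1 hst.2
      have hinj : Function.Injective fun s : ℂ × ℂ => (s.1 + κ, s.2 - a * κ) := by
        intro s t hst
        simp only [Prod.mk.injEq, add_left_inj, sub_left_inj] at hst
        exact Prod.ext hst.1 hst.2
      refine ⟨κ, diff_ne hne he, ?_, ?_⟩
      · rw [himg, Finset.sum_image fun x _ y _ h => hinj h, Finset.sum_add_distrib,
          Finset.sum_const, hcard, nsmul_eq_mul]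
      · rw [himg, Finset.sum_image fun x _ y _ h => hinj h, Finset.sum_sub_distrib,
          Finset.sum_const, hcard, nsmul_eq_mul]
    obtain ⟨a, ha, a', ha', haa⟩ := Finset.one_lt_card.1 (show 1 < D.card by omega)
    obtain ⟨κ, hκ, e1, e2⟩ := hsum a ha
    obtain ⟨κ', hκ', e1', e2'⟩ := hsum a' ha'
    have hm0 : (m : ℂ) ≠ 0 := by
      have : m ≠ 0 := by omega
      exact_mod_cast this
    have h5 : (m : ℂ) * (κ - κ') = 0 := by linear_combination e1' - e1
    have h6 : κ = κ' := sub_eq_zero.1 ((mul_eq_zero.1 h5).resolve_left hm0)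
    have h7 : (m : ℂ) * (κ * (a - a')) = 0 := by
      rw [← h6] at e2'
      linear_combination e2 - e2'
    have h8 := (mul_eq_zero.1 h7).resolve_left hm0
    have h9 := (mul_eq_zero.1 h8).resolve_left hκ
    exact haa (sub_eq_zero.1 h9)
  -- injectivity of the two coordinates
  have hinj : ∀ s t : ℂ × ℂ, lin L s = lin L t → lin L' s = lin L' t → s = t := by
    intro s t h1 h2
    unfold lin at h1 h2
    have h4 : (L.2.1 * L'.2.2 - L'.2.1 * L.2.2) * (s.1 - t.1) = 0 := by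
      linear_combination L'.2.2 * h1 - L.2.2 * h2
    have h5 : (L.2.1 * L'.2.2 - L'.2.1 * L.2.2) * (s.2 - t.2) = 0 := by
      linear_combination L.2.1 * h2 - L'.2.1 * h1
    exact Prod.ext (sub_eq_zero.1 ((mul_eq_zero.1 h4).resolve_left hdet))
      (sub_eq_zero.1 ((mul_eq_zero.1 h5).resolve_left hdet))
  let cc : ℂ × ℂ → ℂ := fun s => -lin L' s
  let dd : ℂ × ℂ → ℂ := fun s => -lin L s
  let ρ : ℂ → ℂ := fun a => -(L'.2.1 - a * L'.2.2) / (L.2.1 - a * L.2.2)
  let C1 := S1.image cc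
  let C2 := S2.image dd
  have hC1 : C1.card = m := by
    rw [← hcard]
    apply Finset.card_image_of_injOn
    intro s hs t ht h
    rw [Finset.mem_coe, hm1] at hs ht
    exact hinj s t (hs.2.trans ht.2.symm) (neg_injective h)
  have hC2 : C2.card = m := by
    rw [← hcard']
    apply Finset.card_image_of_injOn
    intro s hs t ht h
    rw [Finset.mem_coe, hm2] at hs ht
    exact hinj s t (neg_injective h) (hs.2.trans ht.2.symm)
  have hC1ne : ∀ x ∈ C1, x ≠ 0 := by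
    intro x hx
    obtain ⟨s, hs, rfl⟩ := Finset.mem_image.1 hx
    rw [hm1] at hs
    intro h0
    have h1 : lin L' s = 0 := neg_eq_zero.1 h0
    exact (hiff s hs.1).2 h1 hs.2
  have hC2ne : ∀ x ∈ C2, x ≠ 0 := by
    intro x hx
    obtain ⟨s, hs, rfl⟩ := Finset.mem_image.1 hx
    rw [hm2] at hs
    intro h0
    have h1 : lin L s = 0 := neg_eq_zero.1 h0
    exact (hiff s hs.1).2 hs.2 h1
  have hρ0 : ∀ a ∈ D, ρ a ≠ 0 := fun a ha =>
    div_ne_zero (neg_ne_zero.2 (hd' a ha)) (hd a ha)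
  have hC12 : ∀ a ∈ D, C2.image (fun y => ρ a * y) = C1 := by
    intro a ha
    symm
    apply Finset.eq_of_subset_of_card_le
    · intro x hx
      obtain ⟨s, hs, rfl⟩ := Finset.mem_image.1 hx
      obtain ⟨s', hs', hne, he, h1, h2⟩ := hpar a ha s hs
      rw [Finset.mem_image]
      refine ⟨dd s', Finset.mem_image_of_mem _ hs', ?_⟩
      show -(L'.2.1 - a * L'.2.2) / (L.2.1 - a * L.2.2) * (-lin L s') = -lin L' s
      rw [h1, h2]
      have := hd a ha
      field_simp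
    · rw [hC1, ← hC2]
      exact Finset.card_image_le
  -- m-th powers of the ratios
  have hρm : ∀ a ∈ D, ρ a ^ m * ∏ y ∈ C2, y = ∏ x ∈ C1, x := by
    intro a ha
    have key : ∀ E : Finset ℂ, E.card = m →
        ∏ x ∈ E.image (fun y => ρ a * y), x = ρ a ^ m * ∏ y ∈ E, y := by
      intro E hE
      rw [Finset.prod_image, Finset.prod_mul_distrib, Finset.prod_const, hE]
      intro x _ y _ h
      exact mul_left_cancel₀ (hρ0 a ha) h
    rw [← hC12 a ha, key C2 hC2]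
  have hP2 : ∏ y ∈ C2, y ≠ 0 := Finset.prod_ne_zero_iff.2 hC2ne
  have hP1 : ∏ x ∈ C1, x ≠ 0 := Finset.prod_ne_zero_iff.2 hC1ne
  set K := (∏ x ∈ C1, x) / ∏ y ∈ C2, y with hK
  have hK0 : K ≠ 0 := div_ne_zero hP1 hP2
  have hρK : ∀ a ∈ D, ρ a ^ m = K := fun a ha => by
    rw [hK, eq_div_iff hP2]
    exact hρm a ha
  have hρinj : Set.InjOn ρ (D : Set ℂ) := by
    intro a ha a' ha' h
    have h1 := hd a ha
    have h2 := hd a' ha'
    have h : -(L'.2.1 - a * L'.2.2) / (L.2.1 - a * L.2.2) =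
      -(L'.2.1 - a' * L'.2.2) / (L.2.1 - a' * L.2.2) := h
    rw [div_eq_div_iff h1 h2] at h
    have h4 : (L.2.1 * L'.2.2 - L'.2.1 * L.2.2) * (a - a') = 0 := by linear_combination h
    exact sub_eq_zero.1 ((mul_eq_zero.1 h4).resolve_left hdet)
  have hrel : ∀ x ∈ C1, ∀ y ∈ C2, x ^ m = K * y ^ m := by
    intro x hx y hy
    have himg : D.image (fun a => ρ a * y) = C1 := by
      apply Finset.eq_of_subset_of_card_le
      · intro t ht
        obtain ⟨a, ha, rfl⟩ := Finset.mem_image.1 ht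
        rw [← hC12 a ha]
        exact Finset.mem_image_of_mem (fun y => ρ a * y) hy
      · rw [hC1, Finset.card_image_of_injOn, hD]
        intro a ha a' ha' h
        exact hρinj ha ha' (mul_right_cancel₀ (hC2ne y hy) h)
    rw [← himg] at hx
    obtain ⟨a, ha, rfl⟩ := Finset.mem_image.1 hx
    rw [mul_pow, hρK a ha]
  obtain ⟨s₁, hs₁⟩ := hne1
  obtain ⟨s₂, hs₂⟩ := hne2
  have hc₀ : cc s₁ ∈ C1 := Finset.mem_image_of_mem _ hs₁
  have hd₀ : dd s₂ ∈ C2 := Finset.mem_image_of_mem _ hs₂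
  have hc₀0 := hC1ne _ hc₀
  have hd₀0 := hC2ne _ hd₀
  refine ⟨L, L', hdet, cc s₁, dd s₂, hc₀0, hd₀0, ?_, ?_⟩
  · intro s hs
    by_cases h : lin L s = 0
    · left
      refine ⟨h, ?_⟩
      have hcs : cc s ∈ C1 := Finset.mem_image_of_mem _ ((hm1 s).2 ⟨hs, h⟩)
      show (cc s / cc s₁) ^ m = 1
      rw [div_pow, hrel _ hcs _ hd₀, hrel _ hc₀ _ hd₀]
      exact div_self (mul_ne_zero hK0 (pow_ne_zero _ hd₀0))
    · right
      have h' := (hiff s hs).1 h
      refine ⟨h', ?_⟩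
      have hds : dd s ∈ C2 := Finset.mem_image_of_mem _ ((hm2 s).2 ⟨hs, h'⟩)
      show (dd s / dd s₂) ^ m = 1
      have h1 := hrel _ hc₀ _ hds
      have h2 := hrel _ hc₀ _ hd₀
      rw [h1] at h2
      have h4 := mul_left_cancel₀ hK0 h2
      rw [div_pow, h4]
      exact div_self (pow_ne_zero _ hd₀0)
  · intro a ha
    refine ⟨hd a ha, ?_⟩
    show (ρ a * dd s₂ / cc s₁) ^ m = 1
    rw [div_pow, mul_pow, hρK a ha, ← hrel _ hc₀ _ hd₀]
    exact div_self (pow_ne_zero _ hc₀0)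

end Pool.Agent.H57.CB
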