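import Mathlib
import Pool.Agent.H57.Core

/-!
# From line arrangements to finite sets of pairs
-/

open Finset Module

set_option linter.unusedSectionVars false
set_option linter.unusedVariables false

namespace Pool.Agent.H57.Trans

/-- vectors -/
abbrev W := Fin 3 → ℂ

theorem finrank_W : finrank ℂ W = 3 := by simp

/-- a plane and a vector outside span the space -/
theorem exists_coef {ℓ : Submodule ℂ W} (hℓ : finrank ℂ ℓ = 2) {u : W} (hu : u ∉ ℓ) (x : W) :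
    ∃ c : ℂ, x - c • u ∈ ℓ := by
  have hlt : ℓ < ℓ ⊔ Submodule.span ℂ {u} := by
    refine lt_of_le_of_ne le_sup_left fun h => hu ?_
    rw [h]
    exact Submodule.mem_sup_right (Submodule.mem_span_singleton_self u)
  have h3 : finrank ℂ ↥(ℓ ⊔ Submodule.span ℂ {u}) = 3 := by
    have h1 := Submodule.finrank_lt_finrank_of_lt hlt
    have h2 := Submodule.finrank_le (ℓ ⊔ Submodule.span ℂ {u})
    rw [finrank_W] at h2
    omega
  have htop : ℓ ⊔ Submodule.span ℂ {u} = ⊤ := by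
    apply Submodule.eq_top_of_finrank_eq
    rw [h3, finrank_W]
  have hx : x ∈ ℓ ⊔ Submodule.span ℂ {u} := by rw [htop]; trivial
  obtain ⟨y, hy, w, hw, hyw⟩ := Submodule.mem_sup.1 hx
  obtain ⟨c, hc⟩ := Submodule.mem_span_singleton.1 hw
  refine ⟨c, ?_⟩
  rw [hc, ← hyw, add_sub_cancel_right]
  exact hy

theorem coef_unique {ℓ : Submodule ℂ W} {u : W} (hu : u ∉ ℓ) {x : W} {c c' : ℂ}
    (h : x - c • u ∈ ℓ) (h' : x - c' • u ∈ ℓ) : c = c' := by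
  by_contra hne
  apply hu
  have h1 := ℓ.sub_mem h' h
  have h2 : x - c' • u - (x - c • u) = (c - c') • u := by
    rw [sub_smul]; abel
  rw [h2] at h1
  exact (ℓ.smul_mem_iff (sub_ne_zero.2 hne)).1 h1

/-- two planes containing two independent vectors are equal -/
theorem plane_eq {ℓ ℓ' : Submodule ℂ W} (hℓ : finrank ℂ ℓ = 2) (hℓ' : finrank ℂ ℓ' = 2)
    {x y : W} (hx : x ∈ ℓ) (hy : y ∈ ℓ) (hx' : x ∈ ℓ') (hy' : y ∈ ℓ')
    (hxy : LinearIndependent ℂ ![x, y]) : ℓ = ℓ' := by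
  have key : ∀ m : Submodule ℂ W, finrank ℂ m = 2 → x ∈ m → y ∈ m →
      Submodule.span ℂ (Set.range ![x, y]) = m := by
    intro m hm h1 h2
    apply Submodule.eq_of_le_of_finrank_eq
    · rw [Submodule.span_le]
      rintro _ ⟨i, rfl⟩
      fin_cases i
      · exact h1
      · exact h2
    · rw [hm, finrank_span_eq_card hxy]
      simp
  rw [← key ℓ hℓ hx hy, ← key ℓ' hℓ' hx' hy']

theorem point_eq {p : Submodule ℂ W} (hp : finrank ℂ p = 1) {v : W} (hv : v ∈ p) (hv0 : v ≠ 0) :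
    p = Submodule.span ℂ {v} := by
  symm
  apply Submodule.eq_of_le_of_finrank_eq
  · rw [Submodule.span_singleton_le_iff_mem]; exact hv
  · rw [hp, finrank_span_singleton hv0]

theorem point_le {v : W} {ℓ : Submodule ℂ W} : Submodule.span ℂ {v} ≤ ℓ ↔ v ∈ ℓ :=
  Submodule.span_singleton_le_iff_mem v ℓ

/-- linear independence of pairs from membership -/
theorem indep_pair {p : Submodule ℂ W} {x y : W} (hx0 : x ≠ 0) (hx : x ∈ p) (hy : y ∉ p) :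
    LinearIndependent ℂ ![x, y] := by
  rw [LinearIndependent.pair_iff]
  intro s t hst
  by_cases ht : t = 0
  · subst ht
    rw [zero_smul, add_zero, smul_eq_zero] at hst
    exact ⟨hst.resolve_right hx0, rfl⟩
  · exfalso
    apply hy
    have h1 : t • y = -(s • x) := by
      rw [eq_neg_iff_add_eq_zero, add_comm]; exact hst
    rw [← p.smul_mem_iff ht, h1]
    exact p.neg_mem (p.smul_mem s hx)

/-- adapted vectors: `p` is spanned by `v`, `ℓ₀` by `v` and `w`, and `w'` is outside -/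
structure Adapted (p ℓ₀ : Submodule ℂ W) (v w w' : W) : Prop where
  v0 : v ≠ 0
  vp : v ∈ p
  vl : v ∈ ℓ₀
  wl : w ∈ ℓ₀
  wp : w ∉ p
  wl' : w' ∉ ℓ₀

theorem exists_adapted {p ℓ₀ : Submodule ℂ W} (hp : finrank ℂ p = 1) (hℓ : finrank ℂ ℓ₀ = 2)
    (hle : p ≤ ℓ₀) : ∃ v w w', Adapted p ℓ₀ v w w' := by
  have hpb : p ≠ ⊥ := by
    rintro rfl
    simp at hp
  obtain ⟨v, hv, hv0⟩ := Submodule.exists_mem_ne_zero_of_ne_bot hpb
  have hlt : p < ℓ₀ := lt_of_le_of_ne hle (by rintro rfl; omega)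
  obtain ⟨w, hw, hwp⟩ := SetLike.exists_of_lt hlt
  have hlt' : ℓ₀ < ⊤ := by
    rw [lt_top_iff_ne_top]
    rintro rfl
    rw [finrank_top, finrank_W] at hℓ
    omega
  obtain ⟨w', _, hw'⟩ := SetLike.exists_of_lt hlt'
  exact ⟨v, w, w', hv0, hv, hle hv, hw, hwp, hw'⟩

/-- the coefficient -/
noncomputable def cf (ℓ : Submodule ℂ W) (u x : W) : ℂ :=
  open scoped Classical in if h : ∃ c : ℂ, x - c • u ∈ ℓ then h.choose else 0

theorem cf_spec {ℓ : Submodule ℂ W} (hℓ : finrank ℂ ℓ = 2) {u : W} (hu : u ∉ ℓ) (x : W) :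
    x - cf ℓ u x • u ∈ ℓ := by
  unfold cf
  rw [dif_pos (exists_coef hℓ hu x)]
  exact (exists_coef hℓ hu x).choose_spec

theorem cf_eq {ℓ : Submodule ℂ W} (hℓ : finrank ℂ ℓ = 2) {u : W} (hu : u ∉ ℓ) {x : W} {c : ℂ}
    (h : x - c • u ∈ ℓ) : cf ℓ u x = c :=
  coef_unique hu (cf_spec hℓ hu x) h

/-- arrangements of lines without double points, not a pencil -/
structure NoDouble (A : Set (Submodule ℂ W)) : Prop where
  fin : A.Finite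
  line : ∀ ℓ ∈ A, finrank ℂ ℓ = 2
  third : ∀ ℓ₁ ∈ A, ∀ ℓ₂ ∈ A, ℓ₁ ≠ ℓ₂ → ∀ p : Submodule ℂ W, finrank ℂ p = 1 →
    p ≤ ℓ₁ → p ≤ ℓ₂ → ∃ ℓ₃ ∈ A, ℓ₃ ≠ ℓ₁ ∧ ℓ₃ ≠ ℓ₂ ∧ p ≤ ℓ₃
  pencil : ¬ ∃ p : Submodule ℂ W, finrank ℂ p = 1 ∧ ∀ ℓ ∈ A, p ≤ ℓ

open scoped Classical in
/-- lines not through the point -/
noncomputable def A1 {A : Set (Submodule ℂ W)} (hA : NoDouble A) (p : Submodule ℂ W) :
    Finset (Submodule ℂ W) := hA.fin.toFinset.filter fun ℓ => ¬ p ≤ ℓ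

open scoped Classical in
/-- other lines through the point -/
noncomputable def A2 {A : Set (Submodule ℂ W)} (hA : NoDouble A) (p ℓ₀ : Submodule ℂ W) :
    Finset (Submodule ℂ W) := hA.fin.toFinset.filter fun ℓ => p ≤ ℓ ∧ ℓ ≠ ℓ₀

variable {A : Set (Submodule ℂ W)} (hA : NoDouble A) {p ℓ₀ : Submodule ℂ W} {v w w' : W}

theorem mem_A1 {ℓ : Submodule ℂ W} : ℓ ∈ A1 hA p ↔ ℓ ∈ A ∧ ¬ p ≤ ℓ := by
  simp [A1]

theorem mem_A2 {ℓ : Submodule ℂ W} : ℓ ∈ A2 hA p ℓ₀ ↔ ℓ ∈ A ∧ p ≤ ℓ ∧ ℓ ≠ ℓ₀ := by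
  simp [A2]

theorem not_le_iff (hp : finrank ℂ p = 1) (h : Adapted p ℓ₀ v w w') {ℓ : Submodule ℂ W} :
    ¬ p ≤ ℓ ↔ v ∉ ℓ := by
  rw [point_eq hp h.vp h.v0, point_le]

theorem le_iff (hp : finrank ℂ p = 1) (h : Adapted p ℓ₀ v w w') {ℓ : Submodule ℂ W} :
    p ≤ ℓ ↔ v ∈ ℓ := by
  rw [point_eq hp h.vp h.v0, point_le]

/-- the pairs of the lines not through the point -/
noncomputable def T (p : Submodule ℂ W) (v w w' : W) : Finset (ℂ × ℂ) :=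
  open scoped Classical in (A1 hA p).image fun ℓ => (cf ℓ v w, cf ℓ v w')

/-- the parameters of the other lines through the point -/
noncomputable def D (p ℓ₀ : Submodule ℂ W) (w w' : W) : Finset ℂ :=
  open scoped Classical in (A2 hA p ℓ₀).image fun ℓ => - cf ℓ w w'

theorem pair_inj (hp : finrank ℂ p = 1) (hle : p ≤ ℓ₀) (h : Adapted p ℓ₀ v w w')
    {ℓ ℓ' : Submodule ℂ W} (hℓ : finrank ℂ ℓ = 2) (hℓ' : finrank ℂ ℓ' = 2)
    (hv : v ∉ ℓ) (hv' : v ∉ ℓ') (h1 : cf ℓ v w = cf ℓ' v w) (h2 : cf ℓ v w' = cf ℓ' v w') :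
    ℓ = ℓ' := by
  have e1 := cf_spec hℓ hv w
  have e2 := cf_spec hℓ hv w'
  have e3 := cf_spec hℓ' hv' w
  have e4 := cf_spec hℓ' hv' w'
  rw [← h1] at e3
  rw [← h2] at e4
  refine plane_eq hℓ hℓ' e1 e2 e3 e4 (indep_pair (p := ℓ₀) ?_ ?_ ?_)
  · intro h0
    apply h.wp
    rw [sub_eq_zero.1 h0]
    exact p.smul_mem _ h.vp
  · exact ℓ₀.sub_mem h.wl (ℓ₀.smul_mem _ h.vl)
  · intro hmem
    apply h.wl'
    have := ℓ₀.add_mem hmem (ℓ₀.smul_mem (cf ℓ v w') h.vl)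
    rwa [sub_add_cancel] at this

theorem w_notMem (hℓ₀ : finrank ℂ ℓ₀ = 2) (hp : finrank ℂ p = 1) (h : Adapted p ℓ₀ v w w')
    {ℓ : Submodule ℂ W} (hℓ : finrank ℂ ℓ = 2) (hle : p ≤ ℓ) (hne : ℓ ≠ ℓ₀) : w ∉ ℓ := by
  intro hw
  apply hne
  exact plane_eq hℓ hℓ₀ ((le_iff hp h).1 hle) hw h.vl h.wl (indep_pair h.v0 h.vp h.wp)

theorem dir_mem {ℓ : Submodule ℂ W} (hℓ : finrank ℂ ℓ = 2) (hw : w ∉ ℓ) :
    w' + (-cf ℓ w w') • w ∈ ℓ := by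
  have := cf_spec hℓ hw w'
  rwa [neg_smul, ← sub_eq_add_neg]

theorem dir_indep (h : Adapted p ℓ₀ v w w') (hle : p ≤ ℓ₀) (a : ℂ) :
    LinearIndependent ℂ ![v, w' + a • w] := by
  apply indep_pair h.v0 h.vp
  intro hmem
  apply h.wl'
  have h1 := ℓ₀.sub_mem (hle hmem) (ℓ₀.smul_mem a h.wl)
  rwa [add_sub_cancel_right] at h1

theorem card_D (hℓ₀ : finrank ℂ ℓ₀ = 2) (hp : finrank ℂ p = 1) (hle : p ≤ ℓ₀)
    (h : Adapted p ℓ₀ v w w') : (D hA p ℓ₀ w w').card = (A2 hA p ℓ₀).card := by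
  apply Finset.card_image_of_injOn
  intro ℓ hℓ ℓ' hℓ' heq
  rw [Finset.mem_coe, mem_A2] at hℓ hℓ'
  have f1 := hA.line ℓ hℓ.1
  have f2 := hA.line ℓ' hℓ'.1
  have w1 := w_notMem hℓ₀ hp h f1 hℓ.2.1 hℓ.2.2
  have w2 := w_notMem hℓ₀ hp h f2 hℓ'.2.1 hℓ'.2.2
  have d1 := dir_mem (w' := w') f1 w1
  have d2 := dir_mem (w' := w') f2 w2
  simp only at heq
  rw [← heq] at d2
  exact plane_eq f1 f2 ((le_iff hp h).1 hℓ.2.1) d1 ((le_iff hp h).1 hℓ'.2.1) d2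
    (dir_indep h hle _)

theorem card_T (hp : finrank ℂ p = 1) (hle : p ≤ ℓ₀)
    (h : Adapted p ℓ₀ v w w') : (T hA p v w w').card = (A1 hA p).card := by
  apply Finset.card_image_of_injOn
  intro ℓ hℓ ℓ' hℓ' heq
  rw [Finset.mem_coe, mem_A1] at hℓ hℓ'
  simp only [Prod.mk.injEq] at heq
  exact pair_inj hp hle h (hA.line ℓ hℓ.1) (hA.line ℓ' hℓ'.1) ((not_le_iff hp h).1 hℓ.2)
    ((not_le_iff hp h).1 hℓ'.2) heq.1 heq.2

/-- the third line condition in coordinates -/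
theorem third_T (hp : finrank ℂ p = 1) (hle : p ≤ ℓ₀)
    (h : Adapted p ℓ₀ v w w') {ℓa ℓ : Submodule ℂ W} (hℓa : ℓa ∈ A) (hpa : p ≤ ℓa)
    (hℓ : ℓ ∈ A1 hA p) {x : W} {c : ℂ} (hx : x ∈ ℓa) (hc : x - c • v ∈ ℓ) (hxp : x ∉ p) :
    ∃ ℓ' ∈ A1 hA p, ℓ' ≠ ℓ ∧ x - c • v ∈ ℓ' := by
  rw [mem_A1] at hℓ
  have hva : v ∈ ℓa := (le_iff hp h).1 hpa
  have hy0 : x - c • v ∉ p := by
    intro hmem
    apply hxp
    have := p.add_mem hmem (p.smul_mem c h.vp)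
    rwa [sub_add_cancel] at this
  have hy0' : x - c • v ≠ 0 := by
    intro h0
    rw [h0] at hy0
    exact hy0 p.zero_mem
  have hne : ℓa ≠ ℓ := by
    rintro rfl
    exact hℓ.2 hpa
  have hya : x - c • v ∈ ℓa := ℓa.sub_mem hx (ℓa.smul_mem c hva)
  obtain ⟨ℓ₃, h3A, h3a, h3ℓ, h3⟩ := hA.third ℓa hℓa ℓ hℓ.1 hne (Submodule.span ℂ {x - c • v})
    (finrank_span_singleton hy0') (point_le.2 hya) (point_le.2 hc)
  refine ⟨ℓ₃, ?_, h3ℓ, point_le.1 h3⟩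
  rw [mem_A1]
  refine ⟨h3A, fun hp3 => h3a ?_⟩
  exact plane_eq (hA.line ℓ₃ h3A) (hA.line ℓa hℓa) ((le_iff hp h).1 hp3) (point_le.1 h3) hva hya
    (indep_pair h.v0 h.vp hy0)

theorem val_mem {ℓ : Submodule ℂ W} (hℓ : finrank ℂ ℓ = 2) (hv : v ∉ ℓ) (w w' : W) (a : ℂ) :
    (w' + a • w) - (cf ℓ v w' + cf ℓ v w * a) • v ∈ ℓ := by
  have e1 := cf_spec hℓ hv w
  have e2 := cf_spec hℓ hv w'
  have := ℓ.add_mem e2 (ℓ.smul_mem a e1)
  convert this using 1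
  rw [smul_sub, smul_smul, add_smul, mul_comm a]
  abel

theorem val_eq {ℓ : Submodule ℂ W} (hℓ : finrank ℂ ℓ = 2) (hv : v ∉ ℓ) {w w' : W} {a c : ℂ}
    (h : (w' + a • w) - c • v ∈ ℓ) : cf ℓ v w' + cf ℓ v w * a = c :=
  coef_unique hv (val_mem hℓ hv w w' a) h

theorem hyp_core (hℓ₀ : finrank ℂ ℓ₀ = 2) (hp : finrank ℂ p = 1) (hle : p ≤ ℓ₀)
    (h : Adapted p ℓ₀ v w w') : ∀ a ∈ D hA p ℓ₀ w w', ∀ s ∈ T hA p v w w',
      ∃ s' ∈ T hA p v w w', s' ≠ s ∧ s'.2 + s'.1 * a = s.2 + s.1 * a := by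
  intro a ha s hs
  obtain ⟨ℓa, hℓa, rfl⟩ := Finset.mem_image.1 ha
  obtain ⟨ℓ, hℓ, rfl⟩ := Finset.mem_image.1 hs
  rw [mem_A2] at hℓa
  have hℓ' := (mem_A1 hA).1 hℓ
  have fa := hA.line ℓa hℓa.1
  have fℓ := hA.line ℓ hℓ'.1
  have hvℓ : v ∉ ℓ := (not_le_iff hp h).1 hℓ'.2
  have hw : w ∉ ℓa := w_notMem hℓ₀ hp h fa hℓa.2.1 hℓa.2.2
  have hd := dir_mem (w' := w') fa hw
  have hval := val_mem fℓ hvℓ w w' (-cf ℓa w w')
  have hxp : w' + (-cf ℓa w w') • w ∉ p := by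
    intro hmem
    apply h.wl'
    have h1 := ℓ₀.sub_mem (hle hmem) (ℓ₀.smul_mem (-cf ℓa w w') h.wl)
    rwa [add_sub_cancel_right] at h1
  obtain ⟨ℓ', hℓ1, hne, hmem⟩ := third_T hA hp hle h hℓa.1 hℓa.2.1 hℓ hd hval hxp
  have hℓ1' := (mem_A1 hA).1 hℓ1
  have f' := hA.line ℓ' hℓ1'.1
  have hvℓ' : v ∉ ℓ' := (not_le_iff hp h).1 hℓ1'.2
  refine ⟨(cf ℓ' v w, cf ℓ' v w'), Finset.mem_image_of_mem _ hℓ1, ?_, ?_⟩
  · intro heq
    simp only [Prod.mk.injEq] at heq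
    exact hne (pair_inj hp hle h f' fℓ hvℓ' hvℓ heq.1 heq.2)
  · exact val_eq f' hvℓ' hmem

theorem T_nonempty (hp : finrank ℂ p = 1) : (T hA p v w w').Nonempty := by
  apply Finset.Nonempty.image
  by_contra hcon
  rw [Finset.not_nonempty_iff_eq_empty] at hcon
  apply hA.pencil
  refine ⟨p, hp, fun ℓ hℓ => ?_⟩
  by_contra hpl
  have : ℓ ∈ A1 hA p := (mem_A1 hA).2 ⟨hℓ, hpl⟩
  rw [hcon] at this
  simp at this

/-- the number of lines through the point -/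
theorem ncard_through (hle : p ≤ ℓ₀) (hℓ₀ : ℓ₀ ∈ A) :
    {ℓ ∈ A | p ≤ ℓ}.ncard = (A2 hA p ℓ₀).card + 1 := by
  classical
  have h1 : {ℓ ∈ A | p ≤ ℓ} = ((insert ℓ₀ (A2 hA p ℓ₀) : Finset _) : Set (Submodule ℂ W)) := by
    ext ℓ
    simp only [Set.mem_ofPred_eq, Finset.coe_insert, Set.mem_insert_iff, Finset.mem_coe, mem_A2]
    constructor
    · rintro ⟨h1, h2⟩
      by_cases h : ℓ = ℓ₀
      · exact Or.inl h
      · exact Or.inr ⟨h1, h2, h⟩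
    · rintro (rfl | ⟨h1, h2, _⟩)
      · exact ⟨hℓ₀, hle⟩
      · exact ⟨h1, h2⟩
  rw [h1, Set.ncard_coe_finset, Finset.card_insert_of_notMem]
  rw [mem_A2]
  tauto

/-- the other intersection points on `ℓ₀` -/
def Pts (A : Set (Submodule ℂ W)) (p ℓ₀ : Submodule ℂ W) : Set (Submodule ℂ W) :=
  {q | finrank ℂ q = 1 ∧ q ≠ p ∧ q ≤ ℓ₀ ∧ ∃ ℓ ∈ A, ℓ ≠ ℓ₀ ∧ q ≤ ℓ}

theorem Pts_eq (hℓ₀ : finrank ℂ ℓ₀ = 2) (hp : finrank ℂ p = 1) (hle : p ≤ ℓ₀)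
    (h : Adapted p ℓ₀ v w w') :
    Pts A p ℓ₀ = (fun z : ℂ => Submodule.span ℂ {w - z • v}) ''
      (((T hA p v w w').image Prod.fst : Finset ℂ) : Set ℂ) := by
  ext q
  constructor
  · rintro ⟨hq, hqp, hq0, ℓ, hℓ, hℓ0, hqℓ⟩
    have fℓ := hA.line ℓ hℓ
    have hqb : q ≠ ⊥ := by
      rintro rfl
      simp at hq
    obtain ⟨y, hy, hy0⟩ := Submodule.exists_mem_ne_zero_of_ne_bot hqb
    have hyp : y ∉ p := by
      intro hyp
      apply hqp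
      rw [point_eq hq hy hy0, point_eq hp hyp hy0]
    have hpℓ : ¬ p ≤ ℓ := by
      intro hpℓ
      apply hℓ0
      exact plane_eq fℓ hℓ₀ ((le_iff hp h).1 hpℓ) (hqℓ hy) h.vl (hq0 hy)
        (indep_pair h.v0 h.vp hyp)
    have hvℓ := (not_le_iff hp h).1 hpℓ
    have hz := cf_spec fℓ hvℓ w
    have hzq : w - cf ℓ v w • v ∈ q := by
      by_contra hcon
      apply hℓ0
      exact plane_eq fℓ hℓ₀ (hqℓ hy) hz (hq0 hy) (ℓ₀.sub_mem h.wl (ℓ₀.smul_mem _ h.vl))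
        (indep_pair hy0 hy hcon)
    refine ⟨cf ℓ v w, ?_, ?_⟩
    · rw [Finset.mem_coe, Finset.mem_image]
      exact ⟨(cf ℓ v w, cf ℓ v w'),
        Finset.mem_image_of_mem (fun ℓ => (cf ℓ v w, cf ℓ v w')) ((mem_A1 hA).2 ⟨hℓ, hpℓ⟩), rfl⟩
    · refine (point_eq hq hzq ?_).symm
      intro h0
      apply h.wp
      rw [sub_eq_zero.1 h0]
      exact p.smul_mem _ h.vp
  · rintro ⟨z, hz, rfl⟩
    rw [Finset.mem_coe, Finset.mem_image] at hz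
    obtain ⟨s, hs, rfl⟩ := hz
    obtain ⟨ℓ, hℓ, rfl⟩ := Finset.mem_image.1 hs
    rw [mem_A1] at hℓ
    have fℓ := hA.line ℓ hℓ.1
    have hvℓ := (not_le_iff hp h).1 hℓ.2
    have hzl := cf_spec fℓ hvℓ w
    have hnp : w - cf ℓ v w • v ∉ p := by
      intro hmem
      apply h.wp
      have := p.add_mem hmem (p.smul_mem (cf ℓ v w) h.vp)
      rwa [sub_add_cancel] at this
    refine ⟨finrank_span_singleton ?_, ?_, point_le.2 ?_, ℓ, hℓ.1, ?_, point_le.2 hzl⟩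
    · intro h0
      rw [h0] at hnp
      exact hnp p.zero_mem
    · intro heq
      apply hnp
      rw [← heq]
      exact Submodule.mem_span_singleton_self _
    · exact ℓ₀.sub_mem h.wl (ℓ₀.smul_mem _ h.vl)
    · rintro rfl
      exact hℓ.2 hle

theorem ncard_Pts (hℓ₀ : finrank ℂ ℓ₀ = 2) (hp : finrank ℂ p = 1) (hle : p ≤ ℓ₀)
    (h : Adapted p ℓ₀ v w w') :
    (Pts A p ℓ₀).ncard = ((T hA p v w w').image Prod.fst).card := by
  rw [Pts_eq hA hℓ₀ hp hle h, Set.InjOn.ncard_image, Set.ncard_coe_finset]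
  intro z _ z' _ hzz
  simp only at hzz
  by_contra hne
  have hmem : w - z • v ∈ Submodule.span ℂ {w - z' • v} := by
    rw [← hzz]
    exact Submodule.mem_span_singleton_self _
  have hmem' : w - z' • v ∈ Submodule.span ℂ {w - z' • v} :=
    Submodule.mem_span_singleton_self _
  have h1 := Submodule.sub_mem _ hmem' hmem
  have h2 : w - z' • v - (w - z • v) = (z - z') • v := by
    rw [sub_smul]; abel
  rw [h2, Submodule.smul_mem_iff _ (sub_ne_zero.2 hne)] at h1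
  have h3 : w ∈ Submodule.span ℂ {w - z' • v} := by
    have := Submodule.add_mem _ hmem' (Submodule.smul_mem _ z' h1)
    rwa [sub_add_cancel] at this
  obtain ⟨c, hc⟩ := Submodule.mem_span_singleton.1 h1
  obtain ⟨d, hd⟩ := Submodule.mem_span_singleton.1 h3
  apply h.wp
  have hc0 : c ≠ 0 := by
    rintro rfl
    rw [zero_smul] at hc
    exact h.v0 hc.symm
  have : w = (d / c) • v := by
    calc w = d • (w - z' • v) := hd.symm
      _ = (d / c) • (c • (w - z' • v)) := by rw [smul_smul, div_mul_cancel₀ _ hc0]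
      _ = (d / c) • v := by rw [hc]
  rw [this]
  exact p.smul_mem _ h.vp

/-- **First theorem.** -/
theorem main1 (hA : NoDouble A) (hℓ₀A : ℓ₀ ∈ A) (hp : finrank ℂ p = 1) (hle : p ≤ ℓ₀) :
    {ℓ ∈ A | p ≤ ℓ}.ncard ≤ (Pts A p ℓ₀).ncard := by
  have hℓ₀ := hA.line ℓ₀ hℓ₀A
  obtain ⟨v, w, w', h⟩ := exists_adapted hp hℓ₀ hle
  rw [ncard_through hA hle hℓ₀A, ncard_Pts hA hℓ₀ hp hle h, ← card_D hA hℓ₀ hp hle h]
  exact Forest.core _ _ (T_nonempty hA hp) (hyp_core hA hℓ₀ hp hle h)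

end Pool.Agent.H57.Trans
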