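import Mathlib
import Pool.Agent.H57.Trans
import Pool.Agent.H57.Struct

/-!
# Multiplicities in arrangements without double points
-/

open Finset Module

set_option linter.unusedSectionVars false
set_option linter.unusedVariables false

namespace Pool.Agent.H57.Trans

open Pool.Agent.H57.CB

variable {A : Set (Submodule ℂ W)} (hA : NoDouble A) {p ℓ₀ : Submodule ℂ W} {v w w' : W}

theorem cf_add {ℓ : Submodule ℂ W} (hℓ : finrank ℂ ℓ = 2) {u : W} (hu : u ∉ ℓ) (x y : W) :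
    cf ℓ u (x + y) = cf ℓ u x + cf ℓ u y := by
  apply cf_eq hℓ hu
  have := ℓ.add_mem (cf_spec hℓ hu x) (cf_spec hℓ hu y)
  convert this using 1
  rw [add_smul]; abel

theorem cf_smul {ℓ : Submodule ℂ W} (hℓ : finrank ℂ ℓ = 2) {u : W} (hu : u ∉ ℓ) (c : ℂ) (x : W) :
    cf ℓ u (c • x) = c * cf ℓ u x := by
  apply cf_eq hℓ hu
  have := ℓ.smul_mem c (cf_spec hℓ hu x)
  convert this using 1
  rw [smul_sub, smul_smul]

theorem cf_self {ℓ : Submodule ℂ W} (hℓ : finrank ℂ ℓ = 2) {u : W} (hu : u ∉ ℓ) :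
    cf ℓ u u = 1 := by
  apply cf_eq hℓ hu
  rw [one_smul, sub_self]
  exact ℓ.zero_mem

theorem cf_zero_iff {ℓ : Submodule ℂ W} (hℓ : finrank ℂ ℓ = 2) {u : W} (hu : u ∉ ℓ) {x : W} :
    cf ℓ u x = 0 ↔ x ∈ ℓ := by
  constructor
  · intro h
    have := cf_spec hℓ hu x
    rwa [h, zero_smul, sub_zero] at this
  · intro h
    apply cf_eq hℓ hu
    rwa [zero_smul, sub_zero]

open scoped Classical in
/-- every value on a line through the point is taken at least twice -/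
theorem two_le_fib (hp : finrank ℂ p = 1) (hle : p ≤ ℓ₀) (hℓ₀ : ℓ₀ ∈ A)
    (h : Adapted p ℓ₀ v w w') {ℓ : Submodule ℂ W} (hℓ : ℓ ∈ A1 hA p) :
    2 ≤ ((A1 hA p).filter fun ℓ' => cf ℓ' v w = cf ℓ v w).card := by
  have hℓ' := (mem_A1 hA).1 hℓ
  have fℓ := hA.line ℓ hℓ'.1
  have hvℓ := (not_le_iff hp h).1 hℓ'.2
  obtain ⟨ℓ₁, hℓ₁, hne, hmem⟩ := third_T hA hp hle h hℓ₀ hle hℓ h.wl (cf_spec fℓ hvℓ w) h.wp
  have hℓ₁' := (mem_A1 hA).1 hℓ₁
  apply Finset.one_lt_card.2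
  refine ⟨ℓ, Finset.mem_filter.2 ⟨hℓ, rfl⟩, ℓ₁, Finset.mem_filter.2 ⟨hℓ₁, ?_⟩, hne.symm⟩
  exact cf_eq (hA.line ℓ₁ hℓ₁'.1) ((not_le_iff hp h).1 hℓ₁'.2) hmem

open scoped Classical in
theorem image_T : (T hA p v w w').image Prod.fst = (A1 hA p).image fun ℓ => cf ℓ v w := by
  unfold T
  rw [Finset.image_image]
  rfl

open scoped Classical in
theorem ncard_A (hle : p ≤ ℓ₀) (hℓ₀ : ℓ₀ ∈ A) :
    A.ncard = (A1 hA p).card + {ℓ ∈ A | p ≤ ℓ}.ncard := by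
  have h1 : A.ncard = hA.fin.toFinset.card := Set.ncard_eq_toFinset_card A hA.fin
  have h2 : {ℓ ∈ A | p ≤ ℓ}.ncard = (hA.fin.toFinset.filter fun ℓ => p ≤ ℓ).card := by
    rw [← Set.ncard_coe_finset]
    congr 1
    ext ℓ
    simp
  rw [h1, h2, add_comm]
  exact (Finset.card_filter_add_card_filter_not _).symm

open scoped Classical in
theorem card_A1 (hℓ₀ : ℓ₀ ∈ A) (hp : finrank ℂ p = 1) (hle : p ≤ ℓ₀)
    (h : Adapted p ℓ₀ v w w') :
    {ℓ ∈ A | p ≤ ℓ}.ncard ≤ ((A1 hA p).image fun ℓ => cf ℓ v w).card ∧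
    (A1 hA p).card = ∑ z ∈ (A1 hA p).image (fun ℓ => cf ℓ v w),
      ((A1 hA p).filter fun ℓ => cf ℓ v w = z).card := by
  constructor
  · rw [← image_T hA (w' := w'), ← ncard_Pts hA (hA.line ℓ₀ hℓ₀) hp hle h]
    exact main1 hA hℓ₀ hp hle
  · exact Finset.card_eq_sum_card_image _ _

open scoped Classical in
/-- **The bound.** -/
theorem bound (hA : NoDouble A) (hp : finrank ℂ p = 1) :
    3 * {ℓ ∈ A | p ≤ ℓ}.ncard ≤ A.ncard := by
  rcases Set.eq_empty_or_nonempty {ℓ ∈ A | p ≤ ℓ} with he | ⟨ℓ₀, hℓ₀, hle⟩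
  · rw [he]; simp
  obtain ⟨v, w, w', h⟩ := exists_adapted hp (hA.line ℓ₀ hℓ₀) hle
  obtain ⟨h1, h2⟩ := card_A1 hA hℓ₀ hp hle h
  have h3 := ncard_A hA hle hℓ₀
  have h4 : ((A1 hA p).image fun ℓ => cf ℓ v w).card * 2 ≤ (A1 hA p).card := by
    conv_rhs => rw [h2]
    rw [← smul_eq_mul, ← Finset.sum_const]
    apply Finset.sum_le_sum
    intro z hz
    obtain ⟨ℓ, hℓ, rfl⟩ := Finset.mem_image.1 hz
    exact two_le_fib hA hp hle hℓ₀ h hℓ
  omega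

open scoped Classical in
/-- in the extremal case all values are taken exactly twice -/
theorem fib_two (heq : 3 * {ℓ ∈ A | p ≤ ℓ}.ncard = A.ncard) (hℓ₀ : ℓ₀ ∈ A)
    (hp : finrank ℂ p = 1) (hle : p ≤ ℓ₀) (h : Adapted p ℓ₀ v w w') {ℓ : Submodule ℂ W}
    (hℓ : ℓ ∈ A1 hA p) :
    ((A1 hA p).filter fun ℓ' => cf ℓ' v w = cf ℓ v w).card = 2 := by
  obtain ⟨h1, h2⟩ := card_A1 hA hℓ₀ hp hle h
  have h3 := ncard_A hA hle hℓ₀
  have h4 : ∑ z ∈ (A1 hA p).image (fun ℓ => cf ℓ v w), 2 ≤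
      ∑ z ∈ (A1 hA p).image (fun ℓ => cf ℓ v w),
        ((A1 hA p).filter fun ℓ => cf ℓ v w = z).card := by
    apply Finset.sum_le_sum
    intro z hz
    obtain ⟨ℓ, hℓ, rfl⟩ := Finset.mem_image.1 hz
    exact two_le_fib hA hp hle hℓ₀ h hℓ
  by_contra hcon
  have h5 : 2 < ((A1 hA p).filter fun ℓ' => cf ℓ' v w = cf ℓ v w).card :=
    lt_of_le_of_ne (two_le_fib hA hp hle hℓ₀ h hℓ) (Ne.symm hcon)
  have h6 : ∑ z ∈ (A1 hA p).image (fun ℓ => cf ℓ v w), 2 <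
      ∑ z ∈ (A1 hA p).image (fun ℓ => cf ℓ v w),
        ((A1 hA p).filter fun ℓ => cf ℓ v w = z).card := by
    apply Finset.sum_lt_sum
    · intro z hz
      obtain ⟨ℓ, hℓ, rfl⟩ := Finset.mem_image.1 hz
      exact two_le_fib hA hp hle hℓ₀ h hℓ
    · exact ⟨cf ℓ v w, Finset.mem_image_of_mem _ hℓ, h5⟩
  rw [← h2, Finset.sum_const, smul_eq_mul] at h6
  omega

/-- the Fermat arrangement of order `m` -/
def fermat (m : ℕ) : Set (Submodule ℂ W) :=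
  {ℓ | finrank ℂ ℓ = 2 ∧ ∃ ζ : ℂ, ζ ^ m = 1 ∧
    ((∀ x ∈ ℓ, x 0 = ζ * x 1) ∨ (∀ x ∈ ℓ, x 0 = ζ * x 2) ∨ (∀ x ∈ ℓ, x 1 = ζ * x 2))}

/-- coordinates in an adapted basis -/
theorem exists_coords (hℓ₀ : finrank ℂ ℓ₀ = 2) (hp : finrank ℂ p = 1) (hle : p ≤ ℓ₀)
    (h : Adapted p ℓ₀ v w w') (y : W) : ∃ α β γ : ℂ, y = α • v + β • w + γ • w' := by
  have hli := indep_pair h.v0 h.vp h.wp
  have hspan : Submodule.span ℂ {v, w} = ℓ₀ := by
    apply Submodule.eq_of_le_of_finrank_eq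
    · rw [Submodule.span_le]
      rintro x (rfl | hx)
      · exact h.vl
      · rw [Set.mem_singleton_iff.1 hx]
        exact h.wl
    · rw [hℓ₀]
      have := finrank_span_eq_card hli
      rw [Matrix.range_cons, Matrix.range_cons, Matrix.range_empty, Set.union_empty,
        Set.singleton_union] at this
      rw [this]
      simp
  have h1 := cf_spec hℓ₀ h.wl' y
  rw [← hspan, Submodule.mem_span_pair] at h1
  obtain ⟨α, β, hαβ⟩ := h1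
  refine ⟨α, β, cf (Submodule.span ℂ {v, w}) w' y, ?_⟩
  rw [hαβ, sub_add_cancel]

theorem cf_coords {ℓ : Submodule ℂ W} (hℓ : finrank ℂ ℓ = 2) (hv : v ∉ ℓ) (α β γ : ℂ) :
    cf ℓ v (α • v + β • w + γ • w') = lin (α, β, γ) (cf ℓ v w, cf ℓ v w') := by
  rw [cf_add hℓ hv, cf_add hℓ hv, cf_smul hℓ hv, cf_smul hℓ hv, cf_smul hℓ hv, cf_self hℓ hv]
  unfold lin
  ring

end Pool.Agent.H57.Trans
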