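import Mathlib
import Pool.Agent.H57.Fermat

/-!
# The Fermat arrangements
-/

open Finset Module

set_option linter.unusedSectionVars false
set_option linter.unusedVariables false

namespace Pool.Agent.H57.Trans

open Pool.Agent.H57.CB

/-- the kernel of `x i - ζ x j` -/
noncomputable def kline (i j : Fin 3) (ζ : ℂ) : Submodule ℂ W :=
  LinearMap.ker (LinearMap.proj i - ζ • LinearMap.proj j : W →ₗ[ℂ] ℂ)

theorem mem_kline {i j : Fin 3} {ζ : ℂ} {x : W} : x ∈ kline i j ζ ↔ x i = ζ * x j := by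
  unfold kline
  rw [LinearMap.mem_ker]
  simp [sub_eq_zero]

theorem finrank_kline {i j : Fin 3} (hij : i ≠ j) (ζ : ℂ) : finrank ℂ (kline i j ζ) = 2 := by
  have hne : (LinearMap.proj i - ζ • LinearMap.proj j : W →ₗ[ℂ] ℂ) ≠ 0 := by
    intro h
    have := congrArg (fun f => f (Pi.single i 1)) h
    simp [Pi.single_eq_of_ne (Ne.symm hij)] at this
  have := Module.Dual.finrank_ker_add_one_of_ne_zero (K := ℂ) (V₁ := W) hne
  rw [finrank_W] at this
  have h2 : finrank ℂ (kline i j ζ) + 1 = 3 := this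
  omega

theorem kline_eq {i j : Fin 3} (hij : i ≠ j) {ζ : ℂ} {ℓ : Submodule ℂ W}
    (hℓ : finrank ℂ ℓ = 2) (h : ∀ x ∈ ℓ, x i = ζ * x j) : ℓ = kline i j ζ := by
  apply Submodule.eq_of_le_of_finrank_eq
  · intro x hx
    exact mem_kline.2 (h x hx)
  · rw [hℓ, finrank_kline hij]

open scoped Classical in
/-- the Fermat arrangement as a finite set -/
noncomputable def fermatFin (m : ℕ) : Finset (Submodule ℂ W) :=
  ((Polynomial.nthRootsFinset m (1 : ℂ)).image (kline 0 1)) ∪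
    (((Polynomial.nthRootsFinset m (1 : ℂ)).image (kline 0 2)) ∪
      ((Polynomial.nthRootsFinset m (1 : ℂ)).image (kline 1 2)))

theorem mem_fermat {m : ℕ} {ℓ : Submodule ℂ W} : ℓ ∈ fermat m ↔
    ∃ ζ : ℂ, ζ ^ m = 1 ∧ (ℓ = kline 0 1 ζ ∨ ℓ = kline 0 2 ζ ∨ ℓ = kline 1 2 ζ) := by
  constructor
  · rintro ⟨hℓ, ζ, hζ, h⟩
    refine ⟨ζ, hζ, ?_⟩
    rcases h with h | h | h
    · exact Or.inl (kline_eq (by decide) hℓ h)
    · exact Or.inr (Or.inl (kline_eq (by decide) hℓ h))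
    · exact Or.inr (Or.inr (kline_eq (by decide) hℓ h))
  · rintro ⟨ζ, hζ, h⟩
    rcases h with rfl | rfl | rfl
    · exact ⟨finrank_kline (by decide) ζ, ζ, hζ, Or.inl fun x hx => mem_kline.1 hx⟩
    · exact ⟨finrank_kline (by decide) ζ, ζ, hζ, Or.inr (Or.inl fun x hx => mem_kline.1 hx)⟩
    · exact ⟨finrank_kline (by decide) ζ, ζ, hζ, Or.inr (Or.inr fun x hx => mem_kline.1 hx)⟩

theorem fermat_eq {m : ℕ} (hm : 0 < m) : fermat m = (fermatFin m : Set (Submodule ℂ W)) := by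
  ext ℓ
  rw [mem_fermat]
  unfold fermatFin
  rw [Finset.mem_coe, Finset.mem_union, Finset.mem_union, Finset.mem_image, Finset.mem_image,
    Finset.mem_image]
  simp only [Polynomial.mem_nthRootsFinset hm]
  constructor
  · rintro ⟨ζ, hζ, h | h | h⟩
    · exact Or.inl ⟨ζ, hζ, h.symm⟩
    · exact Or.inr (Or.inl ⟨ζ, hζ, h.symm⟩)
    · exact Or.inr (Or.inr ⟨ζ, hζ, h.symm⟩)
  · rintro (⟨ζ, hζ, h⟩ | ⟨ζ, hζ, h⟩ | ⟨ζ, hζ, h⟩)
    · exact ⟨ζ, hζ, Or.inl h.symm⟩
    · exact ⟨ζ, hζ, Or.inr (Or.inl h.symm)⟩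
    · exact ⟨ζ, hζ, Or.inr (Or.inr h.symm)⟩

theorem card_roots {m : ℕ} (hm : 0 < m) : (Polynomial.nthRootsFinset m (1 : ℂ)).card = m :=
  (Complex.isPrimitiveRoot_exp m hm.ne').card_nthRootsFinset

theorem fermatFin_card_le {m : ℕ} (hm : 0 < m) : (fermatFin m).card ≤ 3 * m := by
  classical
  unfold fermatFin
  refine (Finset.card_union_le _ _).trans ?_
  have h1 : ((Polynomial.nthRootsFinset m (1 : ℂ)).image (kline 0 1)).card ≤ m :=
    Finset.card_image_le.trans (card_roots hm).le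
  have h2 : ((Polynomial.nthRootsFinset m (1 : ℂ)).image (kline 0 2)).card ≤ m :=
    Finset.card_image_le.trans (card_roots hm).le
  have h3 : ((Polynomial.nthRootsFinset m (1 : ℂ)).image (kline 1 2)).card ≤ m :=
    Finset.card_image_le.trans (card_roots hm).le
  have h4 := Finset.card_union_le ((Polynomial.nthRootsFinset m (1 : ℂ)).image (kline 0 2))
    ((Polynomial.nthRootsFinset m (1 : ℂ)).image (kline 1 2))
  omega

/-- the lines of the Fermat arrangement through `(0, 0, 1)` -/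
theorem fermat_through {m : ℕ} (hm : 0 < m) {ℓ : Submodule ℂ W} :
    (ℓ ∈ fermat m ∧ Submodule.span ℂ {(Pi.single 2 1 : W)} ≤ ℓ) ↔
      ∃ ζ : ℂ, ζ ^ m = 1 ∧ ℓ = kline 0 1 ζ := by
  rw [mem_fermat, point_le]
  constructor
  · rintro ⟨⟨ζ, hζ, h⟩, hmem⟩
    have hζ0 : ζ ≠ 0 := by
      rintro rfl
      rw [zero_pow hm.ne'] at hζ
      exact zero_ne_one hζ
    rcases h with h | rfl | rfl
    · exact ⟨ζ, hζ, h⟩
    · rw [mem_kline] at hmem
      simp at hmem
      exact absurd hmem.symm hζ0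
    · rw [mem_kline] at hmem
      simp at hmem
      exact absurd hmem.symm hζ0
  · rintro ⟨ζ, hζ, rfl⟩
    refine ⟨⟨ζ, hζ, Or.inl rfl⟩, ?_⟩
    rw [mem_kline]
    simp

theorem kline_inj {i j : Fin 3} (hij : i ≠ j) : Function.Injective (kline i j) := by
  intro ζ ζ' h
  have hmem : (Pi.single i ζ + Pi.single j 1 : W) ∈ kline i j ζ := by
    rw [mem_kline]
    simp [Pi.single_eq_of_ne hij, Pi.single_eq_of_ne (Ne.symm hij)]
  rw [h, mem_kline] at hmem
  simpa [Pi.single_eq_of_ne hij, Pi.single_eq_of_ne (Ne.symm hij)] using hmem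

theorem ncard_fermat_through {m : ℕ} (hm : 0 < m) :
    {ℓ ∈ fermat m | Submodule.span ℂ {(Pi.single 2 1 : W)} ≤ ℓ}.ncard = m := by
  classical
  have h1 : {ℓ ∈ fermat m | Submodule.span ℂ {(Pi.single 2 1 : W)} ≤ ℓ} =
      (((Polynomial.nthRootsFinset m (1 : ℂ)).image (kline 0 1) : Finset _) :
        Set (Submodule ℂ W)) := by
    ext ℓ
    rw [Set.mem_ofPred_eq, fermat_through hm, Finset.mem_coe, Finset.mem_image]
    simp only [Polynomial.mem_nthRootsFinset hm]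
    constructor
    · rintro ⟨ζ, hζ, h⟩
      exact ⟨ζ, hζ, h.symm⟩
    · rintro ⟨ζ, hζ, h⟩
      exact ⟨ζ, hζ, h.symm⟩
  rw [h1, Set.ncard_coe_finset, Finset.card_image_of_injective _ (kline_inj (by decide)),
    card_roots hm]

end Pool.Agent.H57.Trans
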