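import Mathlib
import Pool.Agent.H57.FermatCard

/-!
# The extremal case
-/

open Finset Module

set_option linter.unusedSectionVars false
set_option linter.unusedVariables false

namespace Pool.Agent.H57.Trans

open Pool.Agent.H57.CB

/-- two distinct planes meet in a nonzero vector -/
theorem exists_meet {ℓ ℓ' : Submodule ℂ W} (hℓ : finrank ℂ ℓ = 2) (hℓ' : finrank ℂ ℓ' = 2) :
    ∃ y : W, y ≠ 0 ∧ y ∈ ℓ ∧ y ∈ ℓ' := by
  have h1 := Submodule.finrank_sup_add_finrank_inf_eq ℓ ℓ'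
  have h2 := Submodule.finrank_le (ℓ ⊔ ℓ')
  rw [finrank_W] at h2
  have h3 : ℓ ⊓ ℓ' ≠ ⊥ := by
    intro h
    rw [h, finrank_bot] at h1
    omega
  obtain ⟨y, hy, hy0⟩ := Submodule.exists_mem_ne_zero_of_ne_bot h3
  exact ⟨y, hy0, hy.1, hy.2⟩

theorem span_pair_eq {ℓ : Submodule ℂ W} (hℓ : finrank ℂ ℓ = 2) {x y : W} (hx : x ∈ ℓ)
    (hy : y ∈ ℓ) (hli : LinearIndependent ℂ ![x, y]) {u : W} (hu : u ∈ ℓ) :
    ∃ μ ν : ℂ, u = μ • x + ν • y := by
  have hspan : Submodule.span ℂ {x, y} = ℓ := by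
    apply Submodule.eq_of_le_of_finrank_eq
    · rw [Submodule.span_le]
      rintro z (rfl | hz)
      · exact hx
      · rw [Set.mem_singleton_iff.1 hz]
        exact hy
    · rw [hℓ]
      have := finrank_span_eq_card hli
      rw [Matrix.range_cons, Matrix.range_cons, Matrix.range_empty, Set.union_empty,
        Set.singleton_union] at this
      rw [this]
      simp
  rw [← hspan, Submodule.mem_span_pair] at hu
  obtain ⟨μ, ν, h⟩ := hu
  exact ⟨μ, ν, h.symm⟩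

variable {A : Set (Submodule ℂ W)} {p : Submodule ℂ W}

/-- the multiplicity of an extremal point is at least three -/
theorem three_le (hA : NoDouble A) (hp : finrank ℂ p = 1)
    (heq : 3 * {ℓ ∈ A | p ≤ ℓ}.ncard = A.ncard) : 3 ≤ {ℓ ∈ A | p ≤ ℓ}.ncard := by
  classical
  have hfin : {ℓ ∈ A | p ≤ ℓ}.Finite := hA.fin.subset fun ℓ h => h.1
  have h0 : {ℓ ∈ A | p ≤ ℓ}.ncard ≠ 0 := by
    intro h0
    rw [h0, mul_zero] at heq
    have : A = ∅ := (Set.ncard_eq_zero hA.fin).1 heq.symm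
    apply hA.pencil
    exact ⟨p, hp, by rw [this]; simp⟩
  have h1 : {ℓ ∈ A | p ≤ ℓ}.ncard ≠ 1 := by
    intro h1
    rw [h1, mul_one] at heq
    -- three lines
    obtain ⟨ℓ₁, ℓ₂, hℓ₁, hℓ₂, hne⟩ := (Set.one_lt_ncard_iff (hs := hA.fin)).1
      (show 1 < A.ncard by omega)
    obtain ⟨y, hy0, hy1, hy2⟩ := exists_meet (hA.line ℓ₁ hℓ₁) (hA.line ℓ₂ hℓ₂)
    obtain ⟨ℓ₃, hℓ₃, h31, h32, hq⟩ := hA.third ℓ₁ hℓ₁ ℓ₂ hℓ₂ hne (Submodule.span ℂ {y})
      (finrank_span_singleton hy0) (point_le.2 hy1) (point_le.2 hy2)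
    apply hA.pencil
    refine ⟨Submodule.span ℂ {y}, finrank_span_singleton hy0, fun ℓ hℓ => ?_⟩
    have hsub : ({ℓ₁, ℓ₂, ℓ₃} : Set (Submodule ℂ W)) ⊆ A := by
      rintro x (rfl | rfl | rfl) <;> assumption
    have hc : ({ℓ₁, ℓ₂, ℓ₃} : Set (Submodule ℂ W)).ncard = 3 :=
      Set.ncard_eq_three.2 ⟨ℓ₁, ℓ₂, ℓ₃, hne, h31.symm, h32.symm, rfl⟩
    have heqA := Set.eq_of_subset_of_ncard_le hsub (by omega) hA.fin
    rw [← heqA] at hℓ
    rcases hℓ with rfl | rfl | rfl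
    · exact point_le.2 hy1
    · exact point_le.2 hy2
    · exact hq
  have h2 : 1 < {ℓ ∈ A | p ≤ ℓ}.ncard := by omega
  obtain ⟨ℓ₁, ℓ₂, hℓ₁, hℓ₂, hne⟩ := (Set.one_lt_ncard_iff (hs := hfin)).1 h2
  obtain ⟨ℓ₃, hℓ₃, h31, h32, hq⟩ := hA.third ℓ₁ hℓ₁.1 ℓ₂ hℓ₂.1 hne p hp hℓ₁.2 hℓ₂.2
  have hsub : ({ℓ₁, ℓ₂, ℓ₃} : Set (Submodule ℂ W)) ⊆ {ℓ ∈ A | p ≤ ℓ} := by
    rintro x (rfl | rfl | rfl)
    · exact hℓ₁
    · exact hℓ₂
    · exact ⟨hℓ₃, hq⟩
  have hc : ({ℓ₁, ℓ₂, ℓ₃} : Set (Submodule ℂ W)).ncard = 3 :=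
    Set.ncard_eq_three.2 ⟨ℓ₁, ℓ₂, ℓ₃, hne, h31.symm, h32.symm, rfl⟩
  calc 3 = ({ℓ₁, ℓ₂, ℓ₃} : Set (Submodule ℂ W)).ncard := hc.symm
    _ ≤ _ := Set.ncard_le_ncard hsub hfin

open scoped Classical in
/-- **The extremal case.** -/
theorem extremal (hA : NoDouble A) (hp : finrank ℂ p = 1)
    (heq : 3 * {ℓ ∈ A | p ≤ ℓ}.ncard = A.ncard) :
    ∃ m : ℕ, 3 ≤ m ∧ ∃ g : W ≃ₗ[ℂ] W, A = Submodule.map g.toLinearMap '' fermat m := by
  have hm := three_le hA hp heq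
  set m := {ℓ ∈ A | p ≤ ℓ}.ncard with hmdef
  have hfin : {ℓ ∈ A | p ≤ ℓ}.Finite := hA.fin.subset fun ℓ h => h.1
  let B : Finset (Submodule ℂ W) := hA.fin.toFinset.filter fun ℓ => p ≤ ℓ
  have hB : ∀ ℓ, ℓ ∈ B ↔ ℓ ∈ A ∧ p ≤ ℓ := fun ℓ => by simp [B]
  have hBcard : B.card = m := by
    rw [hmdef, ← Set.ncard_coe_finset]
    congr 1
    ext ℓ
    rw [Finset.mem_coe, hB]
    rfl
  -- the vector v
  have hpb : p ≠ ⊥ := by
    rintro rfl
    simp at hp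
  obtain ⟨v, hv, hv0⟩ := Submodule.exists_mem_ne_zero_of_ne_bot hpb
  -- the vector w outside all lines through the point
  have hcov : ⋃ q ∈ insert p B, ((q : Submodule ℂ W) : Set W) ≠ Set.univ := by
    apply Subspace.biUnion_ne_univ_of_top_notMem
    intro htop
    rw [Finset.mem_insert, hB] at htop
    rcases htop with h | h
    · rw [← h, finrank_top, finrank_W] at hp
      omega
    · have := hA.line _ h.1
      rw [finrank_top, finrank_W] at this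
      omega
  obtain ⟨w, hw⟩ := (Set.ne_univ_iff_exists_notMem _).1 hcov
  simp only [Set.mem_iUnion, not_exists] at hw
  have hwp : w ∉ p := hw p (Finset.mem_insert_self _ _)
  have hwB : ∀ ℓ ∈ B, w ∉ ℓ := fun ℓ hℓ => hw ℓ (Finset.mem_insert_of_mem hℓ)
  have hli : LinearIndependent ℂ ![v, w] := indep_pair hv0 hv hwp
  let P₀ : Submodule ℂ W := Submodule.span ℂ (Set.range ![v, w])
  have hP₀ : finrank ℂ P₀ = 2 := by
    have := finrank_span_eq_card hli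
    simpa using this
  have hvP : v ∈ P₀ := Submodule.subset_span ⟨0, rfl⟩
  have hwP : w ∈ P₀ := Submodule.subset_span ⟨1, rfl⟩
  have hlt' : P₀ < ⊤ := by
    rw [lt_top_iff_ne_top]
    intro h
    rw [h, finrank_top, finrank_W] at hP₀
    omega
  obtain ⟨w', _, hw'⟩ := SetLike.exists_of_lt hlt'
  have had : Adapted p P₀ v w w' := ⟨hv0, hv, hvP, hwP, hwp, hw'⟩
  have hleP : p ≤ P₀ := by
    rw [point_eq hp hv hv0]
    exact point_le.2 hvP
  -- parameters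
  let D' : Finset ℂ := B.image fun ℓ => -cf ℓ w w'
  have hdm : ∀ ℓ ∈ B, w' + (-cf ℓ w w') • w ∈ ℓ := fun ℓ hℓ =>
    dir_mem (hA.line ℓ ((hB ℓ).1 hℓ).1) (hwB ℓ hℓ)
  have hvB : ∀ ℓ ∈ B, v ∈ ℓ := fun ℓ hℓ => ((hB ℓ).1 hℓ).2 hv
  have hxnp : ∀ a : ℂ, w' + a • w ∉ p := by
    intro a hmem
    apply hw'
    have h1 := P₀.sub_mem (hleP hmem) (P₀.smul_mem a hwP)
    rwa [add_sub_cancel_right] at h1
  have hD'card : D'.card = m := by
    rw [← hBcard]
    apply Finset.card_image_of_injOn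
    intro ℓ hℓ ℓ' hℓ' h
    rw [Finset.mem_coe] at hℓ hℓ'
    have d1 := hdm ℓ hℓ
    have d2 := hdm ℓ' hℓ'
    simp only at h
    rw [← h] at d2
    exact plane_eq (hA.line ℓ ((hB ℓ).1 hℓ).1) (hA.line ℓ' ((hB ℓ').1 hℓ').1) (hvB ℓ hℓ) d1
      (hvB ℓ' hℓ') d2 (dir_indep had hleP _)
  let S' : Finset (ℂ × ℂ) := T hA p v w w'
  have hBne : B.Nonempty := Finset.card_pos.1 (by omega)
  obtain ⟨ℓb, hℓb⟩ := hBne
  have hA1card : (A1 hA p).card = 2 * m := by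
    have := ncard_A hA ((hB ℓb).1 hℓb).2 ((hB ℓb).1 hℓb).1
    omega
  have hS'card : S'.card = 2 * m := by
    rw [← hA1card]
    exact card_T hA hp hleP had
  have hA1v : ∀ ℓ ∈ A1 hA p, finrank ℂ ℓ = 2 ∧ v ∉ ℓ := fun ℓ hℓ =>
    ⟨hA.line ℓ ((mem_A1 hA).1 hℓ).1, (not_le_iff hp had).1 ((mem_A1 hA).1 hℓ).2⟩
  -- fibres along lines through the point
  have hfibx : ∀ ℓa ∈ B, ∀ ℓ ∈ A1 hA p,
      ((A1 hA p).filter fun ℓ' => cf ℓ' v (w' + (-cf ℓa w w') • w) =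
        cf ℓ v (w' + (-cf ℓa w w') • w)).card = 2 := by
    intro ℓa hℓa ℓ hℓ
    have hℓa' := (hB ℓa).1 hℓa
    have hlt : ℓa < ⊤ := by
      rw [lt_top_iff_ne_top]
      intro h
      have := hA.line ℓa hℓa'.1
      rw [h, finrank_top, finrank_W] at this
      omega
    obtain ⟨w'', _, hw''⟩ := SetLike.exists_of_lt hlt
    have had' : Adapted p ℓa v (w' + (-cf ℓa w w') • w) w'' :=
      ⟨hv0, hv, hvB ℓa hℓa, hdm ℓa hℓa, hxnp _, hw''⟩
    exact fib_two hA heq hℓa'.1 hp hℓa'.2 had' hℓ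
  have hcfx : ∀ ℓ ∈ A1 hA p, ∀ a : ℂ, cf ℓ v (w' + a • w) = cf ℓ v w' + cf ℓ v w * a := by
    intro ℓ hℓ a
    obtain ⟨f, hvℓ⟩ := hA1v ℓ hℓ
    rw [cf_add f hvℓ, cf_smul f hvℓ, mul_comm a]
  have hTinj : Set.InjOn (fun ℓ => (cf ℓ v w, cf ℓ v w')) (A1 hA p : Set (Submodule ℂ W)) := by
    intro ℓ hℓ ℓ' hℓ' h
    rw [Finset.mem_coe] at hℓ hℓ'
    simp only [Prod.mk.injEq] at h
    exact pair_inj hp hleP had (hA1v ℓ hℓ).1 (hA1v ℓ' hℓ').1 (hA1v ℓ hℓ).2 (hA1v ℓ' hℓ').2 h.1 h.2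
  have hfib : ∀ a ∈ D', ∀ s ∈ S',
      (S'.filter fun s' => s'.2 + s'.1 * a = s.2 + s.1 * a).card = 2 := by
    intro a ha s hs
    obtain ⟨ℓa, hℓa, rfl⟩ := Finset.mem_image.1 ha
    obtain ⟨ℓ, hℓ, rfl⟩ := Finset.mem_image.1 hs
    rw [← hfibx ℓa hℓa ℓ hℓ]
    have himg : (S'.filter fun s' => s'.2 + s'.1 * (-cf ℓa w w') =
        cf ℓ v w' + cf ℓ v w * (-cf ℓa w w')) =
        ((A1 hA p).filter fun ℓ' => cf ℓ' v (w' + (-cf ℓa w w') • w) =
        cf ℓ v (w' + (-cf ℓa w w') • w)).image fun ℓ => (cf ℓ v w, cf ℓ v w') := by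
      ext s
      simp only [Finset.mem_filter, Finset.mem_image]
      constructor
      · rintro ⟨hs, h⟩
        obtain ⟨ℓ', hℓ', rfl⟩ := Finset.mem_image.1 hs
        refine ⟨ℓ', ⟨hℓ', ?_⟩, rfl⟩
        rw [hcfx ℓ' hℓ', hcfx ℓ hℓ]
        exact h
      · rintro ⟨ℓ', ⟨hℓ', h⟩, rfl⟩
        refine ⟨Finset.mem_image_of_mem _ hℓ', ?_⟩
        rw [hcfx ℓ' hℓ', hcfx ℓ hℓ] at h
        exact h
    simp only
    rw [himg]
    apply Finset.card_image_of_injOn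
    intro ℓ₁ h₁ ℓ₂ h₂ h
    rw [Finset.mem_coe, Finset.mem_filter] at h₁ h₂
    exact hTinj h₁.1 h₂.1 h
  -- three concurrent lines off the point
  have h3 : ∃ L : ℂ × ℂ × ℂ, L.2 ≠ 0 ∧ 3 ≤ (S'.filter fun s => lin L s = 0).card := by
    have hA1ne : (A1 hA p).Nonempty := Finset.card_pos.1 (by omega)
    obtain ⟨ℓ, hℓ⟩ := hA1ne
    let E : Finset (Submodule ℂ W) := B.biUnion fun ℓa =>
      ((A1 hA p).filter fun ℓ' => cf ℓ' v (w' + (-cf ℓa w w') • w) =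
        cf ℓ v (w' + (-cf ℓa w w') • w)).erase ℓ
    have hEcard : E.card ≤ m := by
      calc E.card ≤ B.card * 1 := by
            apply Finset.card_biUnion_le_card_mul
            intro ℓa hℓa
            have hmemf : ℓ ∈ (A1 hA p).filter fun ℓ' =>
                cf ℓ' v (w' + (-cf ℓa w w') • w) = cf ℓ v (w' + (-cf ℓa w w') • w) :=
              Finset.mem_filter.2 ⟨hℓ, rfl⟩
            rw [Finset.card_erase_of_mem hmemf, hfibx ℓa hℓa ℓ hℓ]
        _ = m := by rw [mul_one, hBcard]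
    have hlt : E.card < ((A1 hA p).erase ℓ).card := by
      rw [Finset.card_erase_of_mem hℓ]
      omega
    obtain ⟨ℓ', hℓ'1, hℓ'E⟩ := Finset.exists_mem_notMem_of_card_lt_card hlt
    rw [Finset.mem_erase] at hℓ'1
    obtain ⟨f, hvℓ⟩ := hA1v ℓ hℓ
    obtain ⟨f', hvℓ'⟩ := hA1v ℓ' hℓ'1.2
    obtain ⟨y, hy0, hyℓ, hyℓ'⟩ := exists_meet f f'
    obtain ⟨ℓ₃, hℓ₃, h31, h32, hq⟩ := hA.third ℓ ((mem_A1 hA).1 hℓ).1 ℓ'
      ((mem_A1 hA).1 hℓ'1.2).1 hℓ'1.1.symm (Submodule.span ℂ {y}) (finrank_span_singleton hy0)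
      (point_le.2 hyℓ) (point_le.2 hyℓ')
    have hyp : y ∉ p := by
      intro hyp
      apply hvℓ
      have : v ∈ Submodule.span ℂ {y} := by
        rw [← point_eq hp hyp hy0]; exact hv
      exact (point_le.2 hyℓ) this
    have hℓ₃A1 : ℓ₃ ∈ A1 hA p := by
      rw [mem_A1]
      refine ⟨hℓ₃, fun hpl => hℓ'E ?_⟩
      have hℓ₃B : ℓ₃ ∈ B := (hB ℓ₃).2 ⟨hℓ₃, hpl⟩
      rw [Finset.mem_biUnion]
      refine ⟨ℓ₃, hℓ₃B, Finset.mem_erase.2 ⟨hℓ'1.1, Finset.mem_filter.2 ⟨hℓ'1.2, ?_⟩⟩⟩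
      obtain ⟨μ, ν, hμν⟩ := span_pair_eq (hA.line ℓ₃ hℓ₃) (hvB ℓ₃ hℓ₃B) (point_le.1 hq)
        (indep_pair hv0 hv hyp) (hdm ℓ₃ hℓ₃B)
      rw [hμν, cf_add f' hvℓ', cf_smul f' hvℓ', cf_smul f' hvℓ', cf_self f' hvℓ',
        (cf_zero_iff f' hvℓ').2 hyℓ', cf_add f hvℓ, cf_smul f hvℓ, cf_smul f hvℓ, cf_self f hvℓ,
        (cf_zero_iff f hvℓ).2 hyℓ]
    obtain ⟨f₃, hvℓ₃⟩ := hA1v ℓ₃ hℓ₃A1
    obtain ⟨α, β, γ, hy⟩ := exists_coords hP₀ hp hleP had y
    refine ⟨(α, β, γ), ?_, ?_⟩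
    · intro h0
      apply hyp
      simp only [Prod.mk_eq_zero] at h0
      rw [hy, h0.1, h0.2, zero_smul, zero_smul, add_zero, add_zero]
      exact p.smul_mem α hv
    · have hmem : ∀ ℓ ∈ A1 hA p, y ∈ ℓ → (cf ℓ v w, cf ℓ v w') ∈
          S'.filter fun s => lin (α, β, γ) s = 0 := by
        intro ℓ hℓ hyℓ
        refine Finset.mem_filter.2 ⟨Finset.mem_image_of_mem _ hℓ, ?_⟩
        rw [← cf_coords (hA1v ℓ hℓ).1 (hA1v ℓ hℓ).2, ← hy]
        exact (cf_zero_iff (hA1v ℓ hℓ).1 (hA1v ℓ hℓ).2).2 hyℓ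
      have hsub : ({ℓ, ℓ', ℓ₃} : Finset (Submodule ℂ W)).image
          (fun ℓ => (cf ℓ v w, cf ℓ v w')) ⊆ S'.filter fun s => lin (α, β, γ) s = 0 := by
        intro s hs
        obtain ⟨ℓx, hℓx, rfl⟩ := Finset.mem_image.1 hs
        simp only [Finset.mem_insert, Finset.mem_singleton] at hℓx
        rcases hℓx with rfl | rfl | rfl
        · exact hmem _ hℓ hyℓ
        · exact hmem _ hℓ'1.2 hyℓ'
        · exact hmem _ hℓ₃A1 (point_le.1 hq)
      have hc : (({ℓ, ℓ', ℓ₃} : Finset (Submodule ℂ W)).image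
          (fun ℓ => (cf ℓ v w, cf ℓ v w'))).card = 3 := by
        rw [Finset.card_image_of_injOn]
        · exact Finset.card_eq_three.2 ⟨ℓ, ℓ', ℓ₃, hℓ'1.1.symm, h31.symm, h32.symm, rfl⟩
        · intro a ha b hb h
          have hsubA : ∀ x ∈ (({ℓ, ℓ', ℓ₃} : Finset (Submodule ℂ W)) : Set (Submodule ℂ W)),
              x ∈ A1 hA p := by
            intro x hx
            rw [Finset.mem_coe] at hx
            simp only [Finset.mem_insert, Finset.mem_singleton] at hx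
            rcases hx with rfl | rfl | rfl
            · exact hℓ
            · exact hℓ'1.2
            · exact hℓ₃A1
          exact hTinj (hsubA a ha) (hsubA b hb) h
      rw [← hc]
      exact Finset.card_le_card hsub
  obtain ⟨L, L', hdet, c₀, d₀, hc₀, hd₀, hs1, hs2⟩ := struct S' D' m hm hS'card hD'card hfib h3
  -- the linear equivalence
  let x₁ : W := L.1 • v + L.2.1 • w + L.2.2 • w'
  let x₂ : W := L'.1 • v + L'.2.1 • w + L'.2.2 • w'
  let gl : W →ₗ[ℂ] W :=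
    { toFun := fun y => y 0 • v + (y 1 / d₀) • x₁ + (y 2 / c₀) • x₂
      map_add' := by
        intro x y
        simp only [Pi.add_apply, add_div, add_smul]
        abel
      map_smul' := by
        intro c x
        simp only [Pi.smul_apply, smul_eq_mul, RingHom.id_apply, smul_add, smul_smul,
          mul_div_assoc] }
  have hgl : ∀ y : W, gl y = (y 0 + y 1 / d₀ * L.1 + y 2 / c₀ * L'.1) • v +
      (y 1 / d₀ * L.2.1 + y 2 / c₀ * L'.2.1) • w +
      (y 1 / d₀ * L.2.2 + y 2 / c₀ * L'.2.2) • w' := by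
    intro y
    show y 0 • v + (y 1 / d₀) • x₁ + (y 2 / c₀) • x₂ = _
    simp only [x₁, x₂]
    module
  have hindep : ∀ α β γ : ℂ, α • v + β • w + γ • w' = 0 → α = 0 ∧ β = 0 ∧ γ = 0 := by
    intro α β γ h
    have hγ : γ = 0 := by
      by_contra hγ
      apply hw'
      rw [← P₀.smul_mem_iff hγ]
      have : γ • w' = -(α • v + β • w) := by
        rw [eq_neg_iff_add_eq_zero, add_comm]; exact h
      rw [this]
      exact P₀.neg_mem (P₀.add_mem (P₀.smul_mem _ hvP) (P₀.smul_mem _ hwP))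
    rw [hγ, zero_smul, add_zero] at h
    have := LinearIndependent.pair_iff.1 hli α β h
    exact ⟨this.1, this.2, hγ⟩
  have hinj : Function.Injective gl := by
    rw [← LinearMap.ker_eq_bot, LinearMap.ker_eq_bot']
    intro y hy
    rw [hgl] at hy
    obtain ⟨e0, e1, e2⟩ := hindep _ _ _ hy
    have hy1 : y 1 / d₀ = 0 := by
      have : (L.2.1 * L'.2.2 - L'.2.1 * L.2.2) * (y 1 / d₀) = 0 := by
        linear_combination L'.2.2 * e1 - L'.2.1 * e2
      exact (mul_eq_zero.1 this).resolve_left hdet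
    have hy2 : y 2 / c₀ = 0 := by
      have : (L.2.1 * L'.2.2 - L'.2.1 * L.2.2) * (y 2 / c₀) = 0 := by
        linear_combination L.2.1 * e2 - L.2.2 * e1
      exact (mul_eq_zero.1 this).resolve_left hdet
    rw [hy1, hy2] at e0
    have hy0 : y 0 = 0 := by linear_combination e0
    have hy1' : y 1 = 0 := by
      rw [div_eq_zero_iff] at hy1
      exact hy1.resolve_right hd₀
    have hy2' : y 2 = 0 := by
      rw [div_eq_zero_iff] at hy2
      exact hy2.resolve_right hc₀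
    funext i
    fin_cases i
    · exact hy0
    · exact hy1'
    · exact hy2'
  let g : W ≃ₗ[ℂ] W := LinearEquiv.ofInjectiveEndo gl hinj
  have hg : ∀ y, g y = gl y := fun y => rfl
  have hsub : A ⊆ Submodule.map g.toLinearMap '' fermat m := by
    intro ℓ hℓ
    have fℓ := hA.line ℓ hℓ
    refine ⟨Submodule.comap g.toLinearMap ℓ, ⟨?_, ?_⟩, ?_⟩
    · have h1 : Submodule.map g.toLinearMap (Submodule.comap g.toLinearMap ℓ) = ℓ :=
        Submodule.map_comap_eq_of_surjective g.surjective ℓ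
      rw [← fℓ, ← h1]
      rw [h1]
      have h2 := LinearEquiv.finrank_map_eq g (Submodule.comap g.toLinearMap ℓ)
      rw [← h2]
      exact congrArg (fun q : Submodule ℂ W => finrank ℂ q) h1
    · by_cases hpl : p ≤ ℓ
      · -- lines through the point
        have hℓB : ℓ ∈ B := (hB ℓ).2 ⟨hℓ, hpl⟩
        obtain ⟨h1, h2⟩ := hs2 (-cf ℓ w w') (Finset.mem_image_of_mem _ hℓB)
        refine ⟨_, h2, Or.inr (Or.inr ?_)⟩
        intro y hy
        have hy' : gl y ∈ ℓ := hy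
        rw [hgl] at hy'
        have hvℓ := hvB ℓ hℓB
        have hdℓ := hdm ℓ hℓB
        set a := -cf ℓ w w' with ha
        have hmem : ((y 1 / d₀) * (L.2.1 - a * L.2.2) + (y 2 / c₀) * (L'.2.1 - a * L'.2.2)) • w
            ∈ ℓ := by
          have e1 := ℓ.sub_mem hy' (ℓ.smul_mem (y 0 + y 1 / d₀ * L.1 + y 2 / c₀ * L'.1) hvℓ)
          have e2 := ℓ.sub_mem e1 (ℓ.smul_mem (y 1 / d₀ * L.2.2 + y 2 / c₀ * L'.2.2) hdℓ)
          convert e2 using 1
          module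
        have h0 : (y 1 / d₀) * (L.2.1 - a * L.2.2) + (y 2 / c₀) * (L'.2.1 - a * L'.2.2) = 0 := by
          by_contra hne
          exact hwB ℓ hℓB ((ℓ.smul_mem_iff hne).1 hmem)
        field_simp at h0 ⊢
        linear_combination h0
      · -- other lines
        have hℓ1 : ℓ ∈ A1 hA p := (mem_A1 hA).2 ⟨hℓ, hpl⟩
        obtain ⟨f, hvℓ⟩ := hA1v ℓ hℓ1
        have hmem : ∀ y ∈ Submodule.comap g.toLinearMap ℓ,
            y 0 + y 1 / d₀ * lin L (cf ℓ v w, cf ℓ v w') +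
              y 2 / c₀ * lin L' (cf ℓ v w, cf ℓ v w') = 0 := by
          intro y hy
          have hy' : gl y ∈ ℓ := hy
          have h1 := (cf_zero_iff f hvℓ).2 hy'
          rw [hgl, cf_coords f hvℓ] at h1
          rw [← h1]
          unfold lin
          ring
        rcases hs1 (cf ℓ v w, cf ℓ v w') (Finset.mem_image_of_mem _ hℓ1) with ⟨h1, h2⟩ | ⟨h1, h2⟩
        · refine ⟨_, h2, Or.inr (Or.inl ?_)⟩
          intro y hy
          have h3 := hmem y hy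
          rw [h1] at h3
          linear_combination h3
        · refine ⟨_, h2, Or.inl ?_⟩
          intro y hy
          have h3 := hmem y hy
          rw [h1] at h3
          linear_combination h3
    · exact Submodule.map_comap_eq_of_surjective g.surjective ℓ
  have hm0 : 0 < m := by omega
  refine ⟨m, hm, g, ?_⟩
  have hfinF : (fermat m).Finite := by
    rw [fermat_eq hm0]; exact Finset.finite_toSet _
  apply Set.eq_of_subset_of_ncard_le hsub _ (hfinF.image _)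
  rw [← heq]
  refine (Set.ncard_image_le hfinF).trans ?_
  rw [fermat_eq hm0, Set.ncard_coe_finset]
  exact fermatFin_card_le hm0

/-- the converse -/
theorem fermat_extremal (hA : NoDouble A) {m : ℕ} (hm : 3 ≤ m) {g : W ≃ₗ[ℂ] W}
    (h : A = Submodule.map g.toLinearMap '' fermat m) :
    ∃ p : Submodule ℂ W, finrank ℂ p = 1 ∧ 3 * {ℓ ∈ A | p ≤ ℓ}.ncard = A.ncard := by
  have hm0 : 0 < m := by omega
  have hfinF : (fermat m).Finite := by
    rw [fermat_eq hm0]; exact Finset.finite_toSet _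
  set p₀ : Submodule ℂ W := Submodule.span ℂ {(Pi.single 2 1 : W)} with hp₀
  have hp₀1 : finrank ℂ p₀ = 1 := finrank_span_singleton (by simp)
  have hp : finrank ℂ (Submodule.map g.toLinearMap p₀) = 1 := by
    rw [← hp₀1]
    exact LinearEquiv.finrank_map_eq g p₀
  refine ⟨Submodule.map g.toLinearMap p₀, hp, ?_⟩
  have h1 : {ℓ ∈ A | Submodule.map g.toLinearMap p₀ ≤ ℓ} =
      Submodule.map g.toLinearMap '' {ℓ ∈ fermat m | p₀ ≤ ℓ} := by
    ext ℓ
    rw [h]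
    constructor
    · rintro ⟨⟨ℓ', hℓ', rfl⟩, hle⟩
      exact ⟨ℓ', ⟨hℓ', (Submodule.map_le_map_iff_of_injective g.injective _ _).1 hle⟩, rfl⟩
    · rintro ⟨ℓ', ⟨hℓ', hle⟩, rfl⟩
      exact ⟨⟨ℓ', hℓ', rfl⟩, Submodule.map_mono hle⟩
  have h2 : {ℓ ∈ A | Submodule.map g.toLinearMap p₀ ≤ ℓ}.ncard = m := by
    rw [h1, Set.ncard_image_of_injective _ (Submodule.map_injective_of_injective g.injective)]
    exact ncard_fermat_through hm0
  have h3 := bound hA hp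
  have h4 : A.ncard ≤ 3 * m := by
    rw [h]
    refine (Set.ncard_image_le hfinF).trans ?_
    rw [fermat_eq hm0, Set.ncard_coe_finset]
    exact fermatFin_card_le hm0
  rw [h2] at h3 ⊢
  omega

end Pool.Agent.H57.Trans
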